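import Pool.Agent.W574.RO.Sum
import Pool.Agent.W574.RO.Prod
import Pool.Agent.W574.RO.Equiv

set_option autoImplicit false
set_option linter.unusedSectionVars false
set_option linter.unusedVariables false

/-! # Forced multiplicities of roots: sums of ideals -/

namespace Pool.Agent.Y230.PS

open Polynomial Pool.Agent.W574.SM Pool.Agent.W574.HS Pool.Agent.W574.RO

section

variable {σ τ ι κ : Type} [Fintype ι] [Fintype κ] [DecidableEq ι] [DecidableEq κ]

/-- `r` is a root of multiplicity at least `m` of all polynomials which satisfy a functional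
equation of the `f_j`. -/
def FM (f : ι → MvPolynomial σ ℂ) (r : ℂ) (m : ℕ) : Prop :=
  ∀ b : ℂ[X], IsFunctionalEq f b → (X - C r) ^ m ∣ b

theorem FM.mono {f : ι → MvPolynomial σ ℂ} {r : ℂ} {m n : ℕ} (h : FM f r m) (hn : n ≤ m) :
    FM f r n := fun b hb => (pow_dvd_pow _ hn).trans (h b hb)

theorem taylor_pow_mul (β : ℂ) (n : ℕ) (q : ℂ[X]) :
    taylor β ((X - C β) ^ n * q) = X ^ n * taylor β q := by
  rw [taylor_mul]
  congr 1
  rw [taylor_apply, pow_comp, sub_comp, X_comp, C_comp, add_sub_cancel_right]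

theorem dvd_iff_taylor (β : ℂ) (n : ℕ) (q : ℂ[X]) :
    (X - C β) ^ n ∣ q ↔ ∀ k, k < n → (taylor β q).coeff k = 0 := by
  constructor
  · rintro ⟨u, rfl⟩ k hk
    rw [taylor_pow_mul, coeff_X_pow_mul', if_neg (by omega)]
  · intro h
    obtain ⟨v, hv⟩ := X_pow_dvd_iff.2 h
    refine ⟨taylor (-β) v, ?_⟩
    apply taylor_injective β
    rw [taylor_pow_mul, hv, taylor_taylor, add_neg_cancel, taylor_zero]

/-- the jets of a root -/
theorem exists_functional_jet (g : κ → MvPolynomial τ ℂ) (β : ℂ) (n : ℕ) (hβ : FM g β n) (j : ℕ)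
    (hj : j < n) :
    ∃ φ : AF τ κ →ₗ[ℂ] ℂ, (∀ v ∈ V g 1, φ v = 0) ∧
      ∀ b : ℂ[X], φ (mulb b (G0 g)) = (taylor β b).coeff j := by
  classical
  -- the functional on the quotient
  set L : ℂ[X] →ₗ[ℂ] ℂ := (lcoeff ℂ j).comp (taylor β) with hL
  set π : ℂ[X] →ₗ[ℂ] (AF τ κ ⧸ V g 1) := (V g 1).mkQ.comp (mulbL (G0 g)) with hπ
  have hker : LinearMap.ker π ≤ LinearMap.ker L := by
    intro q hq
    have h1 : mulb q (G0 g) ∈ V g 1 := by
      have : (V g 1).mkQ (mulb q (G0 g)) = 0 := hq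
      rwa [Submodule.mkQ_apply, Submodule.Quotient.mk_eq_zero] at this
    have h2 := hβ q ((functionalEq_iff g q).2 h1)
    exact (dvd_iff_taylor β n q).1 h2 j hj
  obtain ⟨ψ, hψ⟩ : ∃ ψ : (AF τ κ ⧸ V g 1) →ₗ[ℂ] ℂ, ψ.comp π = L := by
    obtain ⟨s, hs⟩ := LinearMap.exists_rightInverse_of_surjective π.rangeRestrict
      (LinearMap.range_rangeRestrict π)
    obtain ⟨ψ, hψ⟩ := LinearMap.exists_extend (p := LinearMap.range π) (L.comp s)
    refine ⟨ψ, LinearMap.ext fun q => ?_⟩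
    have h1 : ψ (π q) = (L.comp s) (π.rangeRestrict q) := by
      rw [← hψ]
      rfl
    change ψ (π q) = L q
    rw [h1, LinearMap.comp_apply]
    have h2 : s (π.rangeRestrict q) - q ∈ LinearMap.ker π := by
      rw [LinearMap.mem_ker, map_sub]
      have h3 := LinearMap.congr_fun hs (π.rangeRestrict q)
      have h4 := congrArg Subtype.val h3
      change π (s (π.rangeRestrict q)) = π q at h4
      rw [h4, sub_self]
    have h3 := hker h2
    rw [LinearMap.mem_ker, map_sub, sub_eq_zero] at h3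
    exact h3
  refine ⟨ψ.comp (V g 1).mkQ, fun v hv => ?_, fun b => ?_⟩
  · rw [LinearMap.comp_apply, Submodule.mkQ_apply, (Submodule.Quotient.mk_eq_zero _).2 hv, map_zero]
  · have := LinearMap.congr_fun hψ b
    exact this

theorem functionalEq_sum_jet (f : ι → MvPolynomial σ ℂ) (g : κ → MvPolynomial τ ℂ) (β : ℂ)
    (n : ℕ) (hβ : FM g β n) (j : ℕ) (hj : j < n) (b : ℂ[X])
    (hb : IsFunctionalEq (sumf f g) b) :
    IsFunctionalEq f (taylor β (hasseDeriv j b)) := by
  classical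
  obtain ⟨φ, hφ1, hφ2⟩ := exists_functional_jet g β n hβ j hj
  obtain ⟨w, hw, e⟩ := slice_V f g φ hφ1 _ ((functionalEq_iff _ _).1 hb)
  rw [functionalEq_iff]
  have : mulb (taylor β (hasseDeriv j b)) (G0 f) = w := by
    funext s
    ext m
    rw [← e, mulb, MvPolynomial.coeff_C_mul]
    change _ = φ fun t => cof m (MvPolynomial.C (b.eval ((∑ j, Sum.elim s t j : ℕ) : ℂ)) *
      G0 (sumf f g) (Sum.elim s t))
    have h1 : (fun t : κ → ℕ => cof m (MvPolynomial.C (b.eval ((∑ j, Sum.elim s t j : ℕ) : ℂ)) *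
        G0 (sumf f g) (Sum.elim s t))) = MvPolynomial.coeff m (G0 f s) •
        mulb (taylor ((∑ j, s j : ℕ) : ℂ) b) (G0 g) := by
      funext t
      rw [MvPolynomial.C_mul', map_smul, G0_sumf]
      change _ • cof m (MvPolynomial.rename Sum.inl (G0 f s) *
        MvPolynomial.rename Sum.inr (G0 g t)) = _
      rw [cof_mul, Pi.smul_apply, mulb, MvPolynomial.C_mul', smul_comm, taylor_eval,
        Fintype.sum_sum_type]
      simp only [Sum.elim_inl, Sum.elim_inr, Nat.cast_add]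
      rw [add_comm]
    rw [h1, map_smul, hφ2, smul_eq_mul, mul_comm, taylor_taylor, taylor_coeff, taylor_eval,
      add_comm β]
  rw [this]
  exact hw

/-- **Forced multiplicities of a sum of ideals.** -/
theorem FM_sum (f : ι → MvPolynomial σ ℂ) (g : κ → MvPolynomial τ ℂ) (α β : ℂ) (m n : ℕ)
    (hm : 1 ≤ m) (hn : 1 ≤ n) (hα : FM f α m) (hβ : FM g β n) :
    FM (sumf f g) (α + β) (m + n - 1) := by
  intro b hb
  rw [dvd_iff_taylor]
  intro k hk
  obtain ⟨j, i, hj, hi, rfl⟩ : ∃ j i, j < n ∧ i < m ∧ k = i + j := by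
    by_cases h : k < m
    · exact ⟨0, k, by omega, h, rfl⟩
    · exact ⟨k + 1 - m, m - 1, by omega, by omega, by omega⟩
  have h1 := hα _ (functionalEq_sum_jet f g β n hβ j hj b hb)
  have h2 := (dvd_iff_taylor α m _).1 h1 i hi
  rw [taylor_taylor, taylor_coeff] at h2
  have h3 := congrArg (fun L : ℂ[X] →ₗ[ℂ] ℂ[X] => (L b).eval (α + β))
    (hasseDeriv_comp (R := ℂ) i j)
  simp only [LinearMap.comp_apply, LinearMap.smul_apply] at h3
  rw [h2, eval_smul, nsmul_eq_mul] at h3
  rw [taylor_coeff]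
  have h4 : ((i + j).choose i : ℂ) ≠ 0 := by
    exact_mod_cast (Nat.choose_pos (by omega)).ne'
  exact (mul_eq_zero.1 h3.symm).resolve_left h4

end

end Pool.Agent.Y230.PS
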