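import Pool.Agent.W574.RO.Equiv

set_option autoImplicit false
set_option linter.unusedSectionVars false
set_option linter.unusedVariables false

/-! # Automorphisms and functional equations -/

namespace Pool.Agent.Y230.PS

open MvPolynomial Pool.Agent.W574.SM Pool.Agent.W574.HS Pool.Agent.W574.RO

variable {σ ι : Type} [Fintype ι] [DecidableEq ι]

/-- transport by an automorphism -/
noncomputable def TA (Φ : MvPolynomial σ ℂ ≃ₐ[ℂ] MvPolynomial σ ℂ) : AF σ ι →ₗ[ℂ] AF σ ι where
  toFun H := fun s => Φ.symm (H s)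
  map_add' H H' := by
    funext s
    rw [Pi.add_apply, map_add]
    rfl
  map_smul' a H := by
    funext s
    rw [Pi.smul_apply, map_smul]
    rfl

theorem TA_V (Φ : MvPolynomial σ ℂ ≃ₐ[ℂ] MvPolynomial σ ℂ)
    (hW : ∀ Q : Module.End ℂ (MvPolynomial σ ℂ), Q ∈ weyl σ →
      ∃ R : weyl σ, ∀ p, (R : Module.End ℂ (MvPolynomial σ ℂ)) p = Φ.symm (Q (Φ p)))
    (f : ι → MvPolynomial σ ℂ) (a : ℤ) (H : AF σ ι) (hH : H ∈ V (fun j => Φ (f j)) a) :
    TA Φ H ∈ V f a := by
  classical
  induction hH using Submodule.span_induction with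
  | mem H hH =>
    obtain ⟨P, c, hc, rfl⟩ := hH
    choose R hR using fun β : ι →₀ ℕ => hW (P β).1 (P β).2
    have key : TA Φ (gen (fun j => Φ (f j)) P c) = ∑ β ∈ P.support,
        gen f (Finsupp.single β (R β)) c := by
      funext s
      have hg : gterm (fun j => Φ (f j)) c s = Φ (gterm f c s) := by
        rw [gterm, gterm, map_mul, map_prod]
        congr 1
        · exact (Φ.commutes _).symm
        · refine Finset.prod_congr rfl fun j _ => ?_
          rw [map_pow]
      change Φ.symm (applyAt P s (gterm (fun j => Φ (f j)) c _)) = _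
      rw [applyAt, Finsupp.sum, map_sum, Finset.sum_apply]
      refine Finset.sum_congr rfl fun β _ => ?_
      rw [gen, applyAt_single, hR, map_smul, hg]
    rw [key]
    exact Submodule.sum_mem _ fun β _ => gen_mem f _ _ hc
  | zero => rw [map_zero]; exact Submodule.zero_mem _
  | add H H' _ _ h h' => rw [map_add]; exact Submodule.add_mem _ h h'
  | smul r H _ h => rw [map_smul]; exact Submodule.smul_mem _ _ h

theorem functionalEq_auto (Φ : MvPolynomial σ ℂ ≃ₐ[ℂ] MvPolynomial σ ℂ)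
    (hW : ∀ Q : Module.End ℂ (MvPolynomial σ ℂ), Q ∈ weyl σ →
      ∃ R : weyl σ, ∀ p, (R : Module.End ℂ (MvPolynomial σ ℂ)) p = Φ.symm (Q (Φ p)))
    (f : ι → MvPolynomial σ ℂ) (b : Polynomial ℂ)
    (hb : IsFunctionalEq (fun j => Φ (f j)) b) : IsFunctionalEq f b := by
  rw [functionalEq_iff] at hb ⊢
  have h1 := TA_V Φ hW f 1 _ hb
  have h2 : TA Φ (mulb b (G0 fun j => Φ (f j))) = mulb b (G0 f) := by
    funext s
    change Φ.symm (C (b.eval ((∑ j, s j : ℕ) : ℂ)) * ∏ j, Φ (f j) ^ s j) = _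
    have h3 : C (b.eval ((∑ j, s j : ℕ) : ℂ)) * ∏ j, Φ (f j) ^ s j =
        Φ (C (b.eval ((∑ j, s j : ℕ) : ℂ)) * ∏ j, f j ^ s j) := by
      rw [map_mul, map_prod]
      congr 1
      · exact (Φ.commutes _).symm
      · refine Finset.prod_congr rfl fun j _ => ?_
        rw [map_pow]
    rw [h3, AlgEquiv.symm_apply_apply]
    rfl
  rw [← h2]
  exact h1

/-- scaling of the variables -/
noncomputable def sclC (c : σ → ℂ) : MvPolynomial σ ℂ →ₐ[ℂ] MvPolynomial σ ℂ :=
  aeval fun i => C (c i) * X i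

theorem sclC_comp (c c' : σ → ℂ) (h : ∀ i, c i * c' i = 1) :
    (sclC c).comp (sclC c') = AlgHom.id ℂ _ := by
  apply MvPolynomial.algHom_ext
  intro i
  rw [AlgHom.comp_apply, sclC, sclC, aeval_X, map_mul, aeval_X, algHom_C, algebraMap_eq,
    ← mul_assoc, ← map_mul, mul_comm (c' i), h i, map_one, one_mul]
  rfl

/-- scaling as an automorphism -/
noncomputable def sclE (c : σ → ℂ) (hc : ∀ i, c i ≠ 0) :
    MvPolynomial σ ℂ ≃ₐ[ℂ] MvPolynomial σ ℂ :=
  AlgEquiv.ofAlgHom (sclC c) (sclC fun i => (c i)⁻¹)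
    (sclC_comp _ _ fun i => mul_inv_cancel₀ (hc i)) (sclC_comp _ _ fun i => inv_mul_cancel₀ (hc i))

theorem pderiv_scl (c : σ → ℂ) (i : σ) (q : MvPolynomial σ ℂ) :
    pderiv i (sclC c q) = C (c i) * sclC c (pderiv i q) := by
  classical
  induction q using MvPolynomial.induction_on with
  | C a => rw [sclC, algHom_C, algebraMap_eq, pderiv_C, map_zero, mul_zero]
  | add q q' h h' => rw [map_add, map_add, h, h', map_add, map_add, mul_add]
  | mul_X q j h =>
    have h1 : sclC c (X j : MvPolynomial σ ℂ) = C (c j) * X j := aeval_X _ _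
    rw [map_mul, h1, Derivation.leibniz, Derivation.leibniz, Derivation.leibniz, pderiv_C, h,
      pderiv_X]
    simp only [smul_eq_mul, map_add, map_mul, h1]
    by_cases hij : j = i
    · subst hij
      simp only [Pi.single_eq_same, map_one]
      ring
    · simp only [Pi.single_eq_of_ne hij, map_zero]
      ring

theorem sclE_conj (c : σ → ℂ) (hc : ∀ i, c i ≠ 0) (Q : Module.End ℂ (MvPolynomial σ ℂ))
    (hQ : Q ∈ weyl σ) : ∃ R : weyl σ, ∀ p, (R : Module.End ℂ (MvPolynomial σ ℂ)) p =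
      (sclE c hc).symm (Q (sclE c hc p)) := by
  classical
  have hse : ∀ p, (sclE c hc).symm (sclE c hc p) = p := AlgEquiv.symm_apply_apply _
  have hes : ∀ p, sclE c hc ((sclE c hc).symm p) = p := AlgEquiv.apply_symm_apply _
  induction hQ using Algebra.adjoin_induction with
  | mem Q h =>
    rcases h with ⟨i, rfl⟩ | ⟨i, rfl⟩
    · refine ⟨(c i)⁻¹ • ⟨_, Algebra.subset_adjoin (Or.inl ⟨i, rfl⟩)⟩, fun p => ?_⟩
      change (c i)⁻¹ • (X i * p) = (sclE c hc).symm (X i * sclE c hc p)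
      rw [map_mul, hse]
      have h1 : (sclE c hc).symm (X i) = C (c i)⁻¹ * X i := aeval_X _ _
      rw [h1, ← C_mul', mul_assoc]
    · refine ⟨c i • ⟨_, Algebra.subset_adjoin (Or.inr ⟨i, rfl⟩)⟩, fun p => ?_⟩
      change c i • pderiv i p = (sclE c hc).symm (pderiv i (sclE c hc p))
      have h1 : pderiv i (sclE c hc p) = C (c i) * sclE c hc (pderiv i p) := pderiv_scl c i p
      have h2 : (sclE c hc).symm (C (c i)) = C (c i) := (sclE c hc).symm.commutes _
      rw [h1, map_mul, hse, h2, C_mul']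
  | algebraMap r =>
    refine ⟨algebraMap ℂ _ r, fun p => ?_⟩
    change r • p = (sclE c hc).symm (r • sclE c hc p)
    rw [map_smul, hse]
  | add Q Q' _ _ h h' =>
    obtain ⟨R, hR⟩ := h
    obtain ⟨R', hR'⟩ := h'
    refine ⟨R + R', fun p => ?_⟩
    change (R : Module.End ℂ (MvPolynomial σ ℂ)) p + (R' : Module.End ℂ (MvPolynomial σ ℂ)) p = _
    rw [hR, hR', LinearMap.add_apply, map_add]
  | mul Q Q' _ _ h h' =>
    obtain ⟨R, hR⟩ := h
    obtain ⟨R', hR'⟩ := h'
    refine ⟨R * R', fun p => ?_⟩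
    change (R : Module.End ℂ (MvPolynomial σ ℂ)) ((R' : Module.End ℂ (MvPolynomial σ ℂ)) p) = _
    rw [hR, hR', hes, Module.End.mul_apply]

/-- functional equations are invariant under scaling of the variables -/
theorem functionalEq_scl (c : σ → ℂ) (hc : ∀ i, c i ≠ 0) (f : ι → MvPolynomial σ ℂ)
    (b : Polynomial ℂ) (hb : IsFunctionalEq f b) : IsFunctionalEq (fun j => sclC c (f j)) b := by
  have hc' : ∀ i, (c i)⁻¹ ≠ 0 := fun i => inv_ne_zero (hc i)
  refine functionalEq_auto (sclE (fun i => (c i)⁻¹) hc') (sclE_conj _ hc') _ b ?_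
  have : (fun j => sclE (fun i => (c i)⁻¹) hc' (sclC c (f j))) = f := by
    funext j
    have h1 := congrArg (fun ψ : MvPolynomial σ ℂ →ₐ[ℂ] MvPolynomial σ ℂ => ψ (f j))
      (sclC_comp (fun i => (c i)⁻¹) c fun i => inv_mul_cancel₀ (hc i))
    exact h1
  rw [this]
  exact hb

end Pool.Agent.Y230.PS
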