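import Pool.Agent.Y230.PS.Fam2

set_option autoImplicit false
set_option linter.unusedSectionVars false
set_option linter.unusedVariables false

/-! # Cones -/

namespace Pool.Agent.Y230.PS

open MeasureTheory Pool.Agent.W427.SMC Pool.Agent.Y230.PT
open scoped ENNReal
open Pool.Agent.Y230.RE

attribute [local instance] msZ bsZ

variable {p : ℕ} [Fact p.Prime]

/-- multiplication by a unit preserves the measure -/
theorem mp_unit (u : ℤ_[p]) (hu : IsUnit u) :
    MeasurePreserving (fun z => u * z) (mu p) (mu p) := by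
  have hm : Measurable (fun z : ℤ_[p] => u * z) := (continuous_const.mul continuous_id).measurable
  refine ⟨hm, ?_⟩
  have hpr : IsProbabilityMeasure ((mu p).map (fun z => u * z)) :=
    Measure.isProbabilityMeasure_map hm.aemeasurable
  obtain ⟨v, rfl⟩ := hu
  have hinv : ((mu p).map (fun z => (v : ℤ_[p]) * z)).IsAddLeftInvariant := by
    refine ⟨fun t => ?_⟩
    refine Measure.ext_of_lintegral _ fun g hg => ?_
    have h1 := lintegral_map (μ := mu p) (hg.comp (measurable_const_add t)) hm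
    simp only [Function.comp_apply] at h1
    rw [lintegral_map hg (measurable_const_add t), lintegral_map hg hm, h1,
      ← lintegral_add_left_eq_self (μ := mu p) (fun z => g ((v : ℤ_[p]) * z))
        (((v⁻¹ : ℤ_[p]ˣ) : ℤ_[p]) * t)]
    refine lintegral_congr fun z => ?_
    congr 1
    rw [mul_add, ← mul_assoc, Units.mul_inv, one_mul]
  exact mu_unique p _

theorem isUnit_res (w : ZMod (p ^ 1)) (hw : w ≠ 0) (z : ℤ_[p]) :
    IsUnit ((w.val : ℤ_[p]) + (p : ℤ_[p]) ^ 1 * z) := by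
  have hz : NeZero (p ^ 1) := ⟨pow_ne_zero _ (Fact.out : p.Prime).ne_zero⟩
  rw [PadicInt.isUnit_iff]
  by_contra hne
  have h1 : ‖(w.val : ℤ_[p]) + (p : ℤ_[p]) ^ 1 * z‖ < 1 :=
    lt_of_le_of_ne (PadicInt.norm_le_one _) hne
  rw [PadicInt.norm_lt_one_iff_dvd] at h1
  have h2 : (p : ℤ_[p]) ∣ (w.val : ℤ_[p]) := by
    have h3 : (p : ℤ_[p]) ∣ (p : ℤ_[p]) ^ 1 * z := by
      rw [pow_one]
      exact dvd_mul_right _ _
    exact (dvd_add_left h3).1 h1
  rw [p_dvd_natCast] at h2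
  apply hw
  have h4 : w.val < p ^ 1 := ZMod.val_lt w
  have h5 : w.val = 0 := Nat.eq_zero_of_dvd_of_lt h2 (h4.trans_eq (pow_one p))
  exact (ZMod.val_eq_zero w).1 h5

/-- the integral of a function which is constant on the units -/
theorem avg1 (g : ℤ_[p] → ℝ≥0∞) (hg : Measurable g) (c : ℝ≥0∞) (h : ∀ z, IsUnit z → g z = c) :
    ∫⁻ z, g z ∂(mu p) = (p : ℝ≥0∞)⁻¹ * ∫⁻ z, g ((p : ℤ_[p]) * z) ∂(mu p) +
      (1 - (p : ℝ≥0∞)⁻¹) * c := by
  classical
  have hz : NeZero (p ^ 1) := ⟨pow_ne_zero _ (Fact.out : p.Prime).ne_zero⟩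
  have hp0 : (p : ℝ≥0∞) ≠ 0 := by exact_mod_cast (Fact.out : p.Prime).ne_zero
  rw [lintegral_sm p 1 g hg, sm, ← Finset.add_sum_erase Finset.univ _ (Finset.mem_univ 0)]
  congr 1
  · rw [ZMod.val_zero, Nat.cast_zero, pow_one]
    simp only [pow_one, zero_add]
  · have h1 : ∀ w ∈ Finset.univ.erase (0 : ZMod (p ^ 1)), ((p : ℝ≥0∞)⁻¹) ^ 1 *
        ∫⁻ z, g ((w.val : ℤ_[p]) + (p : ℤ_[p]) ^ 1 * z) ∂(mu p) = (p : ℝ≥0∞)⁻¹ * c := by
      intro w hw
      rw [pow_one, lintegral_congr fun z => h _ (isUnit_res w (Finset.ne_of_mem_erase hw) z),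
        lintegral_const, measure_univ, mul_one]
    rw [Finset.sum_congr rfl h1, Finset.sum_const, Finset.card_erase_of_mem (Finset.mem_univ _),
      Finset.card_univ, ZMod.card, nsmul_eq_mul, ← mul_assoc, pow_one]
    congr 1
    have h2 : ((p - 1 : ℕ) : ℝ≥0∞) = (p : ℝ≥0∞) - 1 := by
      rw [ENNReal.natCast_sub, Nat.cast_one]
    rw [h2, ENNReal.sub_mul (fun _ _ => ENNReal.inv_ne_top.2 hp0), one_mul,
      ENNReal.mul_inv_cancel hp0 (ENNReal.natCast_ne_top p)]

section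

variable {n : ℕ} {ι : Type} [Fintype ι]

theorem eval_hom {σ : Type} [Fintype σ] (q : MvPolynomial σ ℚ_[p]) (d : ℕ)
    (hq : q.IsHomogeneous d) (a : ℚ_[p]) (y : σ → ℚ_[p]) :
    MvPolynomial.eval (fun i => a * y i) q = a ^ d * MvPolynomial.eval y q := by
  rw [MvPolynomial.eval_eq', MvPolynomial.eval_eq', Finset.mul_sum]
  refine Finset.sum_congr rfl fun m hm => ?_
  have h1 : ∏ i, (a * y i) ^ m i = a ^ d * ∏ i, y i ^ m i := by
    simp only [mul_pow]
    rw [Finset.prod_mul_distrib, Finset.prod_pow_eq_pow_sum]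
    congr 2
    have h2 := hq (MvPolynomial.mem_support_iff.1 hm)
    rw [Finsupp.weight_apply, Finsupp.sum_fintype _ _ (by simp)] at h2
    simpa using h2
  rw [h1]
  ring

/-- the dehomogenization -/
noncomputable def dehK (i : Fin (n + 1)) :
    MvPolynomial (Fin (n + 1)) ℚ_[p] →ₐ[ℚ_[p]] MvPolynomial (Fin n) ℚ_[p] :=
  MvPolynomial.aeval (Fin.insertNth i (1 : MvPolynomial (Fin n) ℚ_[p]) MvPolynomial.X)

/-- scaling of the variables -/
noncomputable def scl {σ : Type} (c : σ → ℚ_[p]) (f : ι → MvPolynomial σ ℚ_[p]) :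
    ι → MvPolynomial σ ℚ_[p] :=
  fun j => MvPolynomial.aeval (fun i => MvPolynomial.C (c i) * MvPolynomial.X i) (f j)

theorem eval_scl {σ : Type} (c : σ → ℚ_[p]) (f : ι → MvPolynomial σ ℚ_[p]) (j : ι)
    (y : σ → ℚ_[p]) :
    MvPolynomial.eval y (scl c f j) = MvPolynomial.eval (fun i => c i * y i) (f j) := by
  unfold scl
  rw [MvPolynomial.aeval_def, MvPolynomial.eval_eval₂]
  congr 1
  · ext; simp
  · funext i
    simp

theorem eval_dehK (i : Fin (n + 1)) (q : MvPolynomial (Fin (n + 1)) ℚ_[p]) (y : Fin n → ℚ_[p]) :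
    MvPolynomial.eval y (dehK i q) = MvPolynomial.eval (Fin.insertNth i 1 y) q := by
  unfold dehK
  rw [MvPolynomial.aeval_def, MvPolynomial.eval_eval₂]
  congr 1
  · ext; simp
  · funext k
    refine Fin.succAboveCases i ?_ (fun j => ?_) k
    · simp
    · simp

/-- the inclusion and the insertion of a coordinate -/
theorem inc_ins (i : Fin (n + 1)) (a : ℤ_[p]) (w : Fin n → ℤ_[p]) :
    (fun k => inc p ((Fin.insertNth i a w : Fin (n + 1) → ℤ_[p]) k)) =
      (Fin.insertNth i (inc p a) (fun k => inc p (w k)) : Fin (n + 1) → ℚ_[p]) := by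
  funext k
  induction k using Fin.succAboveCases i with
  | x => rw [Fin.insertNth_apply_same, Fin.insertNth_apply_same]
  | p j => rw [Fin.insertNth_apply_succAbove, Fin.insertNth_apply_succAbove]

/-- the size of a family at a point with a given coordinate -/
theorem sz_ins (f : ι → MvPolynomial (Fin (n + 1)) ℚ_[p]) (i : Fin (n + 1)) (a : ℤ_[p])
    (w : Fin n → ℤ_[p]) :
    sz f (Fin.insertNth i a w) = ‖fun j => MvPolynomial.eval
      (Fin.insertNth i (inc p a) (fun k => inc p (w k)) : Fin (n + 1) → ℚ_[p]) (f j)‖ := by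
  unfold sz
  rw [inc_ins]

theorem ins_scale (i : Fin (n + 1)) (a : ℚ_[p]) (w : Fin n → ℚ_[p]) :
    (fun k => Function.update (1 : Fin (n + 1) → ℚ_[p]) i (p : ℚ_[p]) k *
      (Fin.insertNth i a w : Fin (n + 1) → ℚ_[p]) k) =
      (Fin.insertNth i ((p : ℚ_[p]) * a) w : Fin (n + 1) → ℚ_[p]) := by
  funext k
  induction k using Fin.succAboveCases i with
  | x => rw [Fin.insertNth_apply_same, Fin.insertNth_apply_same, Function.update_self]
  | p j =>
    rw [Fin.insertNth_apply_succAbove, Fin.insertNth_apply_succAbove,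
      Function.update_of_ne (Fin.succAbove_ne i j), Pi.one_apply, one_mul]

theorem ins_smul (i : Fin (n + 1)) (a : ℚ_[p]) (w : Fin n → ℚ_[p]) :
    (Fin.insertNth i a (fun k => a * w k) : Fin (n + 1) → ℚ_[p]) =
      fun k => a * (Fin.insertNth i 1 w : Fin (n + 1) → ℚ_[p]) k := by
  funext k
  induction k using Fin.succAboveCases i with
  | x => rw [Fin.insertNth_apply_same, Fin.insertNth_apply_same, mul_one]
  | p j => rw [Fin.insertNth_apply_succAbove, Fin.insertNth_apply_succAbove]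

theorem sz_scl_ins (f : ι → MvPolynomial (Fin (n + 1)) ℚ_[p]) (i : Fin (n + 1)) (a : ℤ_[p])
    (w : Fin n → ℤ_[p]) :
    sz (scl (Function.update 1 i (p : ℚ_[p])) f) (Fin.insertNth i a w) =
      sz f (Fin.insertNth i ((p : ℤ_[p]) * a) w) := by
  rw [sz_ins, sz_ins]
  congr 1
  funext j
  rw [eval_scl, ins_scale]
  congr 3

theorem sz_unit_ins (f : ι → MvPolynomial (Fin (n + 1)) ℚ_[p]) (d : ℕ)
    (hf : ∀ j, (f j).IsHomogeneous d) (i : Fin (n + 1)) (a : ℤ_[p]) (ha : IsUnit a)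
    (w : Fin n → ℤ_[p]) :
    sz f (Fin.insertNth i a (fun k => a * w k)) = sz (fun j => dehK i (f j)) w := by
  rw [sz_ins]
  unfold sz
  have h1 : (fun k => inc p (a * w k)) = fun k => inc p a * inc p (w k) := by
    funext k
    simp [inc]
  have h4 : (fun j => MvPolynomial.eval (Fin.insertNth i (inc p a) (fun k => inc p (a * w k)) :
      Fin (n + 1) → ℚ_[p]) (f j)) =
      (inc p a) ^ d • fun j => MvPolynomial.eval (fun k => inc p (w k)) (dehK i (f j)) := by
    funext j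
    rw [Pi.smul_apply, smul_eq_mul, eval_dehK, ← eval_hom (f j) d (hf j), h1, ins_smul]
  rw [h4, norm_smul, norm_pow]
  have h5 : ‖inc p a‖ = 1 := PadicInt.isUnit_iff.1 ha
  rw [h5, one_pow, one_mul]

theorem ins_meas (i : Fin (n + 1)) : Measurable (fun z : ℤ_[p] × (Fin n → ℤ_[p]) =>
    (Fin.insertNth i z.1 z.2 : Fin (n + 1) → ℤ_[p])) := by
  refine measurable_pi_lambda _ fun k => ?_
  induction k using Fin.succAboveCases i with
  | x =>
    simp only [Fin.insertNth_apply_same]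
    exact measurable_fst
  | p j =>
    simp only [Fin.insertNth_apply_succAbove]
    exact (measurable_pi_apply j).comp measurable_snd

theorem ins_meas' (i : Fin (n + 1)) (a : ℤ_[p]) : Measurable (fun w : Fin n → ℤ_[p] =>
    (Fin.insertNth i a w : Fin (n + 1) → ℤ_[p])) := by
  refine measurable_pi_lambda _ fun k => ?_
  induction k using Fin.succAboveCases i with
  | x =>
    simp only [Fin.insertNth_apply_same]
    exact measurable_const
  | p j =>
    simp only [Fin.insertNth_apply_succAbove]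
    exact measurable_pi_apply j

theorem sz_ins_meas (f : ι → MvPolynomial (Fin (n + 1)) ℚ_[p]) (i : Fin (n + 1)) (s : ℝ) :
    Measurable (fun z : ℤ_[p] × (Fin n → ℤ_[p]) =>
      ENNReal.ofReal (sz f (Fin.insertNth i z.1 z.2 : Fin (n + 1) → ℤ_[p]) ^ s)) :=
  (ENNReal.measurable_ofReal.comp ((sz_meas f).pow_const s)).comp (ins_meas i)

theorem sz_ins_meas' (f : ι → MvPolynomial (Fin (n + 1)) ℚ_[p]) (i : Fin (n + 1)) (a : ℤ_[p])
    (s : ℝ) : Measurable (fun w : Fin n → ℤ_[p] =>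
      ENNReal.ofReal (sz f (Fin.insertNth i a w : Fin (n + 1) → ℤ_[p]) ^ s)) :=
  (ENNReal.measurable_ofReal.comp ((sz_meas f).pow_const s)).comp (ins_meas' i a)

/-- the integral over the units -/
theorem unit_int (f : ι → MvPolynomial (Fin (n + 1)) ℚ_[p]) (d : ℕ)
    (hf : ∀ j, (f j).IsHomogeneous d) (i : Fin (n + 1)) (s : ℝ) (a : ℤ_[p]) (ha : IsUnit a) :
    ∫⁻ w, ENNReal.ofReal (sz f (Fin.insertNth i a w : Fin (n + 1) → ℤ_[p]) ^ s)
        ∂(Measure.pi fun _ : Fin n => mu p) =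
      ∫⁻ w, ENNReal.ofReal (sz (fun j => dehK i (f j)) w ^ s)
        ∂(Measure.pi fun _ : Fin n => mu p) := by
  have hmu : MeasurePreserving (fun (w : Fin n → ℤ_[p]) k => a * w k)
      (Measure.pi fun _ : Fin n => mu p) (Measure.pi fun _ : Fin n => mu p) :=
    measurePreserving_pi (fun _ : Fin n => mu p) (fun _ : Fin n => mu p) (fun _ => mp_unit a ha)
  rw [← hmu.lintegral_comp (sz_ins_meas' f i a s)]
  refine lintegral_congr fun w => ?_
  rw [sz_unit_ins f d hf i a ha w]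

/-- Fubini -/
theorem ins_fubini (h : ι → MvPolynomial (Fin (n + 1)) ℚ_[p]) (i : Fin (n + 1)) (s : ℝ) :
    ∫⁻ x, ENNReal.ofReal (sz h x ^ s) ∂(Measure.pi fun _ : Fin (n + 1) => mu p) =
    ∫⁻ a, ∫⁻ w, ENNReal.ofReal (sz h (Fin.insertNth i a w : Fin (n + 1) → ℤ_[p]) ^ s)
      ∂(Measure.pi fun _ : Fin n => mu p) ∂(mu p) := by
  have hmp := measurePreserving_piFinSuccAbove (fun _ : Fin (n + 1) => mu p) i
  rw [← lintegral_prod _ (sz_ins_meas h i s).aemeasurable]
  refine Eq.trans ?_ (hmp.lintegral_comp (sz_ins_meas h i s))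
  refine lintegral_congr fun x => ?_
  have h3 : (Fin.insertNth i ((MeasurableEquiv.piFinSuccAbove (fun _ => ℤ_[p]) i) x).1
      ((MeasurableEquiv.piFinSuccAbove (fun _ => ℤ_[p]) i) x).2 : Fin (n + 1) → ℤ_[p]) = x := by
    funext k
    induction k using Fin.succAboveCases i with
    | x =>
      rw [Fin.insertNth_apply_same]
      rfl
    | p j =>
      rw [Fin.insertNth_apply_succAbove]
      rfl
  rw [h3]

/-- the first step -/
theorem cone_step (f : ι → MvPolynomial (Fin (n + 1)) ℚ_[p]) (d : ℕ)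
    (hf : ∀ j, (f j).IsHomogeneous d) (i : Fin (n + 1)) {s : ℝ} (hs : 0 ≤ s) :
    FF f s = ((qr p : ℝ) : ℂ) * FF (scl (Function.update 1 i (p : ℚ_[p])) f) s +
      (1 - ((qr p : ℝ) : ℂ)) * FF (fun j => dehK i (f j)) s := by
  have hcomp : ∀ (h : ι → MvPolynomial (Fin (n + 1)) ℚ_[p]), ∃ B : ℝ≥0∞, B ≠ ⊤ ∧
      ∀ x, ENNReal.ofReal (sz h x ^ s) ≤ B := by
    intro h
    obtain ⟨B, hB⟩ := (isCompact_range (sz_cont h)).bddAbove
    exact ⟨ENNReal.ofReal (B ^ s), ENNReal.ofReal_ne_top, fun x =>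
      ENNReal.ofReal_le_ofReal (Real.rpow_le_rpow (sz_nonneg _ _) (hB ⟨x, rfl⟩) hs)⟩
  have hfin : ∀ (h : ι → MvPolynomial (Fin (n + 1)) ℚ_[p]),
      ∫⁻ x, ENNReal.ofReal (sz h x ^ s) ∂(Measure.pi fun _ : Fin (n + 1) => mu p) ≠ ⊤ := by
    intro h
    obtain ⟨B, hB, h1⟩ := hcomp h
    refine ne_top_of_le_ne_top hB ((lintegral_mono h1).trans ?_)
    rw [lintegral_const, measure_univ, mul_one]
  set c : ℝ≥0∞ := ∫⁻ w, ENNReal.ofReal (sz (fun j => dehK i (f j)) w ^ s)
    ∂(Measure.pi fun _ : Fin n => mu p) with hc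
  have hmain : ∫⁻ x, ENNReal.ofReal (sz f x ^ s) ∂(Measure.pi fun _ : Fin (n + 1) => mu p) =
      (p : ℝ≥0∞)⁻¹ * ∫⁻ x, ENNReal.ofReal (sz (scl (Function.update 1 i (p : ℚ_[p])) f) x ^ s)
        ∂(Measure.pi fun _ : Fin (n + 1) => mu p) + (1 - (p : ℝ≥0∞)⁻¹) * c := by
    rw [ins_fubini f i s, ins_fubini (scl _ f) i s]
    rw [avg1 _ (sz_ins_meas f i s).lintegral_prod_right' c (fun a ha => unit_int f d hf i s a ha)]
    simp only [sz_scl_ins]
  have hp0 : (p : ℝ≥0∞) ≠ 0 := by exact_mod_cast (Fact.out : p.Prime).ne_zero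
  have hle : (p : ℝ≥0∞)⁻¹ ≤ 1 := ENNReal.inv_le_one.2 (by
    exact_mod_cast (Fact.out : p.Prime).one_lt.le)
  have hcfin : c ≠ ⊤ := by
    obtain ⟨B, hB⟩ := (isCompact_range (sz_cont (fun j => dehK i (f j)))).bddAbove
    refine ne_top_of_le_ne_top (ENNReal.ofReal_ne_top (r := B ^ s)) ?_
    refine (lintegral_mono (g := fun _ => ENNReal.ofReal (B ^ s)) fun x =>
      ENNReal.ofReal_le_ofReal (Real.rpow_le_rpow (sz_nonneg _ _) (hB ⟨x, rfl⟩) hs)).trans ?_
    rw [lintegral_const, measure_univ, mul_one]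
  unfold FF FZ
  rw [hmain, ENNReal.toReal_add (ENNReal.mul_ne_top (ENNReal.inv_ne_top.2 hp0) (hfin _))
    (ENNReal.mul_ne_top (ne_top_of_le_ne_top ENNReal.one_ne_top tsub_le_self) hcfin),
    ENNReal.toReal_mul, ENNReal.toReal_mul, ENNReal.toReal_sub_of_le hle ENNReal.one_ne_top,
    toReal_pinv, ENNReal.toReal_one]
  push_cast
  rfl

end

end Pool.Agent.Y230.PS
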