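import Pool.Agent.Y230.PS.Cone

set_option autoImplicit false
set_option linter.unusedSectionVars false
set_option linter.unusedVariables false

/-! # Cones: the zeta function -/

namespace Pool.Agent.Y230.PS

open MeasureTheory Pool.Agent.W427.SMC Pool.Agent.Y230.PT
open scoped ENNReal
open Pool.Agent.Y230.RE

attribute [local instance] msZ bsZ

variable {p : ℕ} [Fact p.Prime]

variable {σ ι : Type} [Fintype ι]

theorem scl_scl (c c' : σ → ℚ_[p]) (f : ι → MvPolynomial σ ℚ_[p]) :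
    scl c (scl c' f) = scl (fun i => c i * c' i) f := by
  funext j
  unfold scl
  have h : (MvPolynomial.aeval (fun i => MvPolynomial.C (c i) * MvPolynomial.X i) :
      MvPolynomial σ ℚ_[p] →ₐ[ℚ_[p]] MvPolynomial σ ℚ_[p]).comp
      (MvPolynomial.aeval (fun i => MvPolynomial.C (c' i) * MvPolynomial.X i)) =
      MvPolynomial.aeval (fun i => MvPolynomial.C (c i * c' i) * MvPolynomial.X i) := by
    apply MvPolynomial.algHom_ext
    intro i
    rw [AlgHom.comp_apply, MvPolynomial.aeval_X, map_mul, MvPolynomial.aeval_X,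
      MvPolynomial.aeval_X, MvPolynomial.algHom_C, MvPolynomial.algebraMap_eq, map_mul]
    ring
  exact congrArg (fun ψ : MvPolynomial σ ℚ_[p] →ₐ[ℚ_[p]] MvPolynomial σ ℚ_[p] => ψ (f j)) h

theorem scl_one (f : ι → MvPolynomial σ ℚ_[p]) : scl (fun _ => 1) f = f := by
  funext j
  unfold scl
  have h : (MvPolynomial.aeval (fun i => MvPolynomial.C 1 * MvPolynomial.X i) :
      MvPolynomial σ ℚ_[p] →ₐ[ℚ_[p]] MvPolynomial σ ℚ_[p]) = AlgHom.id _ _ := by
    apply MvPolynomial.algHom_ext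
    intro i
    simp
  rw [h]
  rfl

theorem scl_hom (c : σ → ℚ_[p]) (f : ι → MvPolynomial σ ℚ_[p]) (d : ℕ)
    (hf : ∀ j, (f j).IsHomogeneous d) (j : ι) : (scl c f j).IsHomogeneous d := by
  unfold scl
  have h := (hf j).aeval (fun i => MvPolynomial.C (c i) * MvPolynomial.X i) (n := 1)
    (fun i => by
      have h1 := (MvPolynomial.isHomogeneous_C σ (c i)).mul (MvPolynomial.isHomogeneous_X ℚ_[p] i)
      rwa [zero_add] at h1)
  rwa [one_mul] at h

/-- scaling of all generators -/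
theorem FF_norm_smul [Fintype σ] {τ : Type} [Fintype τ] (f : ι → MvPolynomial σ ℚ_[p])
    (g : ι → MvPolynomial σ ℚ_[p]) (a : ℚ_[p])
    (h : ∀ x, sz f x = ‖a‖ * sz g x) (s : ℝ) :
    FF f s = ((N p s a).toReal : ℂ) * FF g s := by
  unfold FF FZ
  have h1 : ∀ x, ENNReal.ofReal (sz f x ^ s) = N p s a * ENNReal.ofReal (sz g x ^ s) := by
    intro x
    rw [h x, Real.mul_rpow (norm_nonneg _) (sz_nonneg _ _), ENNReal.ofReal_mul
      (Real.rpow_nonneg (norm_nonneg _) _)]
    rfl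
  simp only [h1]
  rw [lintegral_const_mul' _ _ (N_ne_top _ _), ENNReal.toReal_mul, Complex.ofReal_mul]

variable {n : ℕ}

theorem FF_const_scl (f : ι → MvPolynomial (Fin (n + 1)) ℚ_[p]) (d : ℕ)
    (hf : ∀ j, (f j).IsHomogeneous d) (s : ℝ) :
    FF (scl (fun _ => (p : ℚ_[p])) f) s = ((tr' p s : ℝ) : ℂ) ^ d * FF f s := by
  rw [FF_norm_smul (τ := Fin 0) (scl (fun _ => (p : ℚ_[p])) f) f ((p : ℚ_[p]) ^ d)
    (fun x => ?_) s]
  · congr 1
    rw [N_pow, ENNReal.toReal_pow, N_p, Tt_toReal]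
    push_cast
    rfl
  · unfold sz
    have h4 : (fun j => MvPolynomial.eval (fun i => inc p (x i)) (scl (fun _ => (p : ℚ_[p])) f j)) =
        ((p : ℚ_[p]) ^ d) • fun j => MvPolynomial.eval (fun i => inc p (x i)) (f j) := by
      funext j
      rw [Pi.smul_apply, smul_eq_mul, eval_scl, eval_hom (f j) d (hf j)]
    rw [h4, norm_smul]

theorem FF_deh_scl (f : ι → MvPolynomial (Fin (n + 1)) ℚ_[p]) (d : ℕ)
    (hf : ∀ j, (f j).IsHomogeneous d) (c : Fin (n + 1) → ℚ_[p]) (l : Fin (n + 1))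
    (hc : c l ≠ 0) (s : ℝ) :
    FF (fun j => dehK l (scl c f j)) s = ((N p s (c l ^ d)).toReal : ℂ) *
      FF (scl (fun k => c (l.succAbove k) / c l) (fun j => dehK l (f j))) s := by
  refine FF_norm_smul (τ := Fin 0) _ _ _ (fun w => ?_) s
  unfold sz
  have h4 : (fun j => MvPolynomial.eval (fun i => inc p (w i)) (dehK l (scl c f j))) =
      (c l ^ d) • fun j => MvPolynomial.eval (fun i => inc p (w i))
        (scl (fun k => c (l.succAbove k) / c l) (fun j => dehK l (f j)) j) := by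
    funext j
    rw [Pi.smul_apply, smul_eq_mul, eval_scl, eval_dehK, eval_dehK, eval_scl,
      ← eval_hom (f j) d (hf j)]
    congr 1
    congr 1
    funext k
    induction k using Fin.succAboveCases l with
    | x => rw [Fin.insertNth_apply_same, Fin.insertNth_apply_same]
    | p k =>
      rw [Fin.insertNth_apply_succAbove, Fin.insertNth_apply_succAbove, ← mul_assoc,
        mul_div_cancel₀ _ hc]
  rw [h4, norm_smul]

/-- the first `k` variables are multiplied by `p` -/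
noncomputable def ep (p : ℕ) [Fact p.Prime] (n k : ℕ) : Fin (n + 1) → ℚ_[p] :=
  fun i => if i.val < k then (p : ℚ_[p]) else 1

theorem ep_ne (k : ℕ) (i : Fin (n + 1)) : ep p n k i ≠ 0 := by
  unfold ep
  split_ifs
  · exact_mod_cast (Fact.out : p.Prime).ne_zero
  · exact one_ne_zero

theorem ep_succ (k : ℕ) (hk : k < n + 1) (f : ι → MvPolynomial (Fin (n + 1)) ℚ_[p]) :
    scl (Function.update 1 ⟨k, hk⟩ (p : ℚ_[p])) (scl (ep p n k) f) = scl (ep p n (k + 1)) f := by
  rw [scl_scl]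
  congr 1
  funext i
  unfold ep
  by_cases h : i = ⟨k, hk⟩
  · subst h
    rw [Function.update_self, if_neg (by simp), if_pos (by simp), mul_one]
  · rw [Function.update_of_ne h, Pi.one_apply, one_mul]
    have h1 : i.val ≠ k := fun h2 => h (Fin.ext h2)
    by_cases h2 : i.val < k
    · rw [if_pos h2, if_pos (by omega)]
    · rw [if_neg h2, if_neg (by omega)]

/-- the telescoping sum -/
theorem cone_sum (f : ι → MvPolynomial (Fin (n + 1)) ℚ_[p]) (d : ℕ)
    (hf : ∀ j, (f j).IsHomogeneous d) {s : ℝ} (hs : 0 ≤ s) (k : ℕ) (hk : k ≤ n + 1) :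
    FF f s = ((qr p : ℝ) : ℂ) ^ k * FF (scl (ep p n k) f) s +
      (1 - ((qr p : ℝ) : ℂ)) * ∑ l : Fin (n + 1), (if l.val < k then
        ((qr p : ℝ) : ℂ) ^ l.val * FF (fun j => dehK l (scl (ep p n l.val) f j)) s else 0) := by
  induction k with
  | zero =>
    have h1 : scl (ep p n 0) f = f := by
      have : ep p n 0 = fun _ => 1 := by
        funext i
        simp [ep]
      rw [this, scl_one]
    rw [h1]
    simp
  | succ k ih =>
    have hk' : k < n + 1 := by omega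
    rw [ih (by omega), cone_step (scl (ep p n k) f) d (scl_hom _ f d hf) ⟨k, hk'⟩ hs,
      ep_succ k hk' f]
    have h2 : ∑ l : Fin (n + 1), (if l.val < k + 1 then
        ((qr p : ℝ) : ℂ) ^ l.val * FF (fun j => dehK l (scl (ep p n l.val) f j)) s else 0) =
        ∑ l : Fin (n + 1), (if l.val < k then
          ((qr p : ℝ) : ℂ) ^ l.val * FF (fun j => dehK l (scl (ep p n l.val) f j)) s else 0) +
          ((qr p : ℝ) : ℂ) ^ k * FF (fun j => dehK ⟨k, hk'⟩ (scl (ep p n k) f j)) s := by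
      rw [← Finset.add_sum_erase Finset.univ _ (Finset.mem_univ (⟨k, hk'⟩ : Fin (n + 1))),
        ← Finset.add_sum_erase Finset.univ (fun l : Fin (n + 1) => if l.val < k then
          ((qr p : ℝ) : ℂ) ^ l.val * FF (fun j => dehK l (scl (ep p n l.val) f j)) s else 0)
          (Finset.mem_univ (⟨k, hk'⟩ : Fin (n + 1)))]
      rw [if_pos (by simp), if_neg (by simp), zero_add, add_comm]
      congr 1
      refine Finset.sum_congr rfl fun l hl => ?_
      have h3 : l.val ≠ k := fun h => Finset.ne_of_mem_erase hl (Fin.ext h)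
      by_cases h4 : l.val < k
      · rw [if_pos h4, if_pos (by omega)]
      · rw [if_neg h4, if_neg (by omega)]
    rw [h2]
    ring

theorem cone_eq (f : ι → MvPolynomial (Fin (n + 1)) ℚ_[p]) (d : ℕ)
    (hf : ∀ j, (f j).IsHomogeneous d) {s : ℝ} (hs : 0 ≤ s) :
    FF f s = ((qr p : ℝ) : ℂ) ^ (n + 1) * (((tr' p s : ℝ) : ℂ) ^ d * FF f s) +
      (1 - ((qr p : ℝ) : ℂ)) * ∑ l : Fin (n + 1),
        ((qr p : ℝ) : ℂ) ^ l.val * FF (fun j => dehK l (scl (ep p n l.val) f j)) s := by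
  have h1 := cone_sum f d hf hs (n + 1) le_rfl
  have h2 : ep p n (n + 1) = fun _ => (p : ℚ_[p]) := by
    funext i
    unfold ep
    rw [if_pos i.isLt]
  rw [h2, FF_const_scl f d hf s] at h1
  have h3 : ∑ l : Fin (n + 1), (if l.val < n + 1 then
      ((qr p : ℝ) : ℂ) ^ l.val * FF (fun j => dehK l (scl (ep p n l.val) f j)) s else 0) =
      ∑ l : Fin (n + 1),
        ((qr p : ℝ) : ℂ) ^ l.val * FF (fun j => dehK l (scl (ep p n l.val) f j)) s :=
    Finset.sum_congr rfl fun l _ => if_pos l.isLt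
  rw [h3] at h1
  exact h1

/-- the factor of the exceptional divisor -/
theorem geo_FR (d n : ℕ) (hd : 0 < d) :
    FR p (fun T => if T ^ d = (p : ℂ) ^ (n + 1) then 1 else 0)
      (fun s => (1 - ((qr p : ℝ) : ℂ) ^ (n + 1) * ((tr' p s : ℝ) : ℂ) ^ d)⁻¹) := by
  have hpC : (p : ℂ) ≠ 0 := by exact_mod_cast (Fact.out : p.Prime).ne_zero
  have hp1 : (1 : ℝ) < p := by exact_mod_cast (Fact.out : p.Prime).one_lt
  have hD : (Polynomial.C ((p : ℂ) ^ (n + 1)) - Polynomial.X ^ d : Polynomial ℂ) ≠ 0 := by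
    intro h
    have h1 := congrArg (fun q : Polynomial ℂ => q.eval 0) h
    simp only [Polynomial.eval_sub, Polynomial.eval_C, Polynomial.eval_pow, Polynomial.eval_X,
      Polynomial.eval_zero, zero_pow hd.ne', sub_zero] at h1
    exact pow_ne_zero _ hpC h1
  refine FR_of_rat (Polynomial.C ((p : ℂ) ^ (n + 1)) - Polynomial.X ^ d)
    (Polynomial.C ((p : ℂ) ^ (n + 1))) hD (fun s hs => ?_) (fun T hT => ?_)
  · simp only [Polynomial.eval_sub, Polynomial.eval_C, Polynomial.eval_pow, Polynomial.eval_X]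
    have hq : ((qr p : ℝ) : ℂ) = (p : ℂ)⁻¹ := by
      unfold qr
      push_cast
      rfl
    have ht0 := tr'_pos p s
    have ht1 : tr' p s ≤ 1 := tr'_le_one' hs
    have hne : (p : ℂ) ^ (n + 1) - ((tr' p s : ℝ) : ℂ) ^ d ≠ 0 := by
      intro h
      have h1 : (p : ℝ) ^ (n + 1) = tr' p s ^ d := by
        have := sub_eq_zero.1 h
        exact_mod_cast this
      have h2 : tr' p s ^ d ≤ 1 := pow_le_one₀ ht0.le ht1
      have h3 : (1 : ℝ) < (p : ℝ) ^ (n + 1) := one_lt_pow₀ hp1 (by omega)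
      linarith
    have hpn : (p : ℂ) ^ (n + 1) ≠ 0 := pow_ne_zero _ hpC
    have h5 : (1 - ((qr p : ℝ) : ℂ) ^ (n + 1) * ((tr' p s : ℝ) : ℂ) ^ d) =
        ((p : ℂ) ^ (n + 1) - ((tr' p s : ℝ) : ℂ) ^ d) * ((p : ℂ) ^ (n + 1))⁻¹ := by
      rw [hq, inv_pow, sub_mul, mul_inv_cancel₀ hpn]
      ring
    rw [h5, mul_inv, inv_inv, ← mul_assoc, mul_inv_cancel₀ hne, one_mul]
  · by_cases hc : T ^ d = (p : ℂ) ^ (n + 1)
    · have hT1 : ¬ ‖T‖ ≤ 1 := by
        intro h
        have h1 := congrArg norm hc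
        rw [norm_pow, norm_pow, Complex.norm_natCast] at h1
        have h2 : ‖T‖ ^ d ≤ 1 := pow_le_one₀ (norm_nonneg _) h
        have h3 : (1 : ℝ) < (p : ℝ) ^ (n + 1) := one_lt_pow₀ hp1 (by omega)
        linarith
      rw [tr, if_neg hT1, if_pos hc]
      have h2 : ¬ 1 < (Polynomial.C ((p : ℂ) ^ (n + 1)) - Polynomial.X ^ d :
          Polynomial ℂ).rootMultiplicity T := by
        rw [Polynomial.one_lt_rootMultiplicity_iff_isRoot hD]
        rintro ⟨-, h3⟩
        rw [Polynomial.IsRoot, Polynomial.derivative_sub, Polynomial.derivative_C,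
          Polynomial.derivative_X_pow, zero_sub, Polynomial.eval_neg, Polynomial.eval_mul,
          Polynomial.eval_pow, Polynomial.eval_X, neg_eq_zero, mul_eq_zero] at h3
        rcases h3 with h3 | h3
        · simp at h3
          omega
        · exact pow_ne_zero _ hT h3
      exact_mod_cast not_lt.1 h2
    · rw [Polynomial.rootMultiplicity_eq_zero]
      · simp
      · rw [Polynomial.IsRoot, Polynomial.eval_sub, Polynomial.eval_C, Polynomial.eval_pow,
          Polynomial.eval_X]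
        exact fun h => hc (sub_eq_zero.1 h).symm

/-- **Cones.** -/
theorem FR_cone (f : ι → MvPolynomial (Fin (n + 1)) ℚ_[p]) (d : ℕ) (hd : 0 < d)
    (hf : ∀ j, (f j).IsHomogeneous d) (m m' : ℂ → ℕ∞)
    (H : ∀ T, 1 < ‖T‖ → (if T ^ d = (p : ℂ) ^ (n + 1) then 1 else 0) + m T ≤ m' T)
    (h : ∀ (i : Fin (n + 1)) (c : Fin n → ℚ_[p]), (∀ k, c k ≠ 0) →
      FR p m (FF (scl c (fun j => dehK i (f j)))))
    (c : Fin (n + 1) → ℚ_[p]) (hc : ∀ k, c k ≠ 0) : FR p m' (FF (scl c f)) := by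
  have h1 : FR p m (fun s => (1 - ((qr p : ℝ) : ℂ)) * ∑ l : Fin (n + 1),
      ((qr p : ℝ) : ℂ) ^ l.val * FF (fun j => dehK l (scl (ep p n l.val) (scl c f) j)) s) := by
    refine FR.mul0 (F := fun _ => (1 - ((qr p : ℝ) : ℂ))) (fun T0 _ => Reg.const _) ?_
    refine FR.sum Finset.univ (fun l s =>
      ((qr p : ℝ) : ℂ) ^ l.val * FF (fun j => dehK l (scl (ep p n l.val) (scl c f) j)) s)
      fun l _ => ?_
    refine FR.mul0 (F := fun _ => ((qr p : ℝ) : ℂ) ^ l.val) (fun T0 _ => Reg.const _) ?_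
    rw [scl_scl]
    set c' : Fin (n + 1) → ℚ_[p] := fun i => ep p n l.val i * c i with hc'
    have hc'0 : ∀ k, c' k ≠ 0 := fun k => mul_ne_zero (ep_ne _ k) (hc k)
    have h2 := FR.mul0 (F := fun s => ((N p s (c' l ^ d)).toReal : ℂ))
      (fun T0 hT0 => reg_N hT0 _ (pow_ne_zero d (hc'0 l)))
      (h l (fun k => c' (l.succAbove k) / c' l) fun k => div_ne_zero (hc'0 _) (hc'0 _))
    refine h2.congr fun s hs => ?_
    rw [FF_deh_scl f d hf c' l (hc'0 l) s]
  have h3 := FR.mul (geo_FR (p := p) d n hd) h1 H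
  refine h3.congr fun s hs => ?_
  have h4 := cone_eq (scl c f) d (scl_hom c f d hf) hs
  have hp1 : (1 : ℝ) < p := by exact_mod_cast (Fact.out : p.Prime).one_lt
  have hne : (1 - ((qr p : ℝ) : ℂ) ^ (n + 1) * ((tr' p s : ℝ) : ℂ) ^ d) ≠ 0 := by
    intro h
    have h1 : (1 : ℝ) = qr p ^ (n + 1) * tr' p s ^ d := by
      have := sub_eq_zero.1 h
      exact_mod_cast this
    have ht0 := tr'_pos p s
    have h2 : tr' p s ^ d ≤ 1 := pow_le_one₀ ht0.le (tr'_le_one' hs)
    have h5 : qr p ^ (n + 1) < 1 := pow_lt_one₀ qr_pos.le qr_lt_one (by omega)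
    have h6 : qr p ^ (n + 1) * tr' p s ^ d ≤ qr p ^ (n + 1) * 1 :=
      mul_le_mul_of_nonneg_left h2 (pow_nonneg qr_pos.le _)
    linarith
  refine mul_left_cancel₀ hne ?_
  rw [← mul_assoc, mul_inv_cancel₀ hne, one_mul]
  linear_combination -h4

end Pool.Agent.Y230.PS
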