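import Pool.Agent.Y230.PS.Main
import Pool.Agent.Y230.PS.Force
import Pool.Agent.Y230.HS.Strong
import Pool.Agent.Y229.SP4
import Pool.Agent.Y229.LP2
import Pool.Agent.W574.CN.Gen
import Pool.Agent.W574.CN.Deh2
import Pool.Agent.W574.RO.Equiv

set_option autoImplicit false
set_option linter.unusedSectionVars false
set_option linter.unusedVariables false

/-! # The families over the complex numbers; roots -/

namespace Pool.Agent.Y230.PS

open MvPolynomial Pool.Agent.Y230.PT
open Pool.Agent.W574.SM Pool.Agent.W574.RO Pool.Agent.W574.CN Pool.Agent.W574.HS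

theorem toC_sum (A B : FamQ) : (A.sum B).toC = sumf A.toC B.toC := by
  funext j
  rcases j with j | j
  · exact map_rename _ _ _
  · exact map_rename _ _ _

theorem toC_mul (A B : FamQ) : (A.mul B).toC = mulf A.toC B.toC := by
  funext j
  change map (algebraMap ℚ ℂ)
    (rename Sum.inl (A.f j.1) * rename Sum.inr (B.f j.2) : MvPolynomial (A.σ ⊕ B.σ) ℚ) = _
  rw [map_mul, map_rename, map_rename]
  rfl

theorem toC_univ (A : FamQ) : A.univ.toC = fun _ : Fin 1 => univ A.toC := by
  funext j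
  change map (algebraMap ℚ ℂ)
    (∑ j, X (Sum.inl j) * rename Sum.inr (A.f j) : MvPolynomial (A.ι ⊕ A.σ) ℚ) = _
  unfold Pool.Agent.W574.HS.univ
  rw [map_sum]
  refine Finset.sum_congr rfl fun j _ => ?_
  rw [map_mul, map_X, map_rename]
  rfl

theorem map_dehC {n : ℕ} (i : Fin (n + 1)) (q : MvPolynomial (Fin (n + 1)) ℚ) :
    map (algebraMap ℚ ℂ) (dehQ i q) = deh i (map (algebraMap ℚ ℂ) q) := by
  have h : (map (algebraMap ℚ ℂ)).comp (dehQ i).toRingHom =
      (deh i).toRingHom.comp (map (algebraMap ℚ ℂ)) := by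
    apply MvPolynomial.ringHom_ext
    · intro a
      simp [dehQ, deh]
    · intro k
      change map (algebraMap ℚ ℂ) (dehQ i (X k)) = deh i (map (algebraMap ℚ ℂ) (X k))
      rw [map_X]
      unfold dehQ deh
      rw [aeval_X, aeval_X]
      induction k using Fin.succAboveCases i with
      | x => rw [Fin.insertNth_apply_same, Fin.insertNth_apply_same, map_one]
      | p k => rw [Fin.insertNth_apply_succAbove, Fin.insertNth_apply_succAbove, map_X]
  exact congrArg (fun ψ : MvPolynomial (Fin (n + 1)) ℚ →+* MvPolynomial (Fin n) ℂ => ψ q) h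

theorem toC_ne (A : FamQ) (h : ∃ j, A.f j ≠ 0) : ∃ j, A.toC j ≠ 0 := by
  obtain ⟨j, hj⟩ := h
  refine ⟨j, fun h0 => hj ?_⟩
  exact map_injective _ (algebraMap ℚ ℂ).injective (by rw [map_zero]; exact h0)

theorem toC_equiv (A B : FamQ) (i : A.σ ≃ B.σ) (k : A.ι ≃ B.ι)
    (h : ∀ j, B.f (k j) = rename i (A.f j)) (j : A.ι) : B.toC (k j) = rename i (A.toC j) := by
  change map (algebraMap ℚ ℂ) (B.f (k j)) = _
  rw [h, map_rename]
  rfl

theorem det_map {n r : ℕ} (f : Fin r → MvPolynomial (Fin (n + 1)) ℚ) (e : Fin (n + 1) → Fin r)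
    (he : (Matrix.of fun s t => pderiv s (f (e t))).det ≠ 0) :
    (Matrix.of fun s t => pderiv s (map (algebraMap ℚ ℂ) (f (e t)))).det ≠ 0 := by
  intro h0
  apply he
  apply map_injective _ (algebraMap ℚ ℂ).injective
  rw [map_zero, ← h0, RingHom.map_det]
  congr 1
  ext s t
  rw [RingHom.mapMatrix_apply, Matrix.map_apply, Matrix.of_apply, Matrix.of_apply, pderiv_map]

variable {p : ℕ} [Fact p.Prime]

theorem rr_mul (T1 T2 : ℂ) (h1 : 1 < ‖T1‖) (h2 : 1 < ‖T2‖) :
    rr p (T1 * T2) = rr p T1 + rr p T2 := by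
  unfold rr
  rw [norm_mul, Real.log_mul (by linarith) (by linarith)]
  ring

theorem rr_self : rr p (p : ℂ) = -1 := by
  unfold rr
  have hp : (1 : ℝ) < p := by exact_mod_cast (Fact.out : p.Prime).one_lt
  have : Real.log p ≠ 0 := (Real.log_pos hp).ne'
  rw [Complex.norm_natCast]
  field_simp

theorem rr_neg (T : ℂ) (h : 1 < ‖T‖) : rr p T < 0 := by
  unfold rr
  have hp : (1 : ℝ) < p := by exact_mod_cast (Fact.out : p.Prime).one_lt
  rw [neg_div, neg_lt_zero]
  exact div_pos (Real.log_pos h) (Real.log_pos hp)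

theorem rr_cone (n d : ℕ) (hd : 0 < d) (T : ℂ) (h : T ^ d = (p : ℂ) ^ (n + 1)) :
    ((rr p T : ℝ) : ℂ) = -((n : ℂ) + 1) / d := by
  have hp : (1 : ℝ) < p := by exact_mod_cast (Fact.out : p.Prime).one_lt
  have hl : Real.log p ≠ 0 := (Real.log_pos hp).ne'
  have hdR : (d : ℝ) ≠ 0 := by exact_mod_cast hd.ne'
  have h1 := congrArg (fun z => Real.log ‖z‖) h
  simp only [norm_pow, Complex.norm_natCast, Real.log_pow] at h1
  have h2 : rr p T = -((n : ℝ) + 1) / d := by
    unfold rr
    rw [div_eq_div_iff hl hdR]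
    push_cast at h1
    linear_combination -h1
  rw [h2]
  push_cast
  ring

/-- the multiplicity `∞` for the forced roots -/
noncomputable def mR (p : ℕ) (A : FamQ) (T : ℂ) : ℕ∞ :=
  open Classical in if Forced A.toC ((rr p T : ℝ) : ℂ) then ⊤ else 0

theorem mR_top {A : FamQ} {T : ℂ} (h : Forced A.toC ((rr p T : ℝ) : ℂ)) : mR p A T = ⊤ := by
  unfold mR
  rw [if_pos h]

theorem mR_zero {A : FamQ} {T : ℂ} (h : ¬ Forced A.toC ((rr p T : ℝ) : ℂ)) : mR p A T = 0 := by
  unfold mR
  rw [if_neg h]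

theorem mR_forced {A : FamQ} {T : ℂ} {a : ℕ} (ha : 1 ≤ a) (h : (a : ℕ∞) ≤ mR p A T) :
    Forced A.toC ((rr p T : ℝ) : ℂ) := by
  by_contra hn
  rw [mR_zero hn] at h
  have : (a : ℕ∞) = 0 := le_antisymm h bot_le
  have h2 : a = 0 := by exact_mod_cast this
  omega

theorem forced_univ (A : FamQ) (hne : ∃ j, A.f j ≠ 0) (b : Polynomial ℂ)
    (hb : IsFunctionalEq A.univ.toC b) :
    ∃ b' : Polynomial ℂ, b = (Polynomial.X + 1) * b' ∧ IsFunctionalEq A.toC b' := by
  classical
  rw [toC_univ] at hb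
  exact Pool.Agent.Y230.HS.functionalEq_of_univ_strong A.toC b (toC_ne A hne)
    (Pool.Agent.Y229.isB_of_single _ b hb)

theorem isMlt_R : IsMlt p false (mR p) where
  plane := by
    classical
    intro r f hf T hT
    obtain ⟨b0, hb0, hfe⟩ := Pool.Agent.Y229.exists_fe (FamQ.toC ⟨Fin 2, Fin r, f⟩)
      (toC_ne ⟨Fin 2, Fin r, f⟩ hf)
    by_cases h : Forced (FamQ.toC ⟨Fin 2, Fin r, f⟩) ((rr p T : ℝ) : ℂ)
    · exact ⟨b0, hb0, hfe, by rw [mR_top h]; exact le_top⟩
    · rw [mR_zero h]
      unfold Forced at h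
      push Not at h
      obtain ⟨b, hb, he⟩ := h
      refine ⟨b, fun h0 => he (by rw [h0, Polynomial.eval_zero]), hb, ?_⟩
      rw [Polynomial.rootMultiplicity_eq_zero he]
      exact le_rfl
  sum := by
    classical
    intro A B T1 T2 h1 h2 a b ha hb hA hB
    have h3 := forced_sum _ _ _ _ (mR_forced ha hA) (mR_forced hb hB)
    rw [mR_top]
    · exact le_top
    · rw [toC_sum, rr_mul T1 T2 h1 h2, Complex.ofReal_add]
      exact h3
  mul := by
    classical
    intro A B T hT hA hB
    by_cases h : Forced (A.mul B).toC ((rr p T : ℝ) : ℂ)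
    · rw [mR_top h]
      exact le_top
    · have h1 : ¬ Forced A.toC ((rr p T : ℝ) : ℂ) := fun h1 => h fun b hb => h1 b (by
        rw [toC_mul] at hb
        exact functionalEq_mul _ _ (toC_ne B hB) b hb)
      have h2 : ¬ Forced B.toC ((rr p T : ℝ) : ℂ) := fun h1 => h fun b hb => h1 b (by
        rw [toC_mul] at hb
        exact functionalEq_mul' _ _ (toC_ne A hA) b hb)
      rw [mR_zero h1, mR_zero h2, zero_add]
      exact bot_le
  equiv := by
    classical
    intro A B i k h T hT
    by_cases h1 : Forced B.toC ((rr p T : ℝ) : ℂ)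
    · rw [mR_top h1]
      exact le_top
    · have h2 : ¬ Forced A.toC ((rr p T : ℝ) : ℂ) := fun h2 => h1 fun b hb =>
        h2 b (functionalEq_equiv i k _ _ (toC_equiv A B i k h) b hb)
      rw [mR_zero h2]
      exact bot_le
  univ := by
    classical
    intro A T hT hA
    by_cases h1 : Forced A.univ.toC ((rr p T : ℝ) : ℂ)
    · rw [mR_top h1]
      exact le_top
    · have h2 : ¬ Forced A.toC ((rr p T : ℝ) : ℂ) := fun h2 => h1 fun b hb => by
        obtain ⟨b', e, hb'⟩ := forced_univ A hA b hb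
        rw [e, Polynomial.eval_mul, h2 b' hb', mul_zero]
      have h3 : T ≠ (p : ℂ) := by
        rintro rfl
        apply h1
        intro b hb
        obtain ⟨b', e, hb'⟩ := forced_univ A hA b hb
        rw [e, Polynomial.eval_mul, rr_self]
        simp
      rw [mR_zero h2, if_neg h3, zero_add]
      exact bot_le
  cone := by
    classical
    intro n r d hd f hf e he hs
    refine ⟨mR p ⟨Fin (n + 1), Fin r, f⟩, fun i T hT => ?_, fun T hT => ?_⟩
    · by_cases h1 : Forced (FamQ.toC ⟨Fin (n + 1), Fin r, f⟩) ((rr p T : ℝ) : ℂ)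
      · rw [mR_top h1]
        exact le_top
      · have h2 : ¬ Forced (FamQ.toC ⟨Fin n, Fin r, fun j => dehQ i (f j)⟩)
            ((rr p T : ℝ) : ℂ) := fun h2 => h1 fun b hb => by
          apply h2 b
          have h3 := functionalEq_deh i (FamQ.toC ⟨Fin (n + 1), Fin r, f⟩) d
            (fun j => (hf j).map _) b hb
          have h4 : FamQ.toC ⟨Fin n, Fin r, fun j => dehQ i (f j)⟩ =
              fun j => deh i (FamQ.toC ⟨Fin (n + 1), Fin r, f⟩ j) := by
            funext j
            exact map_dehC i (f j)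
          rw [h4]
          exact h3
        rw [mR_zero h2]
        exact bot_le
    · by_cases h1 : Forced (FamQ.toC ⟨Fin (n + 1), Fin r, f⟩) ((rr p T : ℝ) : ℂ)
      · rw [mR_top h1]
        exact le_top
      · have h3 : ¬ T ^ d = (p : ℂ) ^ (n + 1) := by
          intro h3
          apply h1
          intro b hb
          rw [rr_cone n d hd T h3]
          exact generic_root (FamQ.toC ⟨Fin (n + 1), Fin r, f⟩) d hd (fun j => (hf j).map _) b hb e
            (det_map f e he)
        rw [mR_zero h1, if_neg h3, zero_add]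

end Pool.Agent.Y230.PS
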