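import Pool.Agent.W574.SM.Defs

set_option autoImplicit false

/-! # Families of polynomials with rational coefficients, closed under sums, products and cones -/

namespace Pool.Agent.Y230.PS

open MvPolynomial Pool.Agent.W574.SM

/-- A finite family of polynomials in finitely many variables with rational coefficients. -/
structure FamQ where
  /-- the variables -/
  σ : Type
  /-- the indices of the polynomials -/
  ι : Type
  [fσ : Fintype σ]
  [fι : Fintype ι]
  /-- the polynomials -/
  f : ι → MvPolynomial σ ℚ

attribute [instance] FamQ.fσ FamQ.fι

/-- The polynomials as polynomials with complex coefficients. -/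
noncomputable def FamQ.toC (A : FamQ) : A.ι → MvPolynomial A.σ ℂ :=
  fun j => map (algebraMap ℚ ℂ) (A.f j)

/-- The generators `f_j(x)`, `g_k(y)` of the sum `I + J` of the ideals `I = (f_j)` and `J = (g_k)`
in disjoint sets of variables. -/
@[reducible] noncomputable def FamQ.sum (A B : FamQ) : FamQ :=
  ⟨A.σ ⊕ B.σ, A.ι ⊕ B.ι,
    Sum.elim (fun j => rename Sum.inl (A.f j)) (fun k => rename Sum.inr (B.f k))⟩

/-- The generators `f_j(x) g_k(y)` of the product `I J` of the ideals `I = (f_j)` and `J = (g_k)`
in disjoint sets of variables. -/
@[reducible] noncomputable def FamQ.mul (A B : FamQ) : FamQ :=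
  ⟨A.σ ⊕ B.σ, A.ι × B.ι, fun q => rename Sum.inl (A.f q.1) * rename Sum.inr (B.f q.2)⟩

/-- The family with the only member `∑_j y_j f_j(x)`, with further variables `y_j`. -/
@[reducible] noncomputable def FamQ.univ (A : FamQ) : FamQ :=
  ⟨A.ι ⊕ A.σ, Fin 1, fun _ => ∑ j, X (Sum.inl j) * rename Sum.inr (A.f j)⟩

/-- The substitution `x_i = 1`; the other variables keep their order. -/
noncomputable def dehQ {n : ℕ} (i : Fin (n + 1)) :
    MvPolynomial (Fin (n + 1)) ℚ →ₐ[ℚ] MvPolynomial (Fin n) ℚ :=
  aeval (Fin.insertNth i (1 : MvPolynomial (Fin n) ℚ) X)

/-- `Good strict A`: the ideal generated by the family `A` is obtained by sums and products in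
disjoint sets of variables and by cones from the nonzero ideals of `ℚ[x, y]` and the families which
generate the unit ideal. If `strict = true`, then only those cones are allowed for which the number
`-(n + 1) / d` of the exceptional divisor is not a root of the Bernstein-Sato polynomials of the
charts. -/
inductive Good (strict : Bool) : FamQ → Prop
  /-- a nonzero ideal of `ℚ[x, y]` -/
  | plane (r : ℕ) (f : Fin r → MvPolynomial (Fin 2) ℚ) (hf : ∃ j, f j ≠ 0) :
      Good strict ⟨Fin 2, Fin r, f⟩
  /-- the unit ideal -/
  | free (A : FamQ) (g : A.ι → MvPolynomial A.σ ℚ) (h : ∑ j, g j * A.f j = 1) : Good strict A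
  /-- the sum of two ideals in disjoint sets of variables -/
  | sum (A B : FamQ) (hA : Good strict A) (hB : Good strict B) : Good strict (A.sum B)
  /-- the product of two ideals in disjoint sets of variables -/
  | mul (A B : FamQ) (hA : Good strict A) (hB : Good strict B) : Good strict (A.mul B)
  /-- the variables and the generators may be indexed differently -/
  | equiv (A B : FamQ) (i : A.σ ≃ B.σ) (k : A.ι ≃ B.ι) (h : ∀ j, B.f (k j) = rename i (A.f j))
      (hA : Good strict A) : Good strict B
  /-- forms of degree `d > 0` in `x_0, ..., x_n`, of which `n + 1` are algebraically independent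
  (their Jacobian determinant is not zero), such that the ideals of the charts `x_i = 1` are in the
  class -/
  | cone (n r d : ℕ) (hd : 0 < d) (f : Fin r → MvPolynomial (Fin (n + 1)) ℚ)
      (hf : ∀ j, (f j).IsHomogeneous d) (e : Fin (n + 1) → Fin r)
      (he : (Matrix.of fun s t => pderiv s (f (e t))).det ≠ 0)
      (h : ∀ i, Good strict ⟨Fin n, Fin r, fun j => dehQ i (f j)⟩)
      (hs : strict = true → ∀ i : Fin (n + 1), ∃ b : Polynomial ℂ,
        IsFunctionalEq (fun j => map (algebraMap ℚ ℂ) (dehQ i (f j))) b ∧
        b.eval (-((n : ℂ) + 1) / d) ≠ 0) :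
      Good strict ⟨Fin (n + 1), Fin r, f⟩

/-- `GoodU strict A`: the ideal generated by `A` is obtained from the ideals in `Good strict` by sums
and products in disjoint sets of variables, and by replacing the ideal `(f_j)` by the principal ideal
generated by `∑ y_j f_j(x)`, with further variables `y_j`. -/
inductive GoodU (strict : Bool) : FamQ → Prop
  /-- the ideals in `Good` -/
  | base (A : FamQ) (h : Good strict A) : GoodU strict A
  /-- the sum of two ideals in disjoint sets of variables -/
  | sum (A B : FamQ) (hA : GoodU strict A) (hB : GoodU strict B) : GoodU strict (A.sum B)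
  /-- the product of two ideals in disjoint sets of variables -/
  | mul (A B : FamQ) (hA : GoodU strict A) (hB : GoodU strict B) : GoodU strict (A.mul B)
  /-- the universal linear combination of the generators -/
  | univ (A : FamQ) (hA : GoodU strict A) : GoodU strict A.univ
  /-- the variables and the generators may be indexed differently -/
  | equiv (A B : FamQ) (i : A.σ ≃ B.σ) (k : A.ι ≃ B.ι) (h : ∀ j, B.f (k j) = rename i (A.f j))
      (hA : GoodU strict A) : GoodU strict B

end Pool.Agent.Y230.PS
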