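import Pool.Agent.Y230.PS.Vol
import Pool.Agent.Y230.PT.Final

set_option autoImplicit false
set_option linter.unusedSectionVars false
set_option linter.unusedVariables false

/-! # Families of polynomials over `ℚ_p` and the integrals of their norms -/

namespace Pool.Agent.Y230.PS

open MeasureTheory MvPolynomial Pool.Agent.W427.SMC Pool.Agent.Y230.PT
open scoped ENNReal

attribute [local instance] msZ bsZ

variable {p : ℕ} [Fact p.Prime]

section abs

variable {Ω : Type} [MeasurableSpace Ω] (μ : Measure Ω) [IsProbabilityMeasure μ] (ρ : Ω → ℝ)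

theorem FR.congr {m : ℂ → ℕ∞} {F G : ℝ → ℂ} (h : FR p m F) (e : ∀ s, 0 ≤ s → F s = G s) :
    FR p m G := fun T0 hT0 => by
  obtain ⟨M, h1, h2⟩ := h T0 hT0
  exact ⟨M, h1, h2.congr e⟩

theorem FR.mono {m m' : ℂ → ℕ∞} {F : ℝ → ℂ} (h : FR p m F)
    (hm : ∀ T, 1 < ‖T‖ → m T ≤ m' T) : FR p m' F := fun T0 hT0 => by
  obtain ⟨M, h1, h2⟩ := h T0 hT0
  refine ⟨M, h1.trans ?_, h2⟩
  unfold tr
  split_ifs with h
  · exact le_rfl
  · exact hm T0 (not_le.1 h)

theorem FR.mul {m1 m2 m3 : ℂ → ℕ∞} {F G : ℝ → ℂ} (h1 : FR p m1 F) (h2 : FR p m2 G)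
    (H : ∀ T, 1 < ‖T‖ → m1 T + m2 T ≤ m3 T) : FR p m3 (fun s => F s * G s) := fun T0 hT0 => by
  obtain ⟨M, h3, h4⟩ := h1 T0 hT0
  obtain ⟨N, h5, h6⟩ := h2 T0 hT0
  refine ⟨M + N, ?_, h4.mul h6⟩
  push_cast
  refine (add_le_add h3 h5).trans ?_
  unfold tr
  split_ifs with h
  · simp
  · exact H T0 (not_le.1 h)

theorem FR.mul0 {m : ℂ → ℕ∞} {F G : ℝ → ℂ} (h1 : ∀ T0 : ℂ, T0 ≠ 0 → Reg p T0 0 F)
    (h2 : FR p m G) : FR p m (fun s => F s * G s) := fun T0 hT0 => by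
  obtain ⟨N, h5, h6⟩ := h2 T0 hT0
  exact ⟨N, h5, (h1 T0 hT0).mul0 h6⟩

theorem FR.add {m : ℂ → ℕ∞} {F G : ℝ → ℂ} (h1 : FR p m F) (h2 : FR p m G) :
    FR p m (fun s => F s + G s) := fun T0 hT0 => by
  obtain ⟨M, h3, h4⟩ := h1 T0 hT0
  obtain ⟨N, h5, h6⟩ := h2 T0 hT0
  refine ⟨max M N, ?_, (h4.mono (le_max_left _ _)).add (h6.mono (le_max_right _ _))⟩
  rcases max_choice M N with h | h
  · rw [h]; exact h3
  · rw [h]; exact h5

theorem FR_const (m : ℂ → ℕ∞) (c : ℂ) : FR p m (fun _ => c) := fun T0 hT0 =>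
  ⟨0, by simp, Reg.const c⟩

theorem FR.sum {K : Type} {m : ℂ → ℕ∞} (S : Finset K) (F : K → ℝ → ℂ)
    (h : ∀ k ∈ S, FR p m (F k)) : FR p m (fun s => ∑ k ∈ S, F k s) := by
  classical
  induction S using Finset.induction_on with
  | empty => simpa using FR_const m 0
  | insert k t hk ih =>
    simp only [Finset.sum_insert hk]
    exact (h k (Finset.mem_insert_self _ _)).add (ih fun j hj => h j (Finset.mem_insert_of_mem hj))

theorem FZ_scale (hρ : ∀ x, 0 ≤ ρ x) (K : ℕ) (s : ℝ) :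
    FZ μ (fun x => ((p : ℝ)⁻¹) ^ K * ρ x) s = ((tr' p s : ℝ) : ℂ) ^ K * FZ μ ρ s := by
  have hp : (0 : ℝ) < (p : ℝ)⁻¹ := inv_pos.2 (by exact_mod_cast (Fact.out : p.Prime).pos)
  unfold FZ
  have h1 : ∀ x, ENNReal.ofReal ((((p : ℝ)⁻¹) ^ K * ρ x) ^ s) =
      ENNReal.ofReal (tr' p s ^ K) * ENNReal.ofReal (ρ x ^ s) := by
    intro x
    rw [Real.mul_rpow (pow_nonneg hp.le K) (hρ x), ENNReal.ofReal_mul (by positivity)]
    congr 2
    unfold tr'
    rw [← Real.rpow_natCast, ← Real.rpow_mul hp.le, mul_comm (K : ℝ) s, Real.rpow_mul hp.le,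
      Real.rpow_natCast, Real.inv_rpow (Nat.cast_nonneg _), Real.rpow_neg (Nat.cast_nonneg _)]
  simp only [h1]
  rw [lintegral_const_mul' _ _ ENNReal.ofReal_ne_top, ENNReal.toReal_mul,
    ENNReal.toReal_ofReal (pow_nonneg (tr'_pos p s).le K)]
  push_cast
  rfl

theorem FR_scale {m : ℂ → ℕ∞} (hρ : ∀ x, 0 ≤ ρ x) (K : ℕ) :
    FR p m (FZ μ (fun x => ((p : ℝ)⁻¹) ^ K * ρ x)) ↔ FR p m (FZ μ ρ) := by
  constructor
  · intro h
    have h1 : FR p m (fun s => (((tr' p s : ℝ) : ℂ)⁻¹) ^ K *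
        FZ μ (fun x => ((p : ℝ)⁻¹) ^ K * ρ x) s) :=
      FR.mul0 (fun T0 hT0 => (Reg.tinv hT0).pow K) h
    refine h1.congr fun s hs => ?_
    rw [FZ_scale μ ρ hρ K s, ← mul_assoc, ← mul_pow, inv_mul_cancel₀ (tr_ne s), one_pow, one_mul]
  · intro h
    have h1 : FR p m (fun s => (((tr' p s : ℝ) : ℂ)) ^ K * FZ μ ρ s) :=
      FR.mul0 (fun T0 hT0 => Reg.t.pow K) h
    refine h1.congr fun s hs => ?_
    rw [FZ_scale μ ρ hρ K s]

end abs

section fam

variable {σ τ ι κ : Type} [Fintype σ] [Fintype τ] [Fintype ι] [Fintype κ]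

/-- the maximum of the norms of the values of a family of polynomials -/
noncomputable def sz (f : ι → MvPolynomial σ ℚ_[p]) (x : σ → ℤ_[p]) : ℝ :=
  ‖fun j => eval (fun i => inc p (x i)) (f j)‖

theorem sz_nonneg (f : ι → MvPolynomial σ ℚ_[p]) (x : σ → ℤ_[p]) : 0 ≤ sz f x := norm_nonneg _

theorem sz_cont (f : ι → MvPolynomial σ ℚ_[p]) : Continuous (sz f) := by
  unfold sz
  refine continuous_norm.comp (continuous_pi fun j => ?_)
  exact (MvPolynomial.continuous_eval _).comp (continuous_pi fun i =>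
    (inc_emb p).continuous.comp (continuous_apply i))

theorem sz_meas (f : ι → MvPolynomial σ ℚ_[p]) : Measurable (sz f) := (sz_cont f).measurable

theorem norm_attained [Nonempty ι] (z : ι → ℚ_[p]) : ∃ j, ‖z‖ = ‖z j‖ := by
  obtain ⟨j, hj⟩ := Finite.exists_max (fun j => ‖z j‖)
  refine ⟨j, le_antisymm ?_ (norm_le_pi_norm z j)⟩
  exact (pi_norm_le_iff_of_nonneg (norm_nonneg _)).2 hj

theorem sz_int (f : ι → MvPolynomial σ ℚ_[p]) :
    ∃ K : ℕ, ∀ K', K ≤ K' → ∀ x, Val p (((p : ℝ)⁻¹) ^ K' * sz f x) := by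
  have hp : (1 : ℝ) < p := by exact_mod_cast (Fact.out : p.Prime).one_lt
  have hp0 : (0 : ℝ) < p := by linarith
  obtain ⟨B, hB⟩ := (isCompact_range (sz_cont f)).bddAbove
  obtain ⟨K, hK⟩ := pow_unbounded_of_one_lt B hp
  refine ⟨K, fun K' hK' x => ?_⟩
  rcases isEmpty_or_nonempty ι with hι | hι
  · left
    have : sz f x = 0 := by
      unfold sz
      rw [Subsingleton.elim (fun j => eval (fun i => inc p (x i)) (f j)) 0, norm_zero]
    rw [this, mul_zero]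
  · obtain ⟨j, hj⟩ := norm_attained (fun j => eval (fun i => inc p (x i)) (f j))
    have h1 : sz f x = ‖eval (fun i => inc p (x i)) (f j)‖ := hj
    set z := eval (fun i => inc p (x i)) (f j) with hz
    rcases eq_or_ne z 0 with h0 | h0
    · left
      rw [h1, h0, norm_zero, mul_zero]
    · right
      have h2 : ‖(p : ℚ_[p]) ^ K' * z‖ ≤ 1 := by
        rw [norm_mul, norm_pow, Padic.norm_p]
        have h3 : ‖z‖ ≤ B := by
          rw [← h1]
          exact hB ⟨x, rfl⟩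
        have h4 : ‖z‖ ≤ (p : ℝ) ^ K' := h3.trans (hK.le.trans (pow_le_pow_right₀ hp.le hK'))
        rw [inv_pow, inv_mul_le_iff₀ (pow_pos hp0 _), mul_one]
        exact h4
      obtain ⟨w, hw⟩ : ∃ w : ℤ_[p], (w : ℚ_[p]) = (p : ℚ_[p]) ^ K' * z := ⟨⟨_, h2⟩, rfl⟩
      have hne : w ≠ 0 := by
        rintro rfl
        have hpp : (p : ℚ_[p]) ≠ 0 := by exact_mod_cast (Fact.out : p.Prime).ne_zero
        rw [PadicInt.coe_zero] at hw
        exact (mul_ne_zero (pow_ne_zero _ hpp) h0) hw.symm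
      refine ⟨w.valuation, ?_⟩
      have h6 := PadicInt.norm_eq_zpow_neg_valuation hne
      rw [h1]
      have h7 : ‖w‖ = ((p : ℝ)⁻¹) ^ K' * ‖z‖ := by
        rw [PadicInt.norm_def, hw, norm_mul, norm_pow, Padic.norm_p]
      rw [← h7, h6, zpow_neg, zpow_natCast, inv_pow]

/-- the integral of the powers of the norm -/
noncomputable def FF (f : ι → MvPolynomial σ ℚ_[p]) : ℝ → ℂ :=
  FZ (Measure.pi fun _ : σ => mu p) (sz f)

/-- the sum of two families in disjoint variables -/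
noncomputable def sumK (f : ι → MvPolynomial σ ℚ_[p]) (g : κ → MvPolynomial τ ℚ_[p]) :
    ι ⊕ κ → MvPolynomial (σ ⊕ τ) ℚ_[p] :=
  Sum.elim (fun j => rename Sum.inl (f j)) (fun k => rename Sum.inr (g k))

/-- the product of two families in disjoint variables -/
noncomputable def mulK (f : ι → MvPolynomial σ ℚ_[p]) (g : κ → MvPolynomial τ ℚ_[p]) :
    ι × κ → MvPolynomial (σ ⊕ τ) ℚ_[p] :=
  fun q => rename Sum.inl (f q.1) * rename Sum.inr (g q.2)

theorem norm_elim (z : ι → ℚ_[p]) (w : κ → ℚ_[p]) : ‖(Sum.elim z w)‖ = max ‖z‖ ‖w‖ := by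
  refine le_antisymm ?_ (max_le ?_ ?_)
  · refine (pi_norm_le_iff_of_nonneg (le_max_of_le_left (norm_nonneg _))).2 ?_
    rintro (j | k)
    · exact (norm_le_pi_norm z j).trans (le_max_left _ _)
    · exact (norm_le_pi_norm w k).trans (le_max_right _ _)
  · exact (pi_norm_le_iff_of_nonneg (norm_nonneg _)).2 fun j =>
      norm_le_pi_norm (Sum.elim z w) (Sum.inl j)
  · exact (pi_norm_le_iff_of_nonneg (norm_nonneg _)).2 fun k =>
      norm_le_pi_norm (Sum.elim z w) (Sum.inr k)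

theorem norm_mulv (z : ι → ℚ_[p]) (w : κ → ℚ_[p]) :
    ‖(fun q : ι × κ => z q.1 * w q.2)‖ = ‖z‖ * ‖w‖ := by
  refine le_antisymm ?_ ?_
  · refine (pi_norm_le_iff_of_nonneg (mul_nonneg (norm_nonneg _) (norm_nonneg _))).2 ?_
    rintro ⟨j, k⟩
    rw [norm_mul]
    exact mul_le_mul (norm_le_pi_norm z j) (norm_le_pi_norm w k) (norm_nonneg _) (norm_nonneg _)
  · rcases isEmpty_or_nonempty ι with hι | hι
    · rw [Subsingleton.elim z 0, norm_zero, zero_mul]
      exact norm_nonneg _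
    · rcases isEmpty_or_nonempty κ with hκ | hκ
      · rw [Subsingleton.elim w 0, norm_zero, mul_zero]
        exact norm_nonneg _
      · obtain ⟨j, hj⟩ := norm_attained z
        obtain ⟨k, hk⟩ := norm_attained w
        rw [hj, hk, ← norm_mul]
        exact norm_le_pi_norm (fun q : ι × κ => z q.1 * w q.2) (j, k)

theorem sz_sumK (f : ι → MvPolynomial σ ℚ_[p]) (g : κ → MvPolynomial τ ℚ_[p])
    (x : σ ⊕ τ → ℤ_[p]) :
    sz (sumK f g) x = max (sz f fun i => x (Sum.inl i)) (sz g fun i => x (Sum.inr i)) := by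
  unfold sz
  rw [← norm_elim]
  congr 1
  funext j
  rcases j with j | j
  · change eval _ (rename Sum.inl (f j)) = _
    rw [eval_rename]
    rfl
  · change eval _ (rename Sum.inr (g j)) = _
    rw [eval_rename]
    rfl

theorem sz_mulK (f : ι → MvPolynomial σ ℚ_[p]) (g : κ → MvPolynomial τ ℚ_[p])
    (x : σ ⊕ τ → ℤ_[p]) :
    sz (mulK f g) x = (sz f fun i => x (Sum.inl i)) * (sz g fun i => x (Sum.inr i)) := by
  unfold sz
  rw [← norm_mulv]
  congr 1
  funext j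
  change eval _ (rename Sum.inl (f j.1) * rename Sum.inr (g j.2)) = _
  rw [map_mul, eval_rename, eval_rename]
  rfl

/-- integrals over disjoint sets of variables -/
theorem FZ_prod (u : (σ → ℤ_[p]) × (τ → ℤ_[p]) → ℝ) (hu : Measurable u) (s : ℝ) :
    FZ (Measure.pi fun _ : σ ⊕ τ => mu p)
      (fun x => u (fun i => x (Sum.inl i), fun i => x (Sum.inr i))) s =
    FZ ((Measure.pi fun _ : σ => mu p).prod (Measure.pi fun _ : τ => mu p)) u s := by
  unfold FZ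
  congr 2
  have hmp := (measurePreserving_sumPiEquivProdPi (X := fun _ : σ ⊕ τ => ℤ_[p])
    (fun _ : σ ⊕ τ => mu p))
  have hG : Measurable (fun z => ENNReal.ofReal (u z ^ s)) :=
    ENNReal.measurable_ofReal.comp (hu.pow_const s)
  exact hmp.lintegral_comp hG

/-- **The sum of two families in disjoint variables.** -/
theorem FR_sumK (f : ι → MvPolynomial σ ℚ_[p]) (g : κ → MvPolynomial τ ℚ_[p])
    (m1 m2 m3 : ℂ → ℕ∞)
    (H : ∀ T1 T2 : ℂ, 1 < ‖T1‖ → 1 < ‖T2‖ → ∀ a b : ℕ, 1 ≤ a → 1 ≤ b →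
      (a : ℕ∞) ≤ m1 T1 → (b : ℕ∞) ≤ m2 T2 → ((a + b - 1 : ℕ) : ℕ∞) ≤ m3 (T1 * T2))
    (h1 : FR p m1 (FF f)) (h2 : FR p m2 (FF g)) : FR p m3 (FF (sumK f g)) := by
  have hpi : (0 : ℝ) < (p : ℝ)⁻¹ := inv_pos.2 (by exact_mod_cast (Fact.out : p.Prime).pos)
  obtain ⟨K1, hK1⟩ := sz_int f
  obtain ⟨K2, hK2⟩ := sz_int g
  set K := max K1 K2 with hK
  have h3 := (FR_scale (p := p) (Measure.pi fun _ : σ => mu p) (sz f) (m := m1)
    (sz_nonneg f) K).2 h1
  have h4 := (FR_scale (p := p) (Measure.pi fun _ : τ => mu p) (sz g) (m := m2)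
    (sz_nonneg g) K).2 h2
  have h5 := FR_max (p := p) (Measure.pi fun _ : σ => mu p) (fun x => ((p : ℝ)⁻¹) ^ K * sz f x)
    (Measure.pi fun _ : τ => mu p) (fun x => ((p : ℝ)⁻¹) ^ K * sz g x)
    ((sz_meas f).const_mul _) (hK1 K (le_max_left _ _)) ((sz_meas g).const_mul _)
    (hK2 K (le_max_right _ _)) m1 m2 m3 H h3 h4
  refine (FR_scale (p := p) (Measure.pi fun _ : σ ⊕ τ => mu p) (sz (sumK f g)) (m := m3)
    (sz_nonneg _) K).1 (h5.congr fun s hs => ?_)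
  rw [← FZ_prod (p := p) (fun z : (σ → ℤ_[p]) × (τ → ℤ_[p]) => max (((p : ℝ)⁻¹) ^ K * sz f z.1)
    (((p : ℝ)⁻¹) ^ K * sz g z.2)) ((((sz_meas f).const_mul _).comp measurable_fst).max
    (((sz_meas g).const_mul _).comp measurable_snd)) s]
  congr 1
  funext x
  rw [sz_sumK, mul_max_of_nonneg _ _ (pow_nonneg hpi.le K)]

/-- **The product of two families in disjoint variables.** -/
theorem FF_mulK (f : ι → MvPolynomial σ ℚ_[p]) (g : κ → MvPolynomial τ ℚ_[p]) (s : ℝ) :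
    FF (mulK f g) s = FF f s * FF g s := by
  have h1 : FF (mulK f g) s = FZ ((Measure.pi fun _ : σ => mu p).prod
      (Measure.pi fun _ : τ => mu p)) (fun z => sz f z.1 * sz g z.2) s := by
    rw [← FZ_prod (p := p) (fun z : (σ → ℤ_[p]) × (τ → ℤ_[p]) => sz f z.1 * sz g z.2)
      (((sz_meas f).comp measurable_fst).mul ((sz_meas g).comp measurable_snd)) s]
    unfold FF
    congr 1
    funext x
    rw [sz_mulK]
  rw [h1]
  unfold FF FZ
  have h2 : ∀ z : (σ → ℤ_[p]) × (τ → ℤ_[p]), ENNReal.ofReal ((sz f z.1 * sz g z.2) ^ s) =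
      ENNReal.ofReal (sz f z.1 ^ s) * ENNReal.ofReal (sz g z.2 ^ s) := by
    intro z
    rw [Real.mul_rpow (sz_nonneg _ _) (sz_nonneg _ _), ENNReal.ofReal_mul (Real.rpow_nonneg
      (sz_nonneg _ _) _)]
  simp only [h2]
  have h3 := lintegral_prod_mul (μ := Measure.pi fun _ : σ => mu p)
    (ν := Measure.pi fun _ : τ => mu p) (f := fun x => ENNReal.ofReal (sz f x ^ s))
    (g := fun x => ENNReal.ofReal (sz g x ^ s))
    (ENNReal.measurable_ofReal.comp ((sz_meas f).pow_const s)).aemeasurable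
    (ENNReal.measurable_ofReal.comp ((sz_meas g).pow_const s)).aemeasurable
  rw [h3, ENNReal.toReal_mul, Complex.ofReal_mul]

end fam

end Pool.Agent.Y230.PS
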