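import Pool.Agent.Y230.PS.Fam

set_option autoImplicit false
set_option linter.unusedSectionVars false
set_option linter.unusedVariables false

/-! # Families over `ℚ_p`: hypersurfaces, renaming, ideals without zeros, ideals of the plane -/

namespace Pool.Agent.Y230.PS

open MeasureTheory Pool.Agent.W427.SMC Pool.Agent.Y230.PT
open scoped ENNReal
open Pool.Agent.Y230.RE

attribute [local instance] msZ bsZ

variable {p : ℕ} [Fact p.Prime]

variable {σ τ ι κ : Type} [Fintype σ] [Fintype τ] [Fintype ι] [Fintype κ]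

/-- the universal linear combination -/
noncomputable def univK (f : ι → MvPolynomial σ ℚ_[p]) : MvPolynomial (ι ⊕ σ) ℚ_[p] :=
  ∑ j, MvPolynomial.X (Sum.inl j) * MvPolynomial.rename Sum.inr (f j)

theorem ofReal_norm_rpow [Nonempty ι] (z : ι → ℚ_[p]) {s : ℝ} (hs : 0 ≤ s) :
    ENNReal.ofReal (‖z‖ ^ s) = mx z s := by
  obtain ⟨j, hj⟩ := norm_attained z
  rw [mx_eq_of_max z j (fun k => by rw [← hj]; exact norm_le_pi_norm z k) hs, hj]
  rfl

theorem FF_univK [DecidableEq ι] (hι : Nonempty ι) (f : ι → MvPolynomial σ ℚ_[p]) {s : ℝ}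
    (hs : 0 ≤ s) :
    FF (fun _ : Fin 1 => univK f) s = FF f s * ((phi p s).toReal : ℂ) := by
  have hcf : ∀ j, Continuous (fun x : σ → ℤ_[p] => MvPolynomial.eval (fun i => inc p (x i)) (f j)) :=
    fun j => (MvPolynomial.continuous_eval _).comp (continuous_pi fun i =>
      (inc_emb p).continuous.comp (continuous_apply i))
  have hG : Measurable (fun q : (ι → ℤ_[p]) × (σ → ℤ_[p]) =>
      ‖∑ j, inc p (q.1 j) * MvPolynomial.eval (fun i => inc p (q.2 i)) (f j)‖) := by
    refine (Continuous.norm ?_).measurable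
    refine continuous_finsetSum _ fun j _ => ?_
    exact ((inc_emb p).continuous.comp ((continuous_apply j).comp continuous_fst)).mul
      ((hcf j).comp continuous_snd)
  have e0 : FF (fun _ : Fin 1 => univK f) s = FZ ((Measure.pi fun _ : ι => mu p).prod
      (Measure.pi fun _ : σ => mu p)) (fun q =>
        ‖∑ j, inc p (q.1 j) * MvPolynomial.eval (fun i => inc p (q.2 i)) (f j)‖) s := by
    rw [← FZ_prod (p := p) (σ := ι) (τ := σ) _ hG s]
    unfold FF
    congr 1
    funext x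
    unfold sz
    rw [pi_norm_const]
    congr 1
    unfold univK
    rw [map_sum]
    refine Finset.sum_congr rfl fun j _ => ?_
    rw [map_mul, MvPolynomial.eval_X, MvPolynomial.eval_rename]
    rfl
  rw [e0]
  unfold FZ FF FZ
  rw [← Complex.ofReal_mul, ← ENNReal.toReal_mul]
  congr 2
  have hG2 : Measurable (fun q : (ι → ℤ_[p]) × (σ → ℤ_[p]) => ENNReal.ofReal
      (‖∑ j, inc p (q.1 j) * MvPolynomial.eval (fun i => inc p (q.2 i)) (f j)‖ ^ s)) :=
    ENNReal.measurable_ofReal.comp (hG.pow_const s)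
  rw [lintegral_prod_symm _ hG2.aemeasurable, ← lintegral_mul_const']
  · refine lintegral_congr fun x => ?_
    have h7 := lintegral_form hs (fun j => MvPolynomial.eval (fun i => inc p (x i)) (f j)) hι
    unfold sz
    rw [ofReal_norm_rpow _ hs]
    exact h7
  · exact ((phi_le p s hs).trans_lt ENNReal.one_lt_top).ne

theorem phi_FR (m : ℂ → ℕ∞) (h : 1 ≤ m (p : ℂ)) : FR p m (fun s => ((phi p s).toReal : ℂ)) := by
  have hpC : (p : ℂ) ≠ 0 := by exact_mod_cast (Fact.out : p.Prime).ne_zero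
  refine FR_of_rat (Polynomial.X - Polynomial.C (p : ℂ)) (Polynomial.C (1 - (p : ℂ)))
    (Polynomial.X_sub_C_ne_zero _) (fun s hs => ?_) fun T hT => ?_
  · have h3 := phi_eq p s hs
    have h4 := congrArg (fun x : ℝ => (x : ℂ)) h3
    push_cast at h4
    have h6 : (((p : ℝ) ^ (-s) : ℝ) : ℂ) = ((tr' p s : ℝ) : ℂ) := rfl
    rw [h6] at h4
    simp only [Polynomial.eval_sub, Polynomial.eval_C, Polynomial.eval_X]
    linear_combination -h4
  · by_cases hTp : T = (p : ℂ)
    · subst hTp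
      rw [Polynomial.rootMultiplicity_X_sub_C_self, tr, if_neg]
      · exact_mod_cast h
      · rw [Complex.norm_natCast, not_le]
        exact_mod_cast (Fact.out : p.Prime).one_lt
    · rw [Polynomial.rootMultiplicity_X_sub_C, if_neg hTp]
      simp

/-- **Hypersurfaces.** -/
theorem FR_univK [DecidableEq ι] (hι : Nonempty ι) (f : ι → MvPolynomial σ ℚ_[p])
    (m m' : ℂ → ℕ∞) (H : ∀ T, 1 < ‖T‖ → m T + (if T = (p : ℂ) then 1 else 0) ≤ m' T)
    (h : FR p m (FF f)) : FR p m' (FF (fun _ : Fin 1 => univK f)) := by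
  refine (FR.mul h (phi_FR (fun T => if T = (p : ℂ) then 1 else 0) (by simp)) H).congr
    fun s hs => ?_
  rw [FF_univK hι f hs]

/-- **Renaming.** -/
theorem FF_equiv (i : σ ≃ τ) (k : ι ≃ κ) (f : ι → MvPolynomial σ ℚ_[p])
    (g : κ → MvPolynomial τ ℚ_[p]) (h : ∀ j, g (k j) = MvPolynomial.rename i (f j)) (s : ℝ) :
    FF g s = FF f s := by
  have h1 : ∀ x : τ → ℤ_[p], sz g x = sz f (fun a => x (i a)) := by
    intro x
    unfold sz
    have h2 : (fun j => MvPolynomial.eval (fun a => inc p (x (i a))) (f j)) =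
        (fun l => MvPolynomial.eval (fun a => inc p (x a)) (g l)) ∘ k := by
      funext j
      rw [Function.comp_apply, h, MvPolynomial.eval_rename]
      rfl
    rw [h2]
    refine le_antisymm ?_ ?_
    · refine (pi_norm_le_iff_of_nonneg (norm_nonneg _)).2 fun l => ?_
      have h3 := norm_le_pi_norm ((fun l => MvPolynomial.eval (fun a => inc p (x a)) (g l)) ∘ k)
        (k.symm l)
      simpa using h3
    · exact (pi_norm_le_iff_of_nonneg (norm_nonneg _)).2 fun j =>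
        norm_le_pi_norm (fun l => MvPolynomial.eval (fun a => inc p (x a)) (g l)) (k j)
  unfold FF FZ
  simp only [h1]
  congr 2
  have hmp := measurePreserving_piCongrLeft (fun _ : τ => mu p) i
  have hmeas : Measurable (fun x : σ → ℤ_[p] => ENNReal.ofReal (sz f x ^ s)) :=
    ENNReal.measurable_ofReal.comp ((sz_meas f).pow_const s)
  have h3 : ∀ x : σ → ℤ_[p], (fun a => (MeasurableEquiv.piCongrLeft (fun _ : τ => ℤ_[p]) i) x (i a)) =
      x := by
    intro x
    funext a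
    exact Equiv.piCongrLeft_apply_apply (fun _ : τ => ℤ_[p]) i x a
  have h4 := hmp.lintegral_comp (f := fun x : τ → ℤ_[p] =>
    ENNReal.ofReal (sz f (fun a => x (i a)) ^ s)) (hmeas.comp (measurable_pi_lambda _ fun a =>
      measurable_pi_apply (i a)))
  rw [← h4]
  refine lintegral_congr fun x => ?_
  rw [h3 x]

/-- **Ideals without zeros.** -/
theorem FR_free (f : ι → MvPolynomial σ ℚ_[p]) (m : ℂ → ℕ∞) (B : ℝ) (hB : 0 < B)
    (h : ∀ x, B ≤ sz f x) : FR p m (FF f) := by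
  have hp : (1 : ℝ) < p := by exact_mod_cast (Fact.out : p.Prime).one_lt
  have hp0 : (0 : ℝ) < (p : ℝ)⁻¹ := inv_pos.2 (by linarith)
  have hp1 : (p : ℝ)⁻¹ < 1 := inv_lt_one_of_one_lt₀ hp
  obtain ⟨K, hK⟩ := sz_int f
  refine (FR_scale (p := p) (Measure.pi fun _ : σ => mu p) (sz f) (sz_nonneg f) K).1 ?_
  refine FR_of_Vc _ _ ((sz_meas f).const_mul _) (hK K le_rfl) (N0_EP _ ?_)
  obtain ⟨E, hE⟩ := exists_pow_lt_of_lt_one (mul_pos (pow_pos hp0 K) hB) hp1
  refine ⟨E, fun e he => ?_⟩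
  unfold Vc Vo
  have : ({x | ((p : ℝ)⁻¹) ^ K * sz f x ≤ ((p : ℝ)⁻¹) ^ e} : Set (σ → ℤ_[p])) = ∅ := by
    rw [Set.eq_empty_iff_forall_notMem]
    intro x hx
    have h1 : ((p : ℝ)⁻¹) ^ K * sz f x ≤ ((p : ℝ)⁻¹) ^ e := hx
    have h2 : ((p : ℝ)⁻¹) ^ e ≤ ((p : ℝ)⁻¹) ^ E := pow_le_pow_of_le_one hp0.le hp1.le he
    have h3 : ((p : ℝ)⁻¹) ^ K * B ≤ ((p : ℝ)⁻¹) ^ K * sz f x :=
      mul_le_mul_of_nonneg_left (h x) (pow_nonneg hp0.le K)
    linarith
  rw [this, measure_empty]
  simp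

/-- **Ideals of the plane.** -/
theorem FR_plane [DecidableEq ι] (φ : ℚ_[p] →+* ℂ) (f : ι → MvPolynomial (Fin 2) ℚ_[p])
    (hne : ∃ j, f j ≠ 0) (m : ℂ → ℕ∞)
    (H : ∀ T, 1 < ‖T‖ → ∃ b : Polynomial ℂ, b ≠ 0 ∧
      Pool.Agent.W574.SM.IsFunctionalEq (fun j => MvPolynomial.map φ (f j)) b ∧
      (b.rootMultiplicity ((rr p T : ℝ) : ℂ) : ℕ∞) ≤ m T) : FR p m (FF f) := by
  have hι : Nonempty ι := ⟨hne.choose⟩
  have e : ∀ s : ℝ, 0 ≤ s → ZI f s = FF f s := by
    intro s hs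
    rw [ZI_eq f s hs]
    unfold FF FZ
    congr 2
    refine lintegral_congr fun x => ?_
    unfold sz
    rw [ofReal_norm_rpow _ hs]
    congr 1
    funext j
    unfold ev
    congr 1
    congr 1
    funext i
    fin_cases i <;> rfl
  intro T0 hT0
  by_cases hT1 : ‖T0‖ ≤ 1
  · exact ⟨0, by simp, (reg_ZI0 f hne hT0 hT1).congr e⟩
  · obtain ⟨b, hb0, hb, hm⟩ := H T0 (not_le.1 hT1)
    refine ⟨_, ?_, (reg_ZI φ f hne b hb0 hb hT0).congr e⟩
    rw [tr, if_neg hT1]
    exact hm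

end Pool.Agent.Y230.PS
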