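import Mathlib

set_option autoImplicit false
set_option linter.unusedSectionVars false
set_option linter.unusedVariables false

/-! # The poles of Hadamard products of rational power series -/

namespace Pool.Agent.Y230.PS

open Polynomial Filter

/-- the shift -/
def sft : (ℕ → ℂ) →ₗ[ℂ] (ℕ → ℂ) where
  toFun c e := c (e + 1)
  map_add' _ _ := rfl
  map_smul' _ _ := rfl

theorem sft_apply (c : ℕ → ℂ) (e : ℕ) : sft c e = c (e + 1) := rfl

/-- the sequences which vanish for large arguments -/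
def N0 : Submodule ℂ (ℕ → ℂ) where
  carrier := {c | ∃ n, ∀ e, n ≤ e → c e = 0}
  add_mem' := by
    rintro a b ⟨n, h⟩ ⟨m, h'⟩
    refine ⟨max n m, fun e he => ?_⟩
    rw [Pi.add_apply, h e (le_trans (le_max_left _ _) he), h' e (le_trans (le_max_right _ _) he),
      add_zero]
  zero_mem' := ⟨0, fun _ _ => rfl⟩
  smul_mem' := by
    rintro a b ⟨n, h⟩
    exact ⟨n, fun e he => by rw [Pi.smul_apply, h e he, smul_zero]⟩

theorem mem_N0 (c : ℕ → ℂ) : c ∈ N0 ↔ ∃ n, ∀ e, n ≤ e → c e = 0 := Iff.rfl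

/-- the operator `shift - l` -/
def op (l : ℂ) : (ℕ → ℂ) →ₗ[ℂ] (ℕ → ℂ) := sft - l • LinearMap.id

theorem op_apply (l : ℂ) (c : ℕ → ℂ) (e : ℕ) : op l c e = c (e + 1) - l * c e := rfl

/-- the sequences which are killed by the `m`-th power of `shift - l`, up to finitely many terms -/
def K (l : ℂ) : ℕ → Submodule ℂ (ℕ → ℂ)
  | 0 => N0
  | m + 1 => (K l m).comap (op l)

theorem mem_K_succ (l : ℂ) (m : ℕ) (c : ℕ → ℂ) : c ∈ K l (m + 1) ↔ op l c ∈ K l m := Iff.rfl

theorem op_sft (l : ℂ) (c : ℕ → ℂ) : op l (sft c) = sft (op l c) := rfl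

theorem sft_mem (l : ℂ) (m : ℕ) (c : ℕ → ℂ) : c ∈ K l m → sft c ∈ K l m := by
  induction m generalizing c with
  | zero =>
    rintro ⟨n, h⟩
    exact ⟨n, fun e he => h (e + 1) (by omega)⟩
  | succ m ih =>
    intro h
    rw [mem_K_succ, op_sft]
    exact ih _ h

theorem of_sft (l : ℂ) (m : ℕ) (c : ℕ → ℂ) : sft c ∈ K l m → c ∈ K l m := by
  induction m generalizing c with
  | zero =>
    rintro ⟨n, h⟩
    refine ⟨n + 1, fun e he => ?_⟩
    obtain ⟨k, rfl⟩ : ∃ k, e = k + 1 := ⟨e - 1, by omega⟩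
    exact h k (by omega)
  | succ m ih =>
    intro h
    rw [mem_K_succ, op_sft] at h
    exact ih _ h

theorem op_mem (l : ℂ) (m : ℕ) (c : ℕ → ℂ) (h : c ∈ K l m) (k : ℂ) : op k c ∈ K l m :=
  (K l m).sub_mem (sft_mem l m c h) ((K l m).smul_mem k h)

theorem K_succ (l : ℂ) (m : ℕ) : K l m ≤ K l (m + 1) := fun c h => op_mem l m c h l

theorem K_mono (l : ℂ) {m n : ℕ} (h : m ≤ n) : K l m ≤ K l n := by
  induction n, h using Nat.le_induction with
  | base => exact le_rfl
  | succ n _ ih => exact ih.trans (K_succ l n)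

theorem N0_le (l : ℂ) (m : ℕ) : N0 ≤ K l m := K_mono l (Nat.zero_le m)

theorem N0_mul (c d : ℕ → ℂ) (h : c ∈ N0) : c * d ∈ N0 := by
  obtain ⟨n, h⟩ := h
  exact ⟨n, fun e he => by rw [Pi.mul_apply, h e he, zero_mul]⟩

theorem K_mul (l k : ℂ) : ∀ (N m n : ℕ), m + n = N → ∀ c d : ℕ → ℂ, c ∈ K l m → d ∈ K k n →
    c * d ∈ K (l * k) (m + n - 1) := by
  intro N
  induction N with
  | zero =>
    intro m n h c d hc hd
    obtain ⟨rfl, rfl⟩ : m = 0 ∧ n = 0 := by omega
    exact N0_le _ _ (N0_mul c d hc)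
  | succ N ih =>
    intro m n h c d hc hd
    rcases m with _ | m
    · exact N0_le _ _ (N0_mul c d hc)
    · rcases n with _ | n
      · rw [mul_comm c d]
        exact N0_le _ _ (N0_mul d c hd)
      · have e1 : m + 1 + (n + 1) - 1 = (m + n) + 1 := by omega
        rw [e1, mem_K_succ]
        have e2 : op (l * k) (c * d) = op l c * sft d + l • (c * op k d) := by
          funext e
          simp only [op_apply, Pi.add_apply, Pi.mul_apply, Pi.smul_apply, sft_apply, smul_eq_mul]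
          ring
        rw [e2]
        have h1 := ih m (n + 1) (by omega) _ _ hc (sft_mem k (n + 1) d hd)
        have h2 := ih (m + 1) n (by omega) _ _ hc hd
        have e3 : m + (n + 1) - 1 = m + n := by omega
        have e4 : m + 1 + n - 1 = m + n := by omega
        rw [e3] at h1
        rw [e4] at h2
        exact (K _ _).add_mem h1 ((K _ _).smul_mem l h2)

/-- the power series with the given coefficients -/
noncomputable def ser (c : ℕ → ℂ) : PowerSeries ℂ := PowerSeries.mk c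

theorem coeff_ser (c : ℕ → ℂ) (e : ℕ) : PowerSeries.coeff e (ser c) = c e :=
  PowerSeries.coeff_mk _ _

theorem ser_coeff (F : PowerSeries ℂ) : ser (fun e => PowerSeries.coeff e F) = F := by
  ext e
  rw [coeff_ser]

theorem ser_add (c d : ℕ → ℂ) : ser (c + d) = ser c + ser d := by
  ext e
  rw [map_add, coeff_ser, coeff_ser, coeff_ser]
  rfl

theorem ser_smul (a : ℂ) (c : ℕ → ℂ) : ser (a • c) = PowerSeries.C a * ser c := by
  ext e
  rw [PowerSeries.coeff_C_mul, coeff_ser, coeff_ser]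
  rfl

theorem poly_of_N0 (c : ℕ → ℂ) (h : c ∈ N0) : ∃ P : ℂ[X], ser c = (P : PowerSeries ℂ) := by
  obtain ⟨n, h⟩ := h
  refine ⟨PowerSeries.trunc n (ser c), ?_⟩
  ext e
  rw [Polynomial.coeff_coe, PowerSeries.coeff_trunc, coeff_ser]
  split_ifs with h1
  · rfl
  · exact h e (by omega)

theorem N0_of_poly (c : ℕ → ℂ) (P : ℂ[X]) (h : ser c = (P : PowerSeries ℂ)) : c ∈ N0 := by
  refine ⟨P.natDegree + 1, fun e he => ?_⟩
  rw [← coeff_ser c e, h, Polynomial.coeff_coe]
  exact Polynomial.coeff_eq_zero_of_natDegree_lt (by omega)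

theorem coe_XC (T : ℂ) : ((X - C T : ℂ[X]) : PowerSeries ℂ) = PowerSeries.X - PowerSeries.C T := by
  rw [Polynomial.coe_sub, Polynomial.coe_X, Polynomial.coe_C]

theorem step (c : ℕ → ℂ) (T : ℂ) (hT : T ≠ 0) :
    sft (fun e => PowerSeries.coeff e (((X - C T : ℂ[X]) : PowerSeries ℂ) * ser c)) =
      (-T) • op T⁻¹ c := by
  funext e
  rw [sft_apply, coe_XC, sub_mul, map_sub, PowerSeries.coeff_succ_X_mul, PowerSeries.coeff_C_mul,
    coeff_ser, coeff_ser, Pi.smul_apply, op_apply, smul_eq_mul]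
  field_simp
  ring

theorem K_ser (T : ℂ) (hT : T ≠ 0) : ∀ (m : ℕ) (c : ℕ → ℂ), c ∈ K T⁻¹ m →
    ∃ P : ℂ[X], (((X - C T) ^ m : ℂ[X]) : PowerSeries ℂ) * ser c = (P : PowerSeries ℂ) := by
  intro m
  induction m with
  | zero =>
    intro c hc
    obtain ⟨P, hP⟩ := poly_of_N0 c hc
    exact ⟨P, by rw [pow_zero, Polynomial.coe_one, one_mul, hP]⟩
  | succ m ih =>
    intro c hc
    obtain ⟨P, hP⟩ := ih (fun e => PowerSeries.coeff e (((X - C T : ℂ[X]) : PowerSeries ℂ) *
      ser c)) (of_sft _ _ _ (by rw [step c T hT]; exact (K _ _).smul_mem _ hc))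
    refine ⟨P, ?_⟩
    rw [ser_coeff, ← mul_assoc, ← Polynomial.coe_mul, ← pow_succ] at hP
    exact hP

theorem ser_K (T : ℂ) (hT : T ≠ 0) : ∀ (m : ℕ) (c : ℕ → ℂ) (P : ℂ[X]),
    (((X - C T) ^ m : ℂ[X]) : PowerSeries ℂ) * ser c = (P : PowerSeries ℂ) → c ∈ K T⁻¹ m := by
  intro m
  induction m with
  | zero =>
    intro c P h
    rw [pow_zero, Polynomial.coe_one, one_mul] at h
    exact N0_of_poly c P h
  | succ m ih =>
    intro c P h
    rw [pow_succ, Polynomial.coe_mul, mul_assoc] at h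
    have h1 := ih (fun e => PowerSeries.coeff e (((X - C T : ℂ[X]) : PowerSeries ℂ) *
      ser c)) P (by rw [ser_coeff]; exact h)
    have h2 := sft_mem _ _ _ h1
    rw [step c T hT] at h2
    rw [mem_K_succ]
    have h3 := (K _ _).smul_mem (-T)⁻¹ h2
    rwa [smul_smul, inv_mul_cancel₀ (neg_ne_zero.2 hT), one_smul] at h3

/-- the sequences whose power series is rational with poles of order at most `mult` -/
def EP (mult : ℂ → ℕ∞) : Submodule ℂ (ℕ → ℂ) :=
  Submodule.span ℂ {c | ∃ T : ℂ, T ≠ 0 ∧ ∃ m : ℕ, (m : ℕ∞) ≤ mult T ∧ c ∈ K T⁻¹ m}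

theorem N0_EP (mult : ℂ → ℕ∞) : N0 ≤ EP mult := fun c hc =>
  Submodule.subset_span ⟨1, one_ne_zero, 0, by simp, N0_le _ _ hc⟩

theorem rat_EP_aux (mult : ℂ → ℕ∞) : ∀ (N : ℕ) (D : ℂ[X]), D.natDegree = N → D ≠ 0 →
    ∀ (c : ℕ → ℂ) (P : ℂ[X]), ((D : ℂ[X]) : PowerSeries ℂ) * ser c = (P : PowerSeries ℂ) →
    (∀ T, T ≠ 0 → (D.rootMultiplicity T : ℕ∞) ≤ mult T) → c ∈ EP mult := by
  intro N
  induction N using Nat.strong_induction_on with
  | _ N ih =>
    intro D hN hD c P h hm
    by_cases hroot : ∃ T, T ≠ 0 ∧ D.IsRoot T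
    · obtain ⟨T, hT, hr⟩ := hroot
      obtain ⟨D1, h1, hnd⟩ := exists_eq_pow_rootMultiplicity_mul_and_not_dvd D hD T
      set m := D.rootMultiplicity T with hmd
      have hm0 : 0 < m := (rootMultiplicity_pos hD).2 hr
      have hD1 : D1 ≠ 0 := by
        rintro rfl
        exact hnd (dvd_zero _)
      have hcop : IsCoprime ((X - C T) ^ m : ℂ[X]) D1 := by
        refine IsCoprime.pow_left ?_
        exact ((irreducible_X_sub_C T).coprime_iff_not_dvd).2 hnd
      obtain ⟨A, B, hAB⟩ := hcop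
      set c1 : ℕ → ℂ := fun e => PowerSeries.coeff e (((B * D1 : ℂ[X]) : PowerSeries ℂ) * ser c)
        with hc1
      set c2 : ℕ → ℂ := fun e => PowerSeries.coeff e
        (((A * (X - C T) ^ m : ℂ[X]) : PowerSeries ℂ) * ser c) with hc2
      have hsum : c = c1 + c2 := by
        funext e
        rw [Pi.add_apply, hc1, hc2]
        dsimp only
        rw [← map_add, ← add_mul, ← Polynomial.coe_add]
        have : B * D1 + A * (X - C T) ^ m = 1 := by rw [add_comm]; exact hAB
        rw [this, Polynomial.coe_one, one_mul, coeff_ser]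
      rw [hsum]
      refine (EP mult).add_mem ?_ ?_
      · refine Submodule.subset_span ⟨T, hT, m, hm T hT, ser_K T hT m c1 (B * P) ?_⟩
        rw [hc1, ser_coeff, ← mul_assoc, ← Polynomial.coe_mul]
        have : (X - C T) ^ m * (B * D1) = B * D := by
          conv_rhs => rw [h1]
          ring
        rw [this, Polynomial.coe_mul, mul_assoc, h, ← Polynomial.coe_mul]
      · refine ih D1.natDegree ?_ D1 rfl hD1 c2 (A * P) ?_ fun S hS => ?_
        · rw [← hN, h1, natDegree_mul (pow_ne_zero _ (X_sub_C_ne_zero T)) hD1, natDegree_pow,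
            natDegree_X_sub_C]
          omega
        · rw [hc2, ser_coeff, ← mul_assoc, ← Polynomial.coe_mul]
          have : D1 * (A * (X - C T) ^ m) = A * D := by
            conv_rhs => rw [h1]
            ring
          rw [this, Polynomial.coe_mul, mul_assoc, h, ← Polynomial.coe_mul]
        · refine le_trans ?_ (hm S hS)
          exact_mod_cast rootMultiplicity_le_rootMultiplicity_of_dvd hD
            (Dvd.intro_left _ h1.symm) S
    · push Not at hroot
      -- `D` is a monomial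
      obtain ⟨B, hB, hnd⟩ := exists_eq_pow_rootMultiplicity_mul_and_not_dvd D hD 0
      set r := D.rootMultiplicity 0 with hr
      rw [C_0, sub_zero] at hB hnd
      have hB0 : B ≠ 0 := by
        rintro rfl
        exact hnd (dvd_zero _)
      have hBc : B.natDegree = 0 := by
        by_contra hne
        obtain ⟨T, hT⟩ := Complex.exists_root (f := B) (by
          rw [← Polynomial.natDegree_pos_iff_degree_pos]
          omega)
        by_cases hT0 : T = 0
        · subst hT0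
          exact hnd (by have := dvd_iff_isRoot.2 hT; rwa [C_0, sub_zero] at this)
        · refine hroot T hT0 ?_
          rw [IsRoot, hB, eval_mul, hT.eq_zero, mul_zero]
      rw [natDegree_eq_zero] at hBc
      obtain ⟨a, rfl⟩ := hBc
      have ha : a ≠ 0 := by
        rintro rfl
        exact hB0 C_0
      refine N0_EP mult ⟨P.natDegree + 1, fun e he => ?_⟩
      have h2 := congrArg (PowerSeries.coeff (e + r)) h
      rw [hB, Polynomial.coe_mul, Polynomial.coe_pow, Polynomial.coe_X, Polynomial.coe_C,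
        mul_assoc, PowerSeries.coeff_X_pow_mul, PowerSeries.coeff_C_mul, coeff_ser,
        Polynomial.coeff_coe, Polynomial.coeff_eq_zero_of_natDegree_lt (by omega)] at h2
      exact (mul_eq_zero.1 h2).resolve_left ha

theorem rat_EP (mult : ℂ → ℕ∞) (D : ℂ[X]) (hD : D ≠ 0) (c : ℕ → ℂ) (P : ℂ[X])
    (h : ((D : ℂ[X]) : PowerSeries ℂ) * ser c = (P : PowerSeries ℂ))
    (hm : ∀ T, T ≠ 0 → (D.rootMultiplicity T : ℕ∞) ≤ mult T) : c ∈ EP mult :=
  rat_EP_aux mult D.natDegree D rfl hD c P h hm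

/-- the least common multiple -/
theorem exists_lcm (D1 D2 : ℂ[X]) (h1 : D1 ≠ 0) (h2 : D2 ≠ 0) :
    ∃ a b : ℂ[X], D1 * a ≠ 0 ∧ D1 * a = D2 * b ∧ ∀ T, (D1 * a).rootMultiplicity T ≤
      max (D1.rootMultiplicity T) (D2.rootMultiplicity T) := by
  obtain ⟨g, u, v, hg, hcop, e1, e2⟩ : ∃ g u v : ℂ[X], g ≠ 0 ∧ IsCoprime u v ∧ D1 = g * u ∧
      D2 = g * v := by
    exact ⟨gcd D1 D2, D1 / gcd D1 D2, D2 / gcd D1 D2, gcd_ne_zero_of_right h2,
      isCoprime_div_gcd_div_gcd h2,
      (EuclideanDomain.mul_div_cancel' (gcd_ne_zero_of_right h2) (gcd_dvd_left _ _)).symm,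
      (EuclideanDomain.mul_div_cancel' (gcd_ne_zero_of_right h2) (gcd_dvd_right _ _)).symm⟩
  have hu : u ≠ 0 := by
    rintro rfl
    exact h1 (by rw [e1, mul_zero])
  have hv : v ≠ 0 := by
    rintro rfl
    exact h2 (by rw [e2, mul_zero])
  refine ⟨v, u, mul_ne_zero h1 hv, by rw [e1, e2]; ring, fun T => ?_⟩
  rw [e1, e2, rootMultiplicity_mul (mul_ne_zero (mul_ne_zero hg hu) hv),
    rootMultiplicity_mul (mul_ne_zero hg hu), rootMultiplicity_mul (mul_ne_zero hg hv)]
  have h3 : u.rootMultiplicity T = 0 ∨ v.rootMultiplicity T = 0 := by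
    by_contra hne
    push Not at hne
    have hu1 : u.IsRoot T := (rootMultiplicity_pos hu).1 (Nat.pos_of_ne_zero hne.1)
    have hv1 : v.IsRoot T := (rootMultiplicity_pos hv).1 (Nat.pos_of_ne_zero hne.2)
    obtain ⟨a, b, hab⟩ := hcop
    have := congrArg (eval T) hab
    rw [eval_add, eval_mul, eval_mul, hu1.eq_zero, hv1.eq_zero, eval_one, mul_zero, mul_zero,
      add_zero] at this
    exact zero_ne_one this
  rcases h3 with h3 | h3
  · rw [h3]
    omega
  · rw [h3]
    omega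

theorem EP_rat (mult : ℂ → ℕ∞) (c : ℕ → ℂ) (hc : c ∈ EP mult) : ∃ D P : ℂ[X], D ≠ 0 ∧
    ((D : ℂ[X]) : PowerSeries ℂ) * ser c = (P : PowerSeries ℂ) ∧
    ∀ T, T ≠ 0 → (D.rootMultiplicity T : ℕ∞) ≤ mult T := by
  induction hc using Submodule.span_induction with
  | mem c h =>
    obtain ⟨T, hT, m, hm, hc⟩ := h
    obtain ⟨P, hP⟩ := K_ser T hT m c hc
    refine ⟨(X - C T) ^ m, P, pow_ne_zero _ (X_sub_C_ne_zero T), hP, fun S hS => ?_⟩
    by_cases h : S = T
    · subst h
      rw [rootMultiplicity_X_sub_C_pow]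
      exact hm
    · have : ((X - C T) ^ m : ℂ[X]).rootMultiplicity S = 0 := by
        apply rootMultiplicity_eq_zero
        rw [IsRoot, eval_pow, eval_sub, eval_X, eval_C]
        exact pow_ne_zero _ (sub_ne_zero.2 h)
      rw [this]
      simp
  | zero =>
    refine ⟨1, 0, one_ne_zero, ?_, fun T _ => by
      rw [← C_1, rootMultiplicity_C]
      simp⟩
    ext e
    rw [Polynomial.coe_one, one_mul, coeff_ser]
    simp
  | add c d _ _ hc hd =>
    obtain ⟨D1, P1, h1, h2, h3⟩ := hc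
    obtain ⟨D2, P2, h4, h5, h6⟩ := hd
    obtain ⟨a, b, h7, h8, h9⟩ := exists_lcm D1 D2 h1 h4
    refine ⟨D1 * a, a * P1 + b * P2, h7, ?_, fun T hT => ?_⟩
    · rw [ser_add, mul_add, Polynomial.coe_add]
      congr 1
      · rw [mul_comm D1 a, Polynomial.coe_mul, mul_assoc, h2, ← Polynomial.coe_mul]
      · rw [h8, mul_comm D2 b, Polynomial.coe_mul, mul_assoc, h5, ← Polynomial.coe_mul]
    · have h10 := h9 T
      rcases le_total (D1.rootMultiplicity T) (D2.rootMultiplicity T) with h | h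
      · rw [max_eq_right h] at h10
        exact le_trans (by exact_mod_cast h10) (h6 T hT)
      · rw [max_eq_left h] at h10
        exact le_trans (by exact_mod_cast h10) (h3 T hT)
  | smul a c _ hc =>
    obtain ⟨D1, P1, h1, h2, h3⟩ := hc
    refine ⟨D1, C a * P1, h1, ?_, h3⟩
    rw [ser_smul, ← mul_assoc, mul_comm _ (PowerSeries.C a), mul_assoc, h2, Polynomial.coe_mul,
      Polynomial.coe_C]

/-- **Hadamard products.** -/
theorem had (m1 m2 m3 : ℂ → ℕ∞) (H : ∀ T1 T2 : ℂ, T1 ≠ 0 → T2 ≠ 0 → ∀ a b : ℕ, 1 ≤ a → 1 ≤ b →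
    (a : ℕ∞) ≤ m1 T1 → (b : ℕ∞) ≤ m2 T2 → ((a + b - 1 : ℕ) : ℕ∞) ≤ m3 (T1 * T2))
    (c d : ℕ → ℂ) (hc : c ∈ EP m1) (hd : d ∈ EP m2) : c * d ∈ EP m3 := by
  induction hc using Submodule.span_induction with
  | mem c h =>
    obtain ⟨T1, hT1, a, ha, hc⟩ := h
    induction hd using Submodule.span_induction with
    | mem d h =>
      obtain ⟨T2, hT2, b, hb, hd⟩ := h
      rcases Nat.eq_zero_or_pos a with rfl | ha1
      · exact N0_EP _ (N0_mul c d hc)
      · rcases Nat.eq_zero_or_pos b with rfl | hb1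
        · rw [mul_comm c d]
          exact N0_EP _ (N0_mul d c hd)
        · refine Submodule.subset_span ⟨T1 * T2, mul_ne_zero hT1 hT2, a + b - 1,
            H T1 T2 hT1 hT2 a b ha1 hb1 ha hb, ?_⟩
          rw [mul_inv]
          exact K_mul _ _ _ a b rfl c d hc hd
    | zero => rw [mul_zero]; exact Submodule.zero_mem _
    | add d d' _ _ h h' => rw [mul_add]; exact Submodule.add_mem _ h h'
    | smul r d _ h => rw [mul_smul_comm]; exact Submodule.smul_mem _ _ h
  | zero => rw [zero_mul]; exact Submodule.zero_mem _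
  | add c c' _ _ h h' => rw [add_mul]; exact Submodule.add_mem _ h h'
  | smul r c _ h => rw [smul_mul_assoc]; exact Submodule.smul_mem _ _ h

end Pool.Agent.Y230.PS
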