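import Pool.Agent.Y230.PS.Conv
import Pool.Agent.Y230.PT.Final

set_option autoImplicit false
set_option linter.unusedSectionVars false
set_option linter.unusedVariables false

/-! # The zeta functions of the hypersurfaces in the class -/

namespace Pool.Agent.Y230.PS

open MeasureTheory MvPolynomial Pool.Agent.W427.SMC Pool.Agent.Y230.PT
open scoped ENNReal
open Pool.Agent.Y230.RE Pool.Agent.W574.SM Pool.Agent.W574.RO Pool.Agent.W574.CN

attribute [local instance] msZ bsZ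

/-- the hypersurface `F` as a family -/
@[reducible] def hyp {V : Type} [Fintype V] (F : MvPolynomial V ℚ) : FamQ := ⟨V, Fin 1, fun _ => F⟩

theorem toC_hyp {V : Type} [Fintype V] (F : MvPolynomial V ℚ) :
    (hyp F).toC = fun _ : Fin 1 => map (algebraMap ℚ ℂ) F := rfl

/-- the functional equation of a polynomial as a functional equation of a principal ideal -/
theorem single_of_isB {σ : Type} (f : MvPolynomial σ ℂ) (b : Polynomial ℂ)
    (h : Pool.Agent.H628R4.TP.IsBFunction f b) : IsFunctionalEq (fun _ : Fin 1 => f) b := by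
  classical
  obtain ⟨P, hP⟩ := h
  refine ⟨{fun _ => 1}, fun _ => ∑ m ∈ P.support, Finsupp.single (Finsupp.single 0 m)
    ⟨(P m).1, (P m).2⟩, fun c hc => ?_, fun s => ?_⟩
  · rw [Finset.mem_singleton.1 hc]
    simp
  · rw [Finset.sum_singleton, Fin.sum_univ_one, Fin.prod_univ_one, Fin.prod_univ_one,
      Fin.prod_univ_one, hP (s 0), applyAt, ← Finsupp.sum_finsetSum_index]
    · refine Finset.sum_congr rfl fun m _ => ?_
      rw [Finsupp.sum_single_index (by rw [ZeroMemClass.coe_zero, LinearMap.zero_apply, smul_zero])]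
      rw [Fin.prod_univ_one, Finsupp.single_eq_same, if_neg (by norm_num), Nat.cast_one, map_one,
        one_mul]
      have e : ((s 0 : ℤ) + 1).toNat = s 0 + 1 := by omega
      rw [e]
    · intro a
      rw [ZeroMemClass.coe_zero, LinearMap.zero_apply, smul_zero]
    · intro a A B
      rw [← smul_add]
      rfl

variable {p : ℕ} [Fact p.Prime]

theorem FF_hyp {V : Type} [Fintype V] (F : MvPolynomial V ℚ) (s : ℝ) :
    FF ((hyp F).toP p) s = ((∫⁻ x : V → ℤ_[p], N p s (eval₂ (algebraMap ℚ ℚ_[p])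
      (fun i => inc p (x i)) F) ∂(Measure.pi fun _ : V => mu p)).toReal : ℂ) := by
  unfold FF FZ
  congr 2
  refine lintegral_congr fun x => ?_
  unfold N sz
  congr 2
  have h : (fun j : Fin 1 => eval (fun i => inc p (x i)) ((hyp F).toP p j)) =
      fun _ : Fin 1 => eval₂ (algebraMap ℚ ℚ_[p]) (fun i => inc p (x i)) F := by
    funext j
    change eval _ (map _ F) = _
    rw [eval_map]
  refine (congrArg norm h).trans ?_
  exact pi_norm_const _

theorem core {strict : Bool} {mlt : FamQ → ℂ → ℕ∞} (hM : IsMlt p strict mlt) {V : Type}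
    [Fintype V] (F : MvPolynomial V ℚ) (hF : GoodU strict (hyp F)) :
    ∃ D P : Polynomial ℂ, D ≠ 0 ∧ (∀ s : ℝ, 0 ≤ s →
      D.eval ((tr' p s : ℝ) : ℂ) * ((∫⁻ x : V → ℤ_[p], N p s (eval₂ (algebraMap ℚ ℚ_[p])
        (fun i => inc p (x i)) F) ∂(Measure.pi fun _ : V => mu p)).toReal : ℂ) =
          P.eval ((tr' p s : ℝ) : ℂ)) ∧
      ∀ T0, T0 ≠ 0 → (D.rootMultiplicity T0 : ℕ∞) ≤ tr (mlt (hyp F)) T0 := by
  obtain ⟨h1, h2⟩ := goodU_main hM (hyp F) hF
  obtain ⟨D, P, hD, h3, h4⟩ := h2.rat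
  refine ⟨D, P, hD, fun s hs => ?_, h4⟩
  rw [← FF_hyp]
  exact h3 s hs

theorem core_Z {strict : Bool} {mlt : FamQ → ℂ → ℕ∞} (hM : IsMlt p strict mlt) {V : Type}
    [Fintype V] (F : MvPolynomial V ℤ) (hF : GoodU strict (hyp (map (Int.castRingHom ℚ) F))) :
    ∃ D P : Polynomial ℂ, D ≠ 0 ∧ (∀ s : ℝ, 0 ≤ s →
      D.eval ((tr' p s : ℝ) : ℂ) * ((∫⁻ x : V → ℤ_[p], tau p s (aeval x F)
        ∂(Measure.pi fun _ : V => mu p)).toReal : ℂ) = P.eval ((tr' p s : ℝ) : ℂ)) ∧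
      ∀ T0, T0 ≠ 0 → (D.rootMultiplicity T0 : ℕ∞) ≤
        tr (mlt (hyp (map (Int.castRingHom ℚ) F))) T0 := by
  obtain ⟨D, P, hD, h2, h3⟩ := core hM _ hF
  refine ⟨D, P, hD, fun s hs => ?_, h3⟩
  rw [← h2 s hs]
  simp only [tau_N]

/-- a root of the denominator is a root of all functional equations -/
theorem root_of_tr {V : Type} [Fintype V] (F : MvPolynomial V ℚ) (b : Polynomial ℂ)
    (hb : Pool.Agent.H628R4.TP.IsBFunction (map (algebraMap ℚ ℂ) F) b) (T : ℂ) (n : ℕ) (hn : n ≠ 0)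
    (h : (n : ℕ∞) ≤ tr (mR p (hyp F)) T) : b.eval ((rr p T : ℝ) : ℂ) = 0 := by
  unfold tr at h
  split_ifs at h with h1
  · exact absurd (by exact_mod_cast le_antisymm h bot_le : n = 0) hn
  · exact mR_forced (Nat.one_le_iff_ne_zero.2 hn) h b (single_of_isB _ b hb)

/-- **The real parts of the poles are roots.** -/
theorem mero_R {V : Type} [Fintype V] (F : MvPolynomial V ℚ) (hF : GoodU false (hyp F))
    (b : Polynomial ℂ) (hb : Pool.Agent.H628R4.TP.IsBFunction (map (algebraMap ℚ ℂ) F) b)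
    (Z : ℂ → ℂ) (hZ : MeromorphicOn Z Set.univ)
    (hZp : ∀ s : ℂ, 0 < s.re → Z s = zetaQ p F s) (s₀ : ℂ) (hs : meromorphicOrderAt Z s₀ < 0) :
    b.eval (s₀.re : ℂ) = 0 := by
  obtain ⟨D, P, hD0, h1, h2⟩ := core (p := p) isMlt_R F hF
  have h3 := mero_bound p D P hD0 Z hZ (fun s hs => by
    rw [pw_real, hZp s (by simpa using hs), zetaQ_eq, h1 s hs.le]) s₀
  have h5 : rr p (pw p s₀) = s₀.re := pw_norm p s₀
  rw [← h5]
  refine root_of_tr F b hb _ (D.rootMultiplicity (pw p s₀)) (fun h0 => ?_)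
    (h2 _ (pw_ne_zero p s₀))
  rw [h0] at h3
  exact absurd (lt_of_le_of_lt h3 hs) (by simp)

theorem mero_RZ {V : Type} [Fintype V] (F : MvPolynomial V ℤ)
    (hF : GoodU false (hyp (map (Int.castRingHom ℚ) F)))
    (b : Polynomial ℂ) (hb : Pool.Agent.H628R4.TP.IsBFunction (map (Int.castRingHom ℂ) F) b)
    (Z : ℂ → ℂ) (hZ : MeromorphicOn Z Set.univ)
    (hZp : ∀ s : ℂ, 0 < s.re → Z s = igusaZeta p F s) (s₀ : ℂ)
    (hs : meromorphicOrderAt Z s₀ < 0) : b.eval (s₀.re : ℂ) = 0 := by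
  obtain ⟨D, P, hD0, h1, h2⟩ := core_Z (p := p) isMlt_R F hF
  have h3 := mero_bound p D P hD0 Z hZ (fun s hs => by
    rw [pw_real, hZp s (by simpa using hs), igusaZeta_eq, h1 s hs.le]) s₀
  have h5 : rr p (pw p s₀) = s₀.re := pw_norm p s₀
  rw [← h5]
  refine root_of_tr (map (Int.castRingHom ℚ) F) b ?_ _ (D.rootMultiplicity (pw p s₀))
    (fun h0 => ?_) (h2 _ (pw_ne_zero p s₀))
  · rw [map_map]
    exact hb
  · rw [h0] at h3
    exact absurd (lt_of_le_of_lt h3 hs) (by simp)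

theorem poin_R {V : Type} [Fintype V] (F : MvPolynomial V ℤ)
    (hF : GoodU false (hyp (map (Int.castRingHom ℚ) F)))
    (b : Polynomial ℂ) (hb : Pool.Agent.H628R4.TP.IsBFunction (map (Int.castRingHom ℂ) F) b) :
    ∃ Φ : RatFunc ℂ, ((Φ.denom : Polynomial ℂ) : PowerSeries ℂ) * poincare p F =
        ((Φ.num : Polynomial ℂ) : PowerSeries ℂ) ∧
      ∀ T₀ : ℂ, Φ.denom.eval T₀ = 0 → b.eval ((-Real.log ‖T₀‖ / Real.log p : ℝ) : ℂ) = 0 := by
  obtain ⟨D, P, hD0, h1, h2⟩ := core_Z (p := p) isMlt_R F hF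
  obtain ⟨Φ, h3, h4, h5⟩ := poincare_of p _ D P hD0 h1
  refine ⟨Φ, h3, fun T hT0 => ?_⟩
  have hd : Φ.denom ≠ 0 := Φ.denom_ne_zero
  have h6 : Φ.denom.rootMultiplicity T ≠ 0 := by
    rw [Ne, Polynomial.rootMultiplicity_eq_zero_iff]
    intro h
    exact hd (h hT0)
  have hT : T ≠ 0 := by
    rintro rfl
    exact h6 h4
  refine root_of_tr (map (Int.castRingHom ℚ) F) b ?_ T (D.rootMultiplicity T) (fun h0 => ?_)
    (h2 T hT)
  · rw [map_map]
    exact hb
  · have := h5 T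
    omega

end Pool.Agent.Y230.PS
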