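import Pool.Agent.Y230.PS.Defs
import Pool.Agent.Y230.PS.Cone2
import Pool.Agent.Y230.PS.Auto
import Pool.Agent.Y229.SP5

set_option autoImplicit false
set_option linter.unusedSectionVars false
set_option linter.unusedVariables false

/-! # The induction -/

namespace Pool.Agent.Y230.PS

open MeasureTheory MvPolynomial Pool.Agent.W427.SMC Pool.Agent.Y230.PT
open scoped ENNReal
open Pool.Agent.Y230.RE Pool.Agent.W574.SM Pool.Agent.W574.RO Pool.Agent.W574.CN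

attribute [local instance] msZ bsZ

variable {p : ℕ} [Fact p.Prime]

/-- the polynomials over `ℚ_p` -/
noncomputable def FamQ.toP (p : ℕ) [Fact p.Prime] (A : FamQ) : A.ι → MvPolynomial A.σ ℚ_[p] :=
  fun j => map (algebraMap ℚ ℚ_[p]) (A.f j)

/-- compatible multiplicities -/
structure IsMlt (p : ℕ) [Fact p.Prime] (strict : Bool) (mlt : FamQ → ℂ → ℕ∞) : Prop where
  plane : ∀ (r : ℕ) (f : Fin r → MvPolynomial (Fin 2) ℚ), (∃ j, f j ≠ 0) → ∀ T : ℂ, 1 < ‖T‖ →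
    ∃ b : Polynomial ℂ, b ≠ 0 ∧ IsFunctionalEq (FamQ.toC ⟨Fin 2, Fin r, f⟩) b ∧
      (b.rootMultiplicity ((rr p T : ℝ) : ℂ) : ℕ∞) ≤ mlt ⟨Fin 2, Fin r, f⟩ T
  sum : ∀ (A B : FamQ) (T1 T2 : ℂ), 1 < ‖T1‖ → 1 < ‖T2‖ → ∀ a b : ℕ, 1 ≤ a → 1 ≤ b →
    (a : ℕ∞) ≤ mlt A T1 → (b : ℕ∞) ≤ mlt B T2 → ((a + b - 1 : ℕ) : ℕ∞) ≤ mlt (A.sum B) (T1 * T2)
  mul : ∀ (A B : FamQ) (T : ℂ), 1 < ‖T‖ → (∃ j, A.f j ≠ 0) → (∃ j, B.f j ≠ 0) →
    mlt A T + mlt B T ≤ mlt (A.mul B) T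
  equiv : ∀ (A B : FamQ) (i : A.σ ≃ B.σ) (k : A.ι ≃ B.ι) (_ : ∀ j, B.f (k j) = rename i (A.f j))
    (T : ℂ), 1 < ‖T‖ → mlt A T ≤ mlt B T
  univ : ∀ (A : FamQ) (T : ℂ), 1 < ‖T‖ → (∃ j, A.f j ≠ 0) →
    mlt A T + (if T = (p : ℂ) then 1 else 0) ≤ mlt A.univ T
  cone : ∀ (n r d : ℕ) (_ : 0 < d) (f : Fin r → MvPolynomial (Fin (n + 1)) ℚ)
    (_ : ∀ j, (f j).IsHomogeneous d) (e : Fin (n + 1) → Fin r)
    (_ : (Matrix.of fun s t => pderiv s (f (e t))).det ≠ 0)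
    (_ : strict = true → ∀ i : Fin (n + 1), ∃ b : Polynomial ℂ,
      IsFunctionalEq (fun j => map (algebraMap ℚ ℂ) (dehQ i (f j))) b ∧
      b.eval (-((n : ℂ) + 1) / d) ≠ 0),
    ∃ m : ℂ → ℕ∞, (∀ (i : Fin (n + 1)) (T : ℂ), 1 < ‖T‖ →
      mlt ⟨Fin n, Fin r, fun j => dehQ i (f j)⟩ T ≤ m T) ∧
      ∀ T : ℂ, 1 < ‖T‖ → (if T ^ d = (p : ℂ) ^ (n + 1) then 1 else 0) + m T ≤
        mlt ⟨Fin (n + 1), Fin r, f⟩ T

theorem map_dehQ {n : ℕ} (i : Fin (n + 1)) (q : MvPolynomial (Fin (n + 1)) ℚ) :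
    map (algebraMap ℚ ℚ_[p]) (dehQ i q) = dehK i (map (algebraMap ℚ ℚ_[p]) q) := by
  have h : (map (algebraMap ℚ ℚ_[p])).comp (dehQ i).toRingHom =
      (dehK (p := p) i).toRingHom.comp (map (algebraMap ℚ ℚ_[p])) := by
    apply MvPolynomial.ringHom_ext
    · intro a
      simp [dehQ, dehK]
    · intro k
      change map (algebraMap ℚ ℚ_[p]) (dehQ i (X k)) = dehK i (map (algebraMap ℚ ℚ_[p]) (X k))
      rw [map_X]
      unfold dehQ dehK
      rw [aeval_X, aeval_X]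
      induction k using Fin.succAboveCases i with
      | x => rw [Fin.insertNth_apply_same, Fin.insertNth_apply_same, map_one]
      | p k => rw [Fin.insertNth_apply_succAbove, Fin.insertNth_apply_succAbove, map_X]
  exact congrArg (fun ψ : MvPolynomial (Fin (n + 1)) ℚ →+* MvPolynomial (Fin n) ℚ_[p] => ψ q) h

theorem scl_rename {σ τ ι κ : Type} [Fintype ι] [Fintype κ] (e : σ → τ) (c : τ → ℚ_[p])
    (q : MvPolynomial σ ℚ_[p]) :
    aeval (fun i => C (c i) * X i : τ → MvPolynomial τ ℚ_[p]) (rename e q) =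
      rename e (aeval (fun i => C (c (e i)) * X i : σ → MvPolynomial σ ℚ_[p]) q) := by
  have h : (aeval (fun i => C (c i) * X i : τ → MvPolynomial τ ℚ_[p])).comp (rename e) =
      (rename e : MvPolynomial σ ℚ_[p] →ₐ[ℚ_[p]] _).comp
        (aeval (fun i => C (c (e i)) * X i : σ → MvPolynomial σ ℚ_[p])) := by
    apply MvPolynomial.algHom_ext
    intro i
    rw [AlgHom.comp_apply, AlgHom.comp_apply, rename_X, aeval_X, aeval_X, map_mul, rename_X,
      rename_C]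
  exact congrArg (fun ψ : MvPolynomial σ ℚ_[p] →ₐ[ℚ_[p]] MvPolynomial τ ℚ_[p] => ψ q) h

theorem scl_sumK {σ τ ι κ : Type} [Fintype ι] [Fintype κ] (f : ι → MvPolynomial σ ℚ_[p])
    (g : κ → MvPolynomial τ ℚ_[p]) (c : σ ⊕ τ → ℚ_[p]) :
    scl c (sumK f g) = sumK (scl (fun i => c (Sum.inl i)) f) (scl (fun i => c (Sum.inr i)) g) := by
  funext j
  rcases j with j | j
  · exact scl_rename (ι := ι) (κ := κ) Sum.inl c (f j)
  · exact scl_rename (ι := ι) (κ := κ) Sum.inr c (g j)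

theorem scl_mulK {σ τ ι κ : Type} [Fintype ι] [Fintype κ] (f : ι → MvPolynomial σ ℚ_[p])
    (g : κ → MvPolynomial τ ℚ_[p]) (c : σ ⊕ τ → ℚ_[p]) :
    scl c (mulK f g) = mulK (scl (fun i => c (Sum.inl i)) f) (scl (fun i => c (Sum.inr i)) g) := by
  funext j
  unfold scl mulK
  rw [map_mul, scl_rename (ι := ι) (κ := κ) Sum.inl c (f j.1),
    scl_rename (ι := ι) (κ := κ) Sum.inr c (g j.2)]

theorem toP_sum (A B : FamQ) : (A.sum B).toP p = sumK (A.toP p) (B.toP p) := by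
  funext j
  rcases j with j | j
  · exact map_rename _ _ _
  · exact map_rename _ _ _

theorem toP_mul (A B : FamQ) : (A.mul B).toP p = mulK (A.toP p) (B.toP p) := by
  funext j
  change map (algebraMap ℚ ℚ_[p])
    (rename Sum.inl (A.f j.1) * rename Sum.inr (B.f j.2) : MvPolynomial (A.σ ⊕ B.σ) ℚ) = _
  rw [map_mul, map_rename, map_rename]
  rfl

theorem toP_univ (A : FamQ) : A.univ.toP p = fun _ : Fin 1 => univK (A.toP p) := by
  funext j
  change map (algebraMap ℚ ℚ_[p])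
    (∑ j, X (Sum.inl j) * rename Sum.inr (A.f j) : MvPolynomial (A.ι ⊕ A.σ) ℚ) = _
  unfold univK
  rw [map_sum]
  refine Finset.sum_congr rfl fun j _ => ?_
  rw [map_mul, map_X, map_rename]
  rfl

theorem sum_ne (A B : FamQ) (h : ∃ j, A.f j ≠ 0) : ∃ j, (A.sum B).f j ≠ 0 := by
  obtain ⟨j, hj⟩ := h
  refine ⟨Sum.inl j, ?_⟩
  change rename Sum.inl (A.f j) ≠ 0
  rw [Ne, map_eq_zero_iff _ (rename_injective _ Sum.inl_injective)]
  exact hj

theorem mul_ne (A B : FamQ) (h : ∃ j, A.f j ≠ 0) (h' : ∃ j, B.f j ≠ 0) :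
    ∃ j, (A.mul B).f j ≠ 0 := by
  obtain ⟨j, hj⟩ := h
  obtain ⟨k, hk⟩ := h'
  refine ⟨(j, k), ?_⟩
  change (rename Sum.inl (A.f j) * rename Sum.inr (B.f k) : MvPolynomial (A.σ ⊕ B.σ) ℚ) ≠ 0
  refine mul_ne_zero ?_ ?_
  · rw [Ne, map_eq_zero_iff _ (rename_injective _ Sum.inl_injective)]
    exact hj
  · rw [Ne, map_eq_zero_iff _ (rename_injective _ Sum.inr_injective)]
    exact hk

theorem equiv_ne (A B : FamQ) (i : A.σ ≃ B.σ) (k : A.ι ≃ B.ι)
    (h : ∀ j, B.f (k j) = rename i (A.f j)) (h' : ∃ j, A.f j ≠ 0) : ∃ j, B.f j ≠ 0 := by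
  obtain ⟨j, hj⟩ := h'
  refine ⟨k j, ?_⟩
  rw [h, Ne, map_eq_zero_iff _ (rename_injective _ i.injective)]
  exact hj

theorem univ_ne (A : FamQ) (h : ∃ j, A.f j ≠ 0) : ∃ j, A.univ.f j ≠ 0 := by
  classical
  obtain ⟨j, hj⟩ := h
  refine ⟨(0 : Fin 1), fun h0 => hj ?_⟩
  have h1 : (∑ j, X (Sum.inl j) * rename Sum.inr (A.f j) : MvPolynomial (A.ι ⊕ A.σ) ℚ) = 0 := h0
  have h2 := congrArg (aeval (Sum.elim (fun l => if l = j then (1 : MvPolynomial A.σ ℚ) else 0) X) :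
    MvPolynomial (A.ι ⊕ A.σ) ℚ → MvPolynomial A.σ ℚ) h1
  rw [map_sum, map_zero] at h2
  rw [Finset.sum_eq_single j] at h2
  · rw [map_mul, aeval_X, Sum.elim_inl, if_pos rfl, one_mul, aeval_rename] at h2
    have h3 : (Sum.elim (fun l => if l = j then (1 : MvPolynomial A.σ ℚ) else 0) X ∘ Sum.inr) =
        X := rfl
    rw [h3, aeval_X_left_apply] at h2
    exact h2
  · intro l _ hl
    rw [map_mul, aeval_X, Sum.elim_inl, if_neg hl, zero_mul]
  · intro h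
    exact absurd (Finset.mem_univ _) h

theorem det_ne {n r : ℕ} (f : Fin r → MvPolynomial (Fin (n + 1)) ℚ) (e : Fin (n + 1) → Fin r)
    (he : (Matrix.of fun s t => pderiv s (f (e t))).det ≠ 0) : ∃ j, f j ≠ 0 := by
  by_contra h0
  push Not at h0
  apply he
  have : (Matrix.of fun s t => pderiv s (f (e t)) : Matrix (Fin (n + 1)) (Fin (n + 1)) _) = 0 := by
    ext s t
    rw [Matrix.of_apply, h0, map_zero, Matrix.zero_apply]
  rw [this, Matrix.det_zero]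

theorem toP_ne (A : FamQ) (h : ∃ j, A.f j ≠ 0) : ∃ j, A.toP p j ≠ 0 := by
  obtain ⟨j, hj⟩ := h
  refine ⟨j, fun h0 => hj ?_⟩
  exact map_injective _ (algebraMap ℚ ℚ_[p]).injective (by rw [map_zero]; exact h0)

theorem scl_ne {σ ι : Type} [Fintype ι] (f : ι → MvPolynomial σ ℚ_[p]) (c : σ → ℚ_[p])
    (hc : ∀ i, c i ≠ 0) (h : ∃ j, f j ≠ 0) : ∃ j, scl c f j ≠ 0 := by
  obtain ⟨j, hj⟩ := h
  refine ⟨j, fun h0 => hj ?_⟩
  have h1 : scl (fun i => (c i)⁻¹) (scl c f) = f := by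
    rw [scl_scl]
    have : (fun i => (c i)⁻¹ * c i) = fun _ => (1 : ℚ_[p]) := funext fun i => inv_mul_cancel₀ (hc i)
    rw [this, scl_one]
  rw [← h1]
  change aeval _ (scl c f j) = 0
  rw [h0, map_zero]

/-- **The zeta functions of the ideals in the class**, on all polydiscs. -/
theorem good_main {strict : Bool} {mlt : FamQ → ℂ → ℕ∞} (hM : IsMlt p strict mlt) (A : FamQ)
    (h : Good strict A) : (∃ j, A.f j ≠ 0) ∧ ∀ c : A.σ → ℚ_[p], (∀ i, c i ≠ 0) →
      FR p (mlt A) (FF (scl c (A.toP p))) := by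
  classical
  obtain ⟨φ⟩ := exists_emb p
  have hφ : φ.comp (algebraMap ℚ ℚ_[p]) = algebraMap ℚ ℂ := RingHom.ext_rat _ _
  induction h with
  | plane r f hf =>
    refine ⟨hf, fun c hc => ?_⟩
    refine FR_plane φ _ (scl_ne _ c hc (toP_ne ⟨Fin 2, Fin r, f⟩ hf)) _ fun T hT => ?_
    obtain ⟨b, hb0, hb, hm⟩ := hM.plane r f hf T hT
    refine ⟨b, hb0, ?_, hm⟩
    have h1 := functionalEq_scl (fun i => φ (c i)) (fun i => (map_ne_zero φ).2 (hc i)) _ b hb
    have h2 : (fun j => map φ (scl c (FamQ.toP p ⟨Fin 2, Fin r, f⟩) j)) =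
        fun j => sclC (fun i => φ (c i)) (FamQ.toC ⟨Fin 2, Fin r, f⟩ j) := by
      funext j
      have h3 : (map φ).comp ((aeval (fun i => C (c i) * X i) :
          MvPolynomial (Fin 2) ℚ_[p] →ₐ[ℚ_[p]] MvPolynomial (Fin 2) ℚ_[p]) :
            MvPolynomial (Fin 2) ℚ_[p] →+* MvPolynomial (Fin 2) ℚ_[p]) =
          (sclC (fun i => φ (c i)) : MvPolynomial (Fin 2) ℂ →+* MvPolynomial (Fin 2) ℂ).comp
            (map φ) := by
        apply MvPolynomial.ringHom_ext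
        · intro a
          simp [sclC]
        · intro k
          simp [sclC]
      have h4 := congrArg (fun ψ : MvPolynomial (Fin 2) ℚ_[p] →+* MvPolynomial (Fin 2) ℂ =>
        ψ (FamQ.toP p ⟨Fin 2, Fin r, f⟩ j)) h3
      refine Eq.trans h4 ?_
      change sclC _ (map φ (map (algebraMap ℚ ℚ_[p]) (f j))) = sclC _ (map (algebraMap ℚ ℂ) (f j))
      rw [map_map, hφ]
    rw [h2]
    exact h1
  | free A g h =>
    have hne : ∃ j, A.f j ≠ 0 := by
      by_contra h0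
      push Not at h0
      have : ∑ j, g j * A.f j = 0 := Finset.sum_eq_zero fun j _ => by rw [h0, mul_zero]
      rw [this] at h
      exact zero_ne_one h
    refine ⟨hne, fun c hc => ?_⟩
    set g' : A.ι → MvPolynomial A.σ ℚ_[p] := scl c fun j => map (algebraMap ℚ ℚ_[p]) (g j) with hg'
    obtain ⟨B, hB⟩ := (isCompact_range (sz_cont g')).bddAbove
    have hBx : ∀ x, sz g' x ≤ B := fun x => hB ⟨x, rfl⟩
    have hι : Nonempty A.ι := ⟨hne.choose⟩
    have hcard : (0 : ℝ) < Fintype.card A.ι := by exact_mod_cast Fintype.card_pos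
    have hkey : ∀ x, 1 ≤ (Fintype.card A.ι : ℝ) * (sz g' x * sz (scl c (A.toP p)) x) := by
      intro x
      have h1 := congrArg (fun q => eval (fun i => inc p (x i))
        (aeval (fun i => C (c i) * X i : A.σ → MvPolynomial A.σ ℚ_[p])
          (map (algebraMap ℚ ℚ_[p]) q))) h
      simp only [map_sum, map_mul, map_one] at h1
      have h2 : ‖(1 : ℚ_[p])‖ ≤ ∑ j : A.ι, sz g' x * sz (scl c (A.toP p)) x := by
        rw [← h1]
        refine (norm_sum_le _ _).trans (Finset.sum_le_sum fun j _ => ?_)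
        rw [norm_mul]
        refine mul_le_mul ?_ ?_ (norm_nonneg _) (sz_nonneg _ _)
        · exact norm_le_pi_norm (fun j => eval (fun i => inc p (x i)) (g' j)) j
        · exact norm_le_pi_norm (fun j => eval (fun i => inc p (x i)) (scl c (A.toP p) j)) j
      rwa [norm_one, Finset.sum_const, Finset.card_univ, nsmul_eq_mul] at h2
    have hB0 : 0 < B := by
      have h1 := hkey 0
      have h2 := hBx 0
      by_contra hn
      have h3 : sz g' 0 = 0 := le_antisymm (h2.trans (not_lt.1 hn)) (sz_nonneg _ _)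
      rw [h3, zero_mul, mul_zero] at h1
      linarith
    refine FR_free _ _ ((Fintype.card A.ι : ℝ) * B)⁻¹ (inv_pos.2 (mul_pos hcard hB0)) fun x => ?_
    rw [inv_le_iff_one_le_mul₀ (mul_pos hcard hB0)]
    refine (hkey x).trans ?_
    have h4 : sz g' x * sz (scl c (A.toP p)) x ≤ B * sz (scl c (A.toP p)) x :=
      mul_le_mul_of_nonneg_right (hBx x) (sz_nonneg _ _)
    nlinarith [mul_le_mul_of_nonneg_left h4 hcard.le]
  | sum A B hA hB ihA ihB =>
    refine ⟨sum_ne A B ihA.1, fun c hc => ?_⟩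
    rw [toP_sum, scl_sumK]
    exact FR_sumK _ _ _ _ _ (hM.sum A B) (ihA.2 _ fun i => hc _) (ihB.2 _ fun i => hc _)
  | mul A B hA hB ihA ihB =>
    refine ⟨mul_ne A B ihA.1 ihB.1, fun c hc => ?_⟩
    rw [toP_mul, scl_mulK]
    refine (FR.mul (ihA.2 (fun i => c (Sum.inl i)) fun i => hc _)
      (ihB.2 (fun i => c (Sum.inr i)) fun i => hc _)
      (fun T hT => hM.mul A B T hT ihA.1 ihB.1)).congr fun s hs => ?_
    rw [FF_mulK]
  | equiv A B i k h hA ihA =>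
    refine ⟨equiv_ne A B i k h ihA.1, fun c hc => ?_⟩
    refine ((ihA.2 (fun a => c (i a)) fun a => hc _).mono fun T hT =>
      hM.equiv A B i k h T hT).congr fun s hs => ?_
    rw [FF_equiv i k (scl (fun a => c (i a)) (A.toP p)) (scl c (B.toP p)) (fun j => ?_) s]
    change aeval _ (map (algebraMap ℚ ℚ_[p]) (B.f (k j))) = _
    rw [h, map_rename]
    exact scl_rename (ι := A.ι) (κ := A.ι) i c _
  | cone n r d hd f hf e he h hs ih =>
    refine ⟨det_ne f e he, fun c hc => ?_⟩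
    obtain ⟨m, hm1, hm2⟩ := hM.cone n r d hd f hf e he hs
    refine FR_cone (FamQ.toP p ⟨Fin (n + 1), Fin r, f⟩) d hd (fun j => (hf j).map _) m _ hm2
      (fun i c' hc' => ?_) c hc
    have h1 := ((ih i).2 c' hc').mono (hm1 i)
    have h2 : FamQ.toP p ⟨Fin n, Fin r, fun j => dehQ i (f j)⟩ =
        fun j => dehK i (FamQ.toP p ⟨Fin (n + 1), Fin r, f⟩ j) := by
      funext j
      exact map_dehQ i (f j)
    rw [← h2]
    exact h1

/-- **The zeta functions of the ideals in the larger class.** -/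
theorem goodU_main {strict : Bool} {mlt : FamQ → ℂ → ℕ∞} (hM : IsMlt p strict mlt) (A : FamQ)
    (h : GoodU strict A) : (∃ j, A.f j ≠ 0) ∧ FR p (mlt A) (FF (A.toP p)) := by
  classical
  induction h with
  | base A h =>
    obtain ⟨h1, h2⟩ := good_main hM A h
    refine ⟨h1, ?_⟩
    have h3 := h2 (fun _ => 1) fun _ => one_ne_zero
    rwa [scl_one] at h3
  | sum A B hA hB ihA ihB =>
    refine ⟨sum_ne A B ihA.1, ?_⟩
    rw [toP_sum]
    exact FR_sumK _ _ _ _ _ (hM.sum A B) ihA.2 ihB.2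
  | mul A B hA hB ihA ihB =>
    refine ⟨mul_ne A B ihA.1 ihB.1, ?_⟩
    rw [toP_mul]
    refine (FR.mul ihA.2 ihB.2 (fun T hT => hM.mul A B T hT ihA.1 ihB.1)).congr fun s hs => ?_
    rw [FF_mulK]
  | univ A hA ihA =>
    refine ⟨univ_ne A ihA.1, ?_⟩
    rw [toP_univ]
    have hι : Nonempty A.ι := ⟨ihA.1.choose⟩
    exact FR_univK hι _ _ _ (fun T hT => hM.univ A T hT ihA.1) ihA.2
  | equiv A B i k h hA ihA =>
    refine ⟨equiv_ne A B i k h ihA.1, ?_⟩
    refine (ihA.2.mono fun T hT => hM.equiv A B i k h T hT).congr fun s hs => ?_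
    rw [FF_equiv i k (A.toP p) (B.toP p) (fun j => ?_) s]
    change map (algebraMap ℚ ℚ_[p]) (B.f (k j)) = _
    rw [h, map_rename]
    rfl

end Pool.Agent.Y230.PS
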