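import Pool.Agent.Y230.PS.ProdR2
import Pool.Agent.Y230.PS.Last
import Pool.Agent.W366.SI.I1

set_option autoImplicit false
set_option linter.unusedSectionVars false
set_option linter.unusedVariables false

/-! # The multiplicities of the roots and the orders of the poles -/

namespace Pool.Agent.Y230.PS

open Polynomial Pool.Agent.Y230.PT
open Pool.Agent.W574.SM Pool.Agent.W574.RO Pool.Agent.W574.CN Pool.Agent.W574.HS
open Pool.Agent.H628R4.TP

section FMmul

variable {σ τ ι κ : Type} [Fintype ι] [Fintype κ] [DecidableEq ι] [DecidableEq κ]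

theorem X_add_one : (X + 1 : ℂ[X]) = X - C (-1) := by
  rw [C_neg, sub_neg_eq_add, C_1]

theorem FMB_univ (f : ι → MvPolynomial σ ℂ) (hf : ∃ j, f j ≠ 0) (r : ℂ) (m : ℕ) (h : FM f r m) :
    FMB (univ f) r (m + if r = -1 then 1 else 0) := by
  classical
  intro b hb
  obtain ⟨b', rfl, hb'⟩ := Pool.Agent.Y230.HS.functionalEq_of_univ_strong f b hf hb
  have h1 := h b' hb'
  split_ifs with hr
  · rw [pow_succ']
    refine mul_dvd_mul ?_ h1
    rw [X_add_one, hr]
  · exact h1.mul_left _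

theorem Dp_succ (M : ℕ) : Dp (M + 1) = (X + 1) * ∏ j ∈ Finset.range M, (X - C (j : ℂ)) := by
  unfold Dp
  rw [Finset.prod_range_succ', mul_comm]
  congr 1
  · simp
  · refine Finset.prod_congr rfl fun j _ => ?_
    push_cast
    rw [C_add, C_1]
    ring

theorem not_dvd_prod (r : ℂ) (hr : ∀ N : ℕ, (N : ℂ) ≠ r) (M : ℕ) :
    ¬ (X - C r) ∣ ∏ j ∈ Finset.range M, (X - C (j : ℂ)) := by
  rw [dvd_iff_isRoot, IsRoot.def, eval_prod, Finset.prod_eq_zero_iff]
  rintro ⟨j, -, hj⟩
  rw [eval_sub, eval_X, eval_C, sub_eq_zero] at hj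
  exact hr j hj.symm

/-- **The multiplicities of the roots of a product of two ideals.** -/
theorem FM_mul [Finite σ] (f : ι → MvPolynomial σ ℂ) (g : κ → MvPolynomial τ ℂ)
    (hf : ∃ j, f j ≠ 0) (hg : ∃ k, g k ≠ 0) (r : ℂ) (hr : ∀ N : ℕ, (N : ℂ) ≠ r) (m n : ℕ)
    (h1 : FM f r m) (h2 : FM g r n) : FM (mulf f g) r (m + n) := by
  classical
  intro b hb
  obtain ⟨M, hM⟩ := restr f g _ (Pool.Agent.W366.SI.taskI1' (mulf f g) b hb)
  have hex : ∃ b : ℂ[X], b ≠ 0 ∧ IsBFunction (univ f) b := by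
    obtain ⟨b0, hb0, hfe⟩ := Pool.Agent.Y229.exists_fe f hf
    refine ⟨(X + 1) * b0, mul_ne_zero ?_ hb0, Pool.Agent.W366.SI.taskI1' f b0 hfe⟩
    rw [X_add_one]
    exact X_sub_C_ne_zero _
  have h3 := FMB_mul (univ f) (univ g) (univ_ne_zero f hf) (univ_ne_zero g hg) r hr hex _ _
    (FMB_univ f hf r m h1) (FMB_univ g hg r n h2)
  have h4 : (X - C r) ^ (m + (if r = -1 then 1 else 0) + (n + if r = -1 then 1 else 0)) ∣
      (X + 1) * b * Dp M := h3 _ hM
  have h5 : (X - C r) ^ (m + (if r = -1 then 1 else 0) + (n + if r = -1 then 1 else 0)) ∣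
      ((X + 1) * ((X + 1) * b)) * ∏ j ∈ Finset.range M, (X - C (j : ℂ)) := by
    obtain ⟨c, hc⟩ := Dp_dvd (Nat.le_succ M)
    have h6 : ((X + 1) * ((X + 1) * b)) * ∏ j ∈ Finset.range M, (X - C (j : ℂ)) =
        (X + 1) * b * Dp M * c := by
      rw [mul_assoc _ (Dp M), mul_comm (Dp M), ← hc, Nat.succ_eq_add_one, Dp_succ]
      ring
    rw [h6]
    exact h4.mul_right c
  have h6 := (prime_X_sub_C r).pow_dvd_of_dvd_mul_right _ (not_dvd_prod r hr M) h5
  by_cases hr1 : r = -1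
  · rw [if_pos hr1, X_add_one, ← hr1] at h6
    have h7 : m + 1 + (n + 1) = (m + n) + 1 + 1 := by ring
    rw [h7, pow_succ', pow_succ'] at h6
    have h8 := X_sub_C_ne_zero r
    exact (mul_dvd_mul_iff_left h8).1 ((mul_dvd_mul_iff_left h8).1 h6)
  · rw [if_neg hr1, add_zero, add_zero] at h6
    have h7 : ¬ (X - C r) ∣ (X + 1 : ℂ[X]) := by
      rw [dvd_iff_isRoot, IsRoot.def, eval_add, eval_X, eval_one]
      intro h
      exact hr1 (eq_neg_of_add_eq_zero_left h)
    exact (prime_X_sub_C r).pow_dvd_of_dvd_mul_left _ h7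
      ((prime_X_sub_C r).pow_dvd_of_dvd_mul_left _ h7 h6)

end FMmul

/-- the forced multiplicity of the root which belongs to `T` -/
noncomputable def mM (p : ℕ) (A : FamQ) (T : ℂ) : ℕ∞ :=
  open Classical in
  ⨆ k : {k : ℕ // FM A.toC ((rr p T : ℝ) : ℂ) k}, ((k : ℕ) : ℕ∞)

variable {p : ℕ} [Fact p.Prime]

theorem le_mM {A : FamQ} {T : ℂ} {a : ℕ} :
    (a : ℕ∞) ≤ mM p A T ↔ open Classical in FM A.toC ((rr p T : ℝ) : ℂ) a := by
  classical
  constructor
  · intro h
    by_contra hn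
    have ha : a ≠ 0 := by
      rintro rfl
      exact hn fun b _ => by rw [pow_zero]; exact one_dvd _
    have h1 : mM p A T ≤ ((a - 1 : ℕ) : ℕ∞) := by
      refine iSup_le fun k => ?_
      have : (k : ℕ) < a := by
        by_contra hk
        exact hn (FM.mono k.2 (not_lt.1 hk))
      exact_mod_cast Nat.le_sub_one_of_lt this
    have h2 : a ≤ a - 1 := by exact_mod_cast h.trans h1
    omega
  · intro h
    exact le_iSup (fun k : {k : ℕ // FM A.toC ((rr p T : ℝ) : ℂ) k} => ((k : ℕ) : ℕ∞)) ⟨a, h⟩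

theorem mM_nat (A : FamQ) (T : ℂ) (hA : ∃ j, A.f j ≠ 0) : ∃ a : ℕ, mM p A T = a := by
  classical
  obtain ⟨b0, hb0, hfe⟩ := Pool.Agent.Y229.exists_fe A.toC (toC_ne A hA)
  have h1 : mM p A T ≤ (b0.natDegree : ℕ∞) := by
    refine iSup_le fun k => ?_
    have h2 := k.2 b0 hfe
    have h3 := natDegree_le_of_dvd h2 hb0
    rw [natDegree_pow, natDegree_X_sub_C, mul_one] at h3
    exact_mod_cast h3
  exact ⟨(mM p A T).toNat, (ENat.coe_toNat (ne_top_of_le_ne_top (ENat.coe_ne_top _) h1)).symm⟩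

theorem rr_ne (T : ℂ) (hT : 1 < ‖T‖) (N : ℕ) : (N : ℂ) ≠ ((rr p T : ℝ) : ℂ) := by
  intro h
  have h1 := rr_neg (p := p) T hT
  have h2 : (N : ℝ) = rr p T := by exact_mod_cast h
  have h3 : (0 : ℝ) ≤ N := Nat.cast_nonneg N
  linarith

theorem isMlt_M : IsMlt p true (mM p) where
  plane := by
    classical
    intro r f hf T hT
    obtain ⟨b0, hb0, hfe⟩ := Pool.Agent.Y229.exists_fe (FamQ.toC ⟨Fin 2, Fin r, f⟩)
      (toC_ne ⟨Fin 2, Fin r, f⟩ hf)
    have hex : ∃ k, ∃ b : ℂ[X], b ≠ 0 ∧ IsFunctionalEq (FamQ.toC ⟨Fin 2, Fin r, f⟩) b ∧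
        b.rootMultiplicity ((rr p T : ℝ) : ℂ) = k := ⟨_, b0, hb0, hfe, rfl⟩
    obtain ⟨b, hb, hbe, hk⟩ := Nat.find_spec hex
    refine ⟨b, hb, hbe, ?_⟩
    rw [hk, le_mM]
    intro b' hb'
    by_cases h0 : b' = 0
    · rw [h0]
      exact dvd_zero _
    · rw [← le_rootMultiplicity_iff h0]
      exact Nat.find_min' hex ⟨b', h0, hb', rfl⟩
  sum := by
    classical
    intro A B T1 T2 h1 h2 a b ha hb hA hB
    rw [le_mM] at hA hB ⊢
    rw [toC_sum, rr_mul T1 T2 h1 h2, Complex.ofReal_add]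
    intro b' hb'
    refine FM_sum A.toC B.toC _ _ a b ha hb ?_ ?_ b' ?_
    · intro b1 hb1
      exact hA b1 hb1
    · intro b1 hb1
      exact hB b1 hb1
    · exact hb'
  mul := by
    classical
    intro A B T hT hA hB
    obtain ⟨a, ha⟩ := mM_nat (p := p) A T hA
    obtain ⟨b, hb⟩ := mM_nat (p := p) B T hB
    have h1 := le_mM.1 (le_of_eq ha.symm)
    have h2 := le_mM.1 (le_of_eq hb.symm)
    rw [ha, hb, ← Nat.cast_add, le_mM, toC_mul]
    intro b' hb'
    exact FM_mul A.toC B.toC (toC_ne A hA) (toC_ne B hB) _ (rr_ne T hT) a b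
      (fun b1 hb1 => h1 b1 hb1) (fun b1 hb1 => h2 b1 hb1) b' hb'
  equiv := by
    classical
    intro A B i k h T hT
    refine iSup_le fun j => ?_
    rw [le_mM]
    intro b hb
    exact j.2 b (functionalEq_equiv i k _ _ (toC_equiv A B i k h) b hb)
  univ := by
    classical
    intro A T hT hA
    obtain ⟨a, ha⟩ := mM_nat (p := p) A T hA
    have h1 := le_mM.1 (le_of_eq ha.symm)
    have h2 : mM p A T + (if T = (p : ℂ) then 1 else 0) =
        ((a + if T = (p : ℂ) then 1 else 0 : ℕ) : ℕ∞) := by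
      rw [ha]
      split_ifs <;> simp
    rw [h2, le_mM]
    intro b hb
    obtain ⟨b', e, hb'⟩ := forced_univ A hA b hb
    have h3 := h1 b' hb'
    rw [e]
    split_ifs with hp
    · rw [pow_succ']
      refine mul_dvd_mul ?_ h3
      rw [X_add_one, hp, rr_self]
      push_cast
      exact dvd_rfl
    · exact h3.mul_left _
  cone := by
    classical
    intro n r d hd f hf e he hs
    have hs' := hs rfl
    refine ⟨fun T => if ((rr p T : ℝ) : ℂ) = -((n : ℂ) + 1) / d then 0 else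
      mM p ⟨Fin (n + 1), Fin r, f⟩ T, fun i T hT => ?_, fun T hT => ?_⟩
    · beta_reduce
      split_ifs with hc
      · refine iSup_le fun k => ?_
        obtain ⟨b, hb, hbe⟩ := hs' i
        have h1 := k.2 b hb
        have hk : (k : ℕ) = 0 := by
          by_contra hk
          apply hbe
          have h2 := (dvd_pow_self (X - C ((rr p T : ℝ) : ℂ)) hk).trans h1
          have h3 : b.eval ((rr p T : ℝ) : ℂ) = 0 := dvd_iff_isRoot.1 h2
          rwa [hc] at h3
        rw [hk]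
        exact le_rfl
      · refine iSup_le fun k => ?_
        rw [le_mM]
        intro b hb
        apply k.2 b
        have h3 := functionalEq_deh i (FamQ.toC ⟨Fin (n + 1), Fin r, f⟩) d
          (fun j => (hf j).map _) b hb
        have h4 : FamQ.toC ⟨Fin n, Fin r, fun j => dehQ i (f j)⟩ =
            fun j => deh i (FamQ.toC ⟨Fin (n + 1), Fin r, f⟩ j) := by
          funext j
          exact map_dehC i (f j)
        rw [h4]
        exact h3
    · beta_reduce
      by_cases hT1 : T ^ d = (p : ℂ) ^ (n + 1)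
      · rw [if_pos hT1, if_pos (rr_cone n d hd T hT1), add_zero]
        have h1 : ((1 : ℕ) : ℕ∞) ≤ mM p ⟨Fin (n + 1), Fin r, f⟩ T := by
          rw [le_mM]
          intro b hb
          rw [pow_one, dvd_iff_isRoot, IsRoot.def, rr_cone n d hd T hT1]
          exact generic_root (FamQ.toC ⟨Fin (n + 1), Fin r, f⟩) d hd (fun j => (hf j).map _) b hb e
            (det_map f e he)
        exact_mod_cast h1
      · rw [if_neg hT1, zero_add]
        split_ifs
        · exact bot_le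
        · exact le_rfl

/-- the multiplicities of the denominator are multiplicities of the roots -/
theorem mult_of_tr {V : Type} [Fintype V] (F : MvPolynomial V ℚ) (b : ℂ[X]) (hb0 : b ≠ 0)
    (hb : IsBFunction (MvPolynomial.map (algebraMap ℚ ℂ) F) b) (T : ℂ) (n : ℕ)
    (h : (n : ℕ∞) ≤ tr (mM p (hyp F)) T) : n ≤ b.rootMultiplicity ((rr p T : ℝ) : ℂ) := by
  classical
  unfold tr at h
  split_ifs at h with h1
  · have : n = 0 := by exact_mod_cast le_antisymm h bot_le
    rw [this]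
    exact Nat.zero_le _
  · rw [le_rootMultiplicity_iff hb0]
    exact (le_mM.1 h) b (single_of_isB _ b hb)

/-- **The orders of the poles are at most the multiplicities of the roots.** -/
theorem mero_MZ {V : Type} [Fintype V] (F : MvPolynomial V ℤ)
    (hF : GoodU true (hyp (MvPolynomial.map (Int.castRingHom ℚ) F)))
    (b : ℂ[X]) (hb0 : b ≠ 0) (hb : IsBFunction (MvPolynomial.map (Int.castRingHom ℂ) F) b)
    (Z : ℂ → ℂ) (hZ : MeromorphicOn Z Set.univ)
    (hZp : ∀ s : ℂ, 0 < s.re → Z s = Pool.Agent.W427.SMC.igusaZeta p F s) (s₀ : ℂ) :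
    ((-(b.rootMultiplicity (s₀.re : ℂ) : ℤ) : ℤ) : WithTop ℤ) ≤ meromorphicOrderAt Z s₀ := by
  obtain ⟨D, P, hD0, h1, h2⟩ := core_Z (p := p) isMlt_M F hF
  have h3 := Pool.Agent.W427.SMC.mero_bound p D P hD0 Z hZ (fun s hs => by
    rw [Pool.Agent.W427.SMC.pw_real, hZp s (by simpa using hs),
      Pool.Agent.W427.SMC.igusaZeta_eq, h1 s hs.le]) s₀
  refine le_trans ?_ h3
  have h4 := mult_of_tr (p := p) (MvPolynomial.map (Int.castRingHom ℚ) F) b hb0 (by
    rw [MvPolynomial.map_map]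
    exact hb) _ _ (h2 (Pool.Agent.W427.SMC.pw p s₀) (Pool.Agent.W427.SMC.pw_ne_zero p s₀))
  have h5 : rr p (Pool.Agent.W427.SMC.pw p s₀) = s₀.re := Pool.Agent.W427.SMC.pw_norm p s₀
  rw [h5] at h4
  exact_mod_cast neg_le_neg (Int.ofNat_le.2 h4)

end Pool.Agent.Y230.PS
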