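import Pool.Agent.W574.RO.Prod
import Pool.Agent.H628R4.TP.Defs

set_option autoImplicit false
set_option linter.unusedSectionVars false
set_option linter.unusedVariables false

/-! # The multiplicities of the roots for a product of two polynomials in disjoint variables -/

namespace Pool.Agent.Y230.PS

open Polynomial Pool.Agent.W574.SM Pool.Agent.W574.HS Pool.Agent.W574.RO
open Pool.Agent.H628R4.TP

section Sq

variable {S : Type}

/-- the sequences `P(s) A ^ (s + 1)` -/
noncomputable def Sq (A : MvPolynomial S ℂ) : Submodule ℂ (ℕ → MvPolynomial S ℂ) :=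
  Submodule.span ℂ {v | ∃ (m : ℕ) (Q : weylS S), v = fun s : ℕ =>
    ((s : ℂ) ^ m) • (Q : Module.End ℂ (MvPolynomial S ℂ)) (A ^ (s + 1))}

theorem Sq_mem (A : MvPolynomial S ℂ) (m : ℕ) (Q : weylS S) : (fun s : ℕ =>
    ((s : ℂ) ^ m) • (Q : Module.End ℂ (MvPolynomial S ℂ)) (A ^ (s + 1))) ∈ Sq A :=
  Submodule.subset_span ⟨m, Q, rfl⟩

theorem Sq_mem0 (A : MvPolynomial S ℂ) (Q : weylS S) : (fun s : ℕ =>
    (Q : Module.End ℂ (MvPolynomial S ℂ)) (A ^ (s + 1))) ∈ Sq A := by
  have h := Sq_mem A 0 Q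
  simpa only [pow_zero, one_smul] using h

theorem Sq_exists {A : MvPolynomial S ℂ} {v : ℕ → MvPolynomial S ℂ} (hv : v ∈ Sq A) :
    ∃ P : ℕ →₀ weylS S, ∀ s : ℕ, v s = P.sum fun m Q =>
      ((s : ℂ) ^ m) • (Q : Module.End ℂ (MvPolynomial S ℂ)) (A ^ (s + 1)) := by
  classical
  induction hv using Submodule.span_induction with
  | mem v h =>
    obtain ⟨m, Q, rfl⟩ := h
    refine ⟨Finsupp.single m Q, fun s => ?_⟩
    rw [Finsupp.sum_single_index]
    rw [ZeroMemClass.coe_zero, LinearMap.zero_apply, smul_zero]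
  | zero => exact ⟨0, fun s => by rw [Finsupp.sum_zero_index]; rfl⟩
  | add v w _ _ hv hw =>
    obtain ⟨P, hP⟩ := hv
    obtain ⟨P', hP'⟩ := hw
    refine ⟨P + P', fun s => ?_⟩
    rw [Pi.add_apply, hP, hP', Finsupp.sum_add_index']
    · intro a
      rw [ZeroMemClass.coe_zero, LinearMap.zero_apply, smul_zero]
    · intro a Q Q'
      rw [← smul_add]
      rfl
  | smul r v _ hv =>
    obtain ⟨P, hP⟩ := hv
    refine ⟨r • P, fun s => ?_⟩
    rw [Pi.smul_apply, hP, Finsupp.sum_smul_index', Finsupp.smul_sum]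
    · refine Finset.sum_congr rfl fun m _ => ?_
      exact smul_comm r ((s : ℂ) ^ m) ((P m : Module.End ℂ (MvPolynomial S ℂ)) (A ^ (s + 1)))
    · intro a
      rw [ZeroMemClass.coe_zero, LinearMap.zero_apply, smul_zero]

theorem isB_iff (A : MvPolynomial S ℂ) (b : ℂ[X]) : IsBFunction A b ↔
    (fun s : ℕ => MvPolynomial.C (b.eval (s : ℂ)) * A ^ s) ∈ Sq A := by
  constructor
  · rintro ⟨P, hP⟩
    have : (fun s : ℕ => MvPolynomial.C (b.eval (s : ℂ)) * A ^ s) = ∑ m ∈ P.support,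
        fun s : ℕ => ((s : ℂ) ^ m) • (P m : Module.End ℂ (MvPolynomial S ℂ)) (A ^ (s + 1)) := by
      funext s
      rw [hP s, Finset.sum_apply]
      rfl
    rw [this]
    exact Submodule.sum_mem _ fun m _ => Sq_mem A m (P m)
  · intro h
    obtain ⟨P, hP⟩ := Sq_exists h
    exact ⟨P, hP⟩

theorem Sq_weyl {A : MvPolynomial S ℂ} (Q : weylS S) {v : ℕ → MvPolynomial S ℂ} (hv : v ∈ Sq A) :
    (fun s => (Q : Module.End ℂ (MvPolynomial S ℂ)) (v s)) ∈ Sq A := by
  induction hv using Submodule.span_induction with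
  | mem v h =>
    obtain ⟨m, Q', rfl⟩ := h
    have := Sq_mem A m (Q * Q')
    refine (congrArg (fun w => w ∈ Sq A) (funext fun s => ?_)).mp this
    rw [map_smul]
    rfl
  | zero =>
    refine (congrArg (fun w => w ∈ Sq A) (funext fun s => ?_)).mp (Sq A).zero_mem
    rw [Pi.zero_apply, map_zero]
  | add v w _ _ hv hw =>
    refine (congrArg (fun w => w ∈ Sq A) (funext fun s => ?_)).mp ((Sq A).add_mem hv hw)
    rw [Pi.add_apply, Pi.add_apply, map_add]
  | smul r v _ hv =>
    refine (congrArg (fun w => w ∈ Sq A) (funext fun s => ?_)).mp ((Sq A).smul_mem r hv)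
    rw [Pi.smul_apply, Pi.smul_apply, map_smul]

theorem Sq_pow {A : MvPolynomial S ℂ} (k : ℕ) {v : ℕ → MvPolynomial S ℂ} (hv : v ∈ Sq A) :
    (fun s : ℕ => ((s : ℂ) ^ k) • v s) ∈ Sq A := by
  induction hv using Submodule.span_induction with
  | mem v h =>
    obtain ⟨m, Q', rfl⟩ := h
    have := Sq_mem A (k + m) Q'
    refine (congrArg (fun w => w ∈ Sq A) (funext fun s => ?_)).mp this
    rw [pow_add, mul_smul]
  | zero =>
    refine (congrArg (fun w => w ∈ Sq A) (funext fun s => ?_)).mp (Sq A).zero_mem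
    rw [Pi.zero_apply, smul_zero]
  | add v w _ _ hv hw =>
    refine (congrArg (fun w => w ∈ Sq A) (funext fun s => ?_)).mp ((Sq A).add_mem hv hw)
    rw [Pi.add_apply, Pi.add_apply, smul_add]
  | smul r v _ hv =>
    refine (congrArg (fun w => w ∈ Sq A) (funext fun s => ?_)).mp ((Sq A).smul_mem r hv)
    rw [Pi.smul_apply, Pi.smul_apply, smul_comm]

theorem Sq_poly {A : MvPolynomial S ℂ} (c : ℂ[X]) {v : ℕ → MvPolynomial S ℂ} (hv : v ∈ Sq A) :
    (fun s : ℕ => (c.eval (s : ℂ)) • v s) ∈ Sq A := by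
  have : (fun s : ℕ => (c.eval (s : ℂ)) • v s) = ∑ k ∈ c.support,
      c.coeff k • fun s : ℕ => ((s : ℂ) ^ k) • v s := by
    funext s
    rw [Finset.sum_apply, eval_eq_sum, Polynomial.sum, Finset.sum_smul]
    refine Finset.sum_congr rfl fun k _ => ?_
    rw [Pi.smul_apply, mul_smul]
  rw [this]
  exact Submodule.sum_mem _ fun k _ => Submodule.smul_mem _ _ (Sq_pow k hv)

end Sq

/-- coordinates of the span of finitely many vectors of a torsion-free module over `ℂ[X]` -/
theorem exists_coord {M : Type} [AddCommGroup M] [Module ℂ[X] M] [Module.IsTorsionFree ℂ[X] M]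
    {L : Type} [Fintype L] (w : L → M) (o : L) (r : ℂ)
    (h : ∀ c : L → ℂ[X], w o ≠ (X - C r) • ∑ l, c l • w l) :
    ∃ ρ : L → ℂ[X], (ρ o).eval r ≠ 0 ∧
      ∀ c : L → ℂ[X], ∑ l, c l • w l = 0 → ∑ l, c l * ρ l = 0 := by
  classical
  set N := Submodule.span ℂ[X] (Set.range w) with hN
  have hfin : Module.Finite ℂ[X] N := Module.Finite.span_of_finite _ (Set.finite_range w)
  have hfree : Module.Free ℂ[X] N := Module.free_of_finite_type_torsion_free'
  set B := Module.Free.chooseBasis ℂ[X] N with hB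
  have hw : ∀ l, w l ∈ N := fun l => Submodule.subset_span ⟨l, rfl⟩
  by_cases hall : ∀ i, (X - C r) ∣ B.repr ⟨w o, hw o⟩ i
  · exfalso
    choose d hd using hall
    have e : (⟨w o, hw o⟩ : N) = (X - C r) • ∑ i, d i • B i := by
      conv_lhs => rw [← B.sum_repr ⟨w o, hw o⟩]
      rw [Finset.smul_sum]
      refine Finset.sum_congr rfl fun i _ => ?_
      rw [hd, mul_smul]
    obtain ⟨c, hc⟩ := (Submodule.mem_span_range_iff_exists_fun ℂ[X]).1 (∑ i, d i • B i : N).2
    refine h c ?_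
    rw [hc]
    exact congrArg Subtype.val e
  · push Not at hall
    obtain ⟨i, hi⟩ := hall
    refine ⟨fun l => B.coord i ⟨w l, hw l⟩, ?_, fun c hc => ?_⟩
    · rw [Ne, ← IsRoot.def, ← dvd_iff_isRoot]
      exact hi
    · have h1 : ∑ l, c l • (⟨w l, hw l⟩ : N) = 0 := by
        apply Subtype.ext
        refine Eq.trans ?_ hc
        rw [Submodule.coe_sum]
        rfl
      have h2 := congrArg (fun z => B.coord i z) h1
      simp only [map_sum, map_smul, map_zero, smul_eq_mul] at h2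
      exact h2

section Ev

variable {σ : Type}

/-- the value at `X = N` -/
noncomputable def evX (N : ℕ) : MvPolynomial σ ℂ[X] →+* MvPolynomial σ ℂ :=
  MvPolynomial.map (evalRingHom (N : ℂ))

theorem coeff_evX (N : ℕ) (w : MvPolynomial σ ℂ[X]) (m : σ →₀ ℕ) :
    MvPolynomial.coeff m (evX N w) = (MvPolynomial.coeff m w).eval (N : ℂ) := by
  unfold evX
  rw [MvPolynomial.coeff_map]
  rfl

/-- polynomials in one more variable -/
noncomputable def toM (ρ : Polynomial (MvPolynomial σ ℂ)) : MvPolynomial σ ℂ[X] :=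
  ρ.eval₂ (MvPolynomial.map C) (MvPolynomial.C X)

theorem evX_map (N : ℕ) (q : MvPolynomial σ ℂ) : evX N (MvPolynomial.map C q) = q := by
  unfold evX
  rw [MvPolynomial.map_map]
  have : (evalRingHom (N : ℂ)).comp C = RingHom.id ℂ := by
    ext a
    simp
  rw [this, MvPolynomial.map_id]

theorem evX_toM (N : ℕ) (ρ : Polynomial (MvPolynomial σ ℂ)) :
    evX N (toM ρ) = ρ.eval (N : MvPolynomial σ ℂ) := by
  unfold toM
  rw [hom_eval₂]
  have h1 : (evX N : MvPolynomial σ ℂ[X] →+* MvPolynomial σ ℂ).comp (MvPolynomial.map C) =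
      RingHom.id _ := RingHom.ext fun q => evX_map N q
  have h2 : evX N (MvPolynomial.C X : MvPolynomial σ ℂ[X]) = (N : MvPolynomial σ ℂ) := by
    unfold evX
    rw [MvPolynomial.map_C, coe_evalRingHom, eval_X, map_natCast]
  rw [h1, h2]
  rfl

theorem evX_smul (N : ℕ) (c : ℂ[X]) (w : MvPolynomial σ ℂ[X]) :
    evX N (c • w) = c.eval (N : ℂ) • evX N w := by
  ext m
  rw [coeff_evX, MvPolynomial.coeff_smul, MvPolynomial.coeff_smul, coeff_evX, smul_eq_mul,
    smul_eq_mul, eval_mul]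

/-- the representation of the operators -/
theorem rep_ops (F : MvPolynomial σ ℂ) {L : Type} [Fintype L] (Q : L → weyl σ) :
    ∃ (K : ℕ) (w : L → MvPolynomial σ ℂ[X]), ∀ l (N : ℕ),
      F ^ K * (Q l : Module.End ℂ (MvPolynomial σ ℂ)) (F ^ (N + 1)) = evX N (w l) * F ^ N := by
  classical
  have h : ∀ l, Fr F (fun N => (Q l : Module.End ℂ (MvPolynomial σ ℂ)) (F ^ (N + 1))) :=
    fun l => fr_weyl (G := F) (Q l).1 (Q l).2 (fun N => F ^ (N + 1))
      ⟨0, Polynomial.C F, fun N => by rw [eval_C]; ring⟩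
  choose k ρ hρ using h
  refine ⟨∑ l, k l, fun l => toM (C (F ^ (∑ l', k l' - k l)) * ρ l), fun l N => ?_⟩
  have h1 : k l ≤ ∑ l', k l' := Finset.single_le_sum (fun _ _ => Nat.zero_le _) (Finset.mem_univ l)
  have h2 : F ^ (∑ l', k l') = F ^ (∑ l', k l' - k l) * F ^ k l := by
    rw [← pow_add, Nat.sub_add_cancel h1]
  rw [evX_toM, eval_mul, eval_C, h2, mul_assoc, hρ l N, mul_assoc]

end Ev

section Main

variable {σ τ : Type}

/-- `r` is a root of multiplicity at least `m` of all `b` with `b(s) F ^ s = P(s) F ^ (s + 1)` -/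
def FMB (F : MvPolynomial σ ℂ) (r : ℂ) (m : ℕ) : Prop :=
  ∀ b : ℂ[X], IsBFunction F b → (X - C r) ^ m ∣ b

theorem exists_max (F : MvPolynomial σ ℂ) (r : ℂ) (hb : ∃ b : ℂ[X], b ≠ 0 ∧ IsBFunction F b)
    (m : ℕ) (h1 : FMB F r m) : ∃ m0, m ≤ m0 ∧ FMB F r m0 ∧
      ∃ bF : ℂ[X], IsBFunction F bF ∧ ¬ (X - C r) ^ (m0 + 1) ∣ bF := by
  by_contra hne
  push Not at hne
  have h2 : ∀ k, m ≤ k → FMB F r k := by
    intro k hk
    induction k, hk using Nat.le_induction with
    | base => exact h1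
    | succ k hk ih => exact fun b hb => hne k hk ih b hb
  obtain ⟨b, hb0, hb⟩ := hb
  have h3 := h2 (m + (b.natDegree + 1)) (Nat.le_add_right _ _) b hb
  have h4 := natDegree_le_of_dvd h3 hb0
  rw [natDegree_pow, natDegree_X_sub_C] at h4
  omega

theorem split_form (F : MvPolynomial σ ℂ) (E : MvPolynomial τ ℂ) (b : ℂ[X])
    (h : IsBFunction (MvPolynomial.rename Sum.inl F * MvPolynomial.rename Sum.inr E :
      MvPolynomial (σ ⊕ τ) ℂ) b) :
    ∃ (L : Type) (_ : Fintype L) (e : L → ℕ) (Q : L → weyl σ) (Q' : L → weyl τ), ∀ N : ℕ,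
      (b.eval (N : ℂ)) • (MvPolynomial.rename Sum.inl (F ^ N) *
        MvPolynomial.rename Sum.inr (E ^ N) : MvPolynomial (σ ⊕ τ) ℂ) =
      ∑ l, ((N : ℂ) ^ e l) •
        (MvPolynomial.rename Sum.inl ((Q l : Module.End ℂ (MvPolynomial σ ℂ)) (F ^ (N + 1))) *
        MvPolynomial.rename Sum.inr ((Q' l : Module.End ℂ (MvPolynomial τ ℂ)) (E ^ (N + 1)))) := by
  classical
  obtain ⟨P, hP⟩ := h
  choose k Q Q' hQ using fun m : P.support => weyl_splits (P m).1 (P m).2
  refine ⟨Σ m : P.support, Fin (k m), inferInstance, fun l => l.1, fun l => Q l.1 l.2,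
    fun l => Q' l.1 l.2, fun N => ?_⟩
  have h1 := hP N
  rw [mul_pow, ← map_pow, ← map_pow, MvPolynomial.C_mul', mul_pow, ← map_pow, ← map_pow] at h1
  rw [h1, Finsupp.sum, Fintype.sum_sigma, ← Finset.sum_coe_sort]
  refine Finset.sum_congr rfl fun m _ => ?_
  rw [hQ m (F ^ (N + 1)) (E ^ (N + 1)), Finset.smul_sum]

/-- **The multiplicities of the roots of a product in disjoint variables.** -/
theorem FMB_mul (F : MvPolynomial σ ℂ) (E : MvPolynomial τ ℂ) (hF : F ≠ 0) (hE : E ≠ 0) (r : ℂ)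
    (hr : ∀ N : ℕ, (N : ℂ) ≠ r) (hb : ∃ b : ℂ[X], b ≠ 0 ∧ IsBFunction F b) (m n : ℕ)
    (h1 : FMB F r m) (h2 : FMB E r n) :
    FMB (MvPolynomial.rename Sum.inl F * MvPolynomial.rename Sum.inr E :
      MvPolynomial (σ ⊕ τ) ℂ) r (m + n) := by
  classical
  intro b hbb
  obtain ⟨m0, hm, hm0, bF, hbF, hnd⟩ := exists_max F r hb m h1
  have hbF0 : bF ≠ 0 := fun h0 => hnd (by rw [h0]; exact dvd_zero _)
  obtain ⟨L, _, e, Q, Q', hQ⟩ := split_form F E b hbb
  obtain ⟨K, w, hw⟩ := rep_ops F Q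
  obtain ⟨K', v, hv⟩ := rep_ops E Q'
  -- the identity without `F ^ N` and `E ^ N`
  have key : ∀ N : ℕ, (b.eval (N : ℂ)) • (MvPolynomial.rename Sum.inl (F ^ K) *
      MvPolynomial.rename Sum.inr (E ^ K') : MvPolynomial (σ ⊕ τ) ℂ) =
      ∑ l, ((N : ℂ) ^ e l) • (MvPolynomial.rename Sum.inl (evX N (w l)) *
        MvPolynomial.rename Sum.inr (evX N (v l))) := by
    intro N
    have hF' : (MvPolynomial.rename Sum.inl (F ^ N) : MvPolynomial (σ ⊕ τ) ℂ) ≠ 0 := by
      rw [Ne, map_eq_zero_iff _ (MvPolynomial.rename_injective _ Sum.inl_injective)]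
      exact pow_ne_zero _ hF
    have hE' : (MvPolynomial.rename Sum.inr (E ^ N) : MvPolynomial (σ ⊕ τ) ℂ) ≠ 0 := by
      rw [Ne, map_eq_zero_iff _ (MvPolynomial.rename_injective _ Sum.inr_injective)]
      exact pow_ne_zero _ hE
    apply mul_right_cancel₀ (mul_ne_zero hF' hE')
    have h3 := congrArg (fun z => MvPolynomial.rename Sum.inl (F ^ K) *
      MvPolynomial.rename Sum.inr (E ^ K') * z) (hQ N)
    rw [smul_mul_assoc, ← mul_smul_comm, h3, Finset.mul_sum, Finset.sum_mul]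
    refine Finset.sum_congr rfl fun l _ => ?_
    rw [mul_smul_comm, smul_mul_assoc]
    congr 1
    have e1 := congrArg (MvPolynomial.rename (Sum.inl : σ → σ ⊕ τ)) (hw l N)
    have e2 := congrArg (MvPolynomial.rename (Sum.inr : τ → σ ⊕ τ)) (hv l N)
    rw [map_mul, map_mul] at e1 e2
    calc _ = (MvPolynomial.rename Sum.inl (F ^ K) * MvPolynomial.rename Sum.inl
          ((Q l : Module.End ℂ (MvPolynomial σ ℂ)) (F ^ (N + 1)))) *
          (MvPolynomial.rename Sum.inr (E ^ K') * MvPolynomial.rename Sum.inr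
          ((Q' l : Module.End ℂ (MvPolynomial τ ℂ)) (E ^ (N + 1)))) := by ring
      _ = _ := by rw [e1, e2]; ring
  -- the coefficients
  have hcoef : ∀ (a : σ →₀ ℕ) (k : τ →₀ ℕ), b * C (MvPolynomial.coeff a (F ^ K) *
      MvPolynomial.coeff k (E ^ K')) = ∑ l, X ^ e l * (MvPolynomial.coeff a (w l) *
        MvPolynomial.coeff k (v l)) := by
    intro a k
    apply eq_of_infinite_eval_eq
    refine Set.Infinite.mono (s := Set.range (fun N : ℕ => (N : ℂ))) ?_
      (Set.infinite_range_of_injective Nat.cast_injective)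
    rintro _ ⟨N, rfl⟩
    have h3 := congrArg (fun z => MvPolynomial.coeff k (cof a z)) (key N)
    simp only [map_smul, map_sum, cof_mul, MvPolynomial.coeff_smul, MvPolynomial.coeff_sum,
      coeff_evX, smul_eq_mul] at h3
    change eval (N : ℂ) _ = eval (N : ℂ) _
    rw [eval_mul, eval_C, h3, eval_finsetSum]
    refine Finset.sum_congr rfl fun l _ => ?_
    rw [eval_mul, eval_mul, eval_pow, eval_X]
  obtain ⟨a0, ha0⟩ : ∃ a, MvPolynomial.coeff a (F ^ K) ≠ 0 :=
    MvPolynomial.ne_zero_iff.1 (pow_ne_zero K hF)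
  obtain ⟨k0, hk0⟩ : ∃ k, MvPolynomial.coeff k (E ^ K') ≠ 0 :=
    MvPolynomial.ne_zero_iff.1 (pow_ne_zero K' hE)
  -- the vectors
  set W : Option L → MvPolynomial σ ℂ[X] := fun o =>
    Option.elim o (bF • MvPolynomial.map C (F ^ K)) w with hW
  have hmin : ∀ c : Option L → ℂ[X], W none ≠ (X - C r) • ∑ o, c o • W o := by
    intro c hc
    have hc' : bF • MvPolynomial.map C (F ^ K) = (X - C r) • (c none • (bF •
        (MvPolynomial.map C (F ^ K) : MvPolynomial σ ℂ[X])) + ∑ l, c (some l) • w l) := by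
      rw [Fintype.sum_option] at hc
      exact hc
    -- the polynomial `bF` is divisible
    have hdiv : (X - C r) ∣ bF := by
      have h3 := congrArg (MvPolynomial.coeff a0) hc'
      rw [MvPolynomial.coeff_smul, MvPolynomial.coeff_smul, MvPolynomial.coeff_map, smul_eq_mul,
        smul_eq_mul] at h3
      have h4 : (X - C r) ∣ bF * C (MvPolynomial.coeff a0 (F ^ K)) := ⟨_, h3⟩
      have h5 : IsUnit (C (MvPolynomial.coeff a0 (F ^ K)) : ℂ[X]) :=
        isUnit_C.2 (isUnit_iff_ne_zero.2 ha0)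
      exact (IsUnit.dvd_mul_right h5).1 h4
    obtain ⟨b', hb'⟩ := hdiv
    have hB : IsBFunction F b' := by
      rw [isB_iff]
      have hmem : (fun N : ℕ => (c none).eval (N : ℂ) •
          (MvPolynomial.C (bF.eval (N : ℂ)) * F ^ N)) + ∑ l, (fun N : ℕ =>
          (c (some l)).eval (N : ℂ) • (Q l : Module.End ℂ (MvPolynomial σ ℂ)) (F ^ (N + 1))) ∈
          Sq F := by
        refine Submodule.add_mem _ (Sq_poly (c none) ((isB_iff F bF).1 hbF))
          (Submodule.sum_mem _ fun l _ => Sq_poly _ (Sq_mem0 F ⟨(Q l).1, (Q l).2⟩))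
      refine (congrArg (fun z => z ∈ Sq F) (funext fun N => ?_)).mp hmem
      rw [Pi.add_apply, Finset.sum_apply]
      apply mul_left_cancel₀ (pow_ne_zero K hF)
      have h3 := congrArg (evX N) hc'
      rw [evX_smul, evX_smul, map_add, evX_smul, evX_smul, evX_map, map_sum] at h3
      have hr' : ((X - C r : ℂ[X]).eval (N : ℂ)) ≠ 0 := by
        rw [eval_sub, eval_X, eval_C]
        exact sub_ne_zero.2 (hr N)
      have hβ : bF.eval (N : ℂ) = (X - C r : ℂ[X]).eval (N : ℂ) * b'.eval (N : ℂ) := by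
        conv_lhs => rw [hb']
        rw [eval_mul]
      have h3' : (X - C r : ℂ[X]).eval (N : ℂ) • (b'.eval (N : ℂ) • F ^ K) =
          (X - C r : ℂ[X]).eval (N : ℂ) • ((c none).eval (N : ℂ) • (bF.eval (N : ℂ) • F ^ K) +
            ∑ x, evX N (c (some x) • w x)) := by
        rw [smul_smul, ← hβ]
        exact h3
      have h4 := smul_right_injective _ hr' h3'
      have h5 := congrArg (fun z => z * F ^ N) h4
      simp only [evX_smul] at h5
      rw [add_mul, Finset.sum_mul] at h5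
      rw [mul_add, Finset.mul_sum]
      have h6 : F ^ K * (MvPolynomial.C (b'.eval (N : ℂ)) * F ^ N) =
          b'.eval (N : ℂ) • F ^ K * F ^ N := by
        rw [MvPolynomial.C_mul', mul_smul_comm, smul_mul_assoc]
      rw [h6, h5]
      congr 1
      · rw [MvPolynomial.C_mul', smul_mul_assoc, smul_mul_assoc, mul_smul_comm, mul_smul_comm]
      · refine Finset.sum_congr rfl fun l _ => ?_
        rw [smul_mul_assoc, ← hw l N, mul_smul_comm]
    apply hnd
    rw [hb', pow_succ']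
    exact mul_dvd_mul_left _ (hm0 b' hB)
  obtain ⟨ρ, hρ0, hρ⟩ := exists_coord W none r hmin
  -- the functional applied to the identity
  have hid : ∀ k : τ →₀ ℕ, b * ρ none * C (MvPolynomial.coeff k (E ^ K')) =
      bF * ∑ l, X ^ e l * ρ (some l) * MvPolynomial.coeff k (v l) := by
    intro k
    have h3 := hρ (fun o => Option.elim o (-(b * C (MvPolynomial.coeff k (E ^ K'))))
      (fun l => bF * (X ^ e l * MvPolynomial.coeff k (v l)))) (by
        rw [Fintype.sum_option]
        change -(b * C (MvPolynomial.coeff k (E ^ K'))) • (bF • MvPolynomial.map C (F ^ K)) +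
          ∑ l, (bF * (X ^ e l * MvPolynomial.coeff k (v l))) • w l = 0
        ext1 a
        rw [MvPolynomial.coeff_add, MvPolynomial.coeff_smul, MvPolynomial.coeff_smul,
          MvPolynomial.coeff_map, MvPolynomial.coeff_sum, MvPolynomial.coeff_zero]
        simp only [MvPolynomial.coeff_smul, smul_eq_mul]
        have h4 : ∑ l, bF * (X ^ e l * MvPolynomial.coeff k (v l)) * MvPolynomial.coeff a (w l) =
            bF * ∑ l, X ^ e l * (MvPolynomial.coeff a (w l) * MvPolynomial.coeff k (v l)) := by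
          rw [Finset.mul_sum]
          exact Finset.sum_congr rfl fun l _ => by ring
        rw [h4, ← hcoef a k, C_mul]
        ring)
    rw [Fintype.sum_option] at h3
    simp only [Option.elim] at h3
    have h4 : ∑ l, bF * (X ^ e l * MvPolynomial.coeff k (v l)) * ρ (some l) =
        bF * ∑ l, X ^ e l * ρ (some l) * MvPolynomial.coeff k (v l) := by
      rw [Finset.mul_sum]
      exact Finset.sum_congr rfl fun l _ => by ring
    rw [h4] at h3
    linear_combination -h3
  set b1 : ℂ[X] := C (MvPolynomial.coeff k0 (E ^ K'))⁻¹ *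
    ∑ l, X ^ e l * ρ (some l) * MvPolynomial.coeff k0 (v l) with hb1
  have hbb1 : b * ρ none = bF * b1 := by
    have h3 := congrArg (fun z => C (MvPolynomial.coeff k0 (E ^ K'))⁻¹ * z) (hid k0)
    have h4 : (C (MvPolynomial.coeff k0 (E ^ K'))⁻¹ : ℂ[X]) *
        C (MvPolynomial.coeff k0 (E ^ K')) = 1 := by
      rw [← C_mul, inv_mul_cancel₀ hk0, C_1]
    calc b * ρ none = C (MvPolynomial.coeff k0 (E ^ K'))⁻¹ *
          (b * ρ none * C (MvPolynomial.coeff k0 (E ^ K'))) := by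
          linear_combination (-(b * ρ none)) * h4
      _ = bF * b1 := by rw [h3, hb1]; ring
  have hid1 : ∀ k : τ →₀ ℕ, b1 * C (MvPolynomial.coeff k (E ^ K')) =
      ∑ l, X ^ e l * ρ (some l) * MvPolynomial.coeff k (v l) := by
    intro k
    apply mul_left_cancel₀ hbF0
    rw [← hid k, hbb1]
    ring
  have hB1 : IsBFunction E b1 := by
    rw [isB_iff]
    have hmem : ∑ l, (fun N : ℕ => (X ^ e l * ρ (some l)).eval (N : ℂ) •
        (Q' l : Module.End ℂ (MvPolynomial τ ℂ)) (E ^ (N + 1))) ∈ Sq E :=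
      Submodule.sum_mem _ fun l _ => Sq_poly _ (Sq_mem0 E ⟨(Q' l).1, (Q' l).2⟩)
    refine (congrArg (fun z => z ∈ Sq E) (funext fun N => ?_)).mp hmem
    rw [Finset.sum_apply]
    apply mul_left_cancel₀ (pow_ne_zero K' hE)
    have h3 : b1.eval (N : ℂ) • E ^ K' = ∑ l, (X ^ e l * ρ (some l)).eval (N : ℂ) •
        evX N (v l) := by
      ext1 k
      have h4 := congrArg (fun z => z.eval (N : ℂ)) (hid1 k)
      rw [eval_mul, eval_C, eval_finsetSum] at h4
      rw [MvPolynomial.coeff_smul, MvPolynomial.coeff_sum, smul_eq_mul, h4]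
      refine Finset.sum_congr rfl fun l _ => ?_
      rw [MvPolynomial.coeff_smul, coeff_evX, smul_eq_mul, eval_mul]
    have h6 : E ^ K' * (MvPolynomial.C (b1.eval (N : ℂ)) * E ^ N) =
        b1.eval (N : ℂ) • E ^ K' * E ^ N := by
      rw [MvPolynomial.C_mul', mul_smul_comm, smul_mul_assoc]
    rw [h6, h3, Finset.mul_sum, Finset.sum_mul]
    refine Finset.sum_congr rfl fun l _ => ?_
    rw [smul_mul_assoc, ← hv l N, mul_smul_comm]
  have h7 : (X - C r) ^ (m0 + n) ∣ b * ρ none := by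
    rw [hbb1, pow_add]
    exact mul_dvd_mul (hm0 bF hbF) (h2 b1 hB1)
  have h8 : ¬ (X - C r) ∣ ρ none := by
    rw [dvd_iff_isRoot]
    exact hρ0
  exact (pow_dvd_pow _ (by omega)).trans
    ((prime_X_sub_C r).pow_dvd_of_dvd_mul_right (m0 + n) h8 h7)

end Main

end Pool.Agent.Y230.PS
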