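import Pool.Agent.Y230.PS.ProdM
import Pool.Agent.W574.HS.Form

set_option autoImplicit false
set_option linter.unusedSectionVars false
set_option linter.unusedVariables false

/-! # From `∑ w_ij f_i g_j` to `(∑ y_i f_i) (∑ z_j g_j)` -/

namespace Pool.Agent.Y230.PS

open MvPolynomial Pool.Agent.W574.SM Pool.Agent.W574.HS Pool.Agent.W574.RO
open Pool.Agent.H628R4.TP

section Gen

variable {B S : Type}

theorem pderiv_comm' (a b : B) (u : MvPolynomial B ℂ) :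
    pderiv a (pderiv b u) = pderiv b (pderiv a u) := by
  classical
  have hX : ∀ a b j : B, pderiv a (pderiv b (X j : MvPolynomial B ℂ)) = 0 := by
    intro a b j
    rw [pderiv_X, Pi.single_apply]
    split_ifs
    · exact pderiv_one
    · exact map_zero _
  induction u using MvPolynomial.induction_on with
  | C r => simp only [pderiv_C, map_zero]
  | add p q hp hq => simp only [map_add, hp, hq]
  | mul_X p j hp =>
    rw [pderiv_mul, pderiv_mul, map_add, map_add, pderiv_mul, pderiv_mul, pderiv_mul, pderiv_mul,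
      hX, hX, hp]
    ring

/-- a substitution which commutes with derivatives -/
theorem pderiv_sub (φ : MvPolynomial B ℂ →ₐ[ℂ] MvPolynomial S ℂ) (a : B) (a' : S)
    (h : ∀ j, pderiv a' (φ (X j)) = φ (pderiv a (X j))) (u : MvPolynomial B ℂ) :
    pderiv a' (φ u) = φ (pderiv a u) := by
  induction u using MvPolynomial.induction_on with
  | C r => rw [pderiv_C, map_zero, ← algebraMap_eq, AlgHom.commutes, algebraMap_eq, pderiv_C]
  | add p q hp hq => simp only [map_add, hp, hq]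
  | mul_X p j hp => rw [map_mul, pderiv_mul, pderiv_mul, map_add, map_mul, map_mul, hp, h]

theorem pderiv_rename_ne {T : Type} (e : T → S) (a : S) (ha : ∀ t, e t ≠ a)
    (u : MvPolynomial T ℂ) : pderiv a (rename e u) = 0 := by
  induction u using MvPolynomial.induction_on with
  | C r => rw [rename_C, pderiv_C]
  | add p q hp hq => rw [map_add, map_add, hp, hq, add_zero]
  | mul_X p j hp =>
    rw [map_mul, rename_X, pderiv_mul, hp, pderiv_X_of_ne (ha j), zero_mul, mul_zero, add_zero]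

end Gen

/-- `∏_{j < M} (s + 1 - j)` -/
noncomputable def Dp (M : ℕ) : Polynomial ℂ :=
  ∏ j ∈ Finset.range M, (Polynomial.X + 1 - Polynomial.C (j : ℂ))

theorem Dp_eval (M s : ℕ) : (Dp M).eval (s : ℂ) = (((s + 1).descFactorial M : ℕ) : ℂ) := by
  unfold Dp
  induction M with
  | zero => simp
  | succ M ih =>
    rw [Finset.prod_range_succ, Polynomial.eval_mul, ih, Nat.descFactorial_succ]
    by_cases h : M ≤ s + 1
    · push_cast [Nat.cast_sub h]
      simp only [Polynomial.eval_sub, Polynomial.eval_add, Polynomial.eval_X, Polynomial.eval_one,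
        Polynomial.eval_C]
      ring
    · have : (s + 1).descFactorial M = 0 := Nat.descFactorial_eq_zero_iff_lt.2 (by omega)
      rw [this]
      simp

theorem Dp_dvd {M M' : ℕ} (h : M ≤ M') : ∃ c, Dp M' = c * Dp M := by
  unfold Dp
  refine ⟨∏ j ∈ Finset.Ico M M', (Polynomial.X + 1 - Polynomial.C (j : ℂ)), ?_⟩
  rw [mul_comm, Finset.prod_range_mul_prod_Ico _ h]

section Nn

variable {S : Type}

/-- the sequences which are `P(s) A ^ (s + 1)`, up to a product of factors `s + 1 - j` -/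
def Nn (A : MvPolynomial S ℂ) (v : ℕ → MvPolynomial S ℂ) : Prop :=
  ∃ M : ℕ, (fun s : ℕ => (Dp M).eval (s : ℂ) • v s) ∈ Sq A

theorem Nn_lift {A : MvPolynomial S ℂ} {v : ℕ → MvPolynomial S ℂ} {M M' : ℕ} (h : M ≤ M')
    (hv : (fun s : ℕ => (Dp M).eval (s : ℂ) • v s) ∈ Sq A) :
    (fun s : ℕ => (Dp M').eval (s : ℂ) • v s) ∈ Sq A := by
  obtain ⟨c, hc⟩ := Dp_dvd h
  refine (congrArg (fun z => z ∈ Sq A) (funext fun s => ?_)).mp (Sq_poly c hv)
  rw [hc, Polynomial.eval_mul, mul_smul]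

theorem Nn_add {A : MvPolynomial S ℂ} {v w : ℕ → MvPolynomial S ℂ} (hv : Nn A v) (hw : Nn A w) :
    Nn A (fun s => v s + w s) := by
  obtain ⟨M, h1⟩ := hv
  obtain ⟨M', h2⟩ := hw
  refine ⟨max M M', ?_⟩
  refine (congrArg (fun z => z ∈ Sq A) (funext fun s => ?_)).mp
    ((Sq A).add_mem (Nn_lift (le_max_left M M') h1) (Nn_lift (le_max_right M M') h2))
  rw [Pi.add_apply, smul_add]

theorem Nn_poly {A : MvPolynomial S ℂ} {v : ℕ → MvPolynomial S ℂ} (c : Polynomial ℂ)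
    (hv : Nn A v) : Nn A (fun s : ℕ => (c.eval (s : ℂ)) • v s) := by
  obtain ⟨M, h1⟩ := hv
  refine ⟨M, ?_⟩
  refine (congrArg (fun z => z ∈ Sq A) (funext fun s => ?_)).mp (Sq_poly c h1)
  rw [smul_comm]

theorem Nn_smul {A : MvPolynomial S ℂ} {v : ℕ → MvPolynomial S ℂ} (r : ℂ)
    (hv : Nn A v) : Nn A (fun s : ℕ => r • v s) := by
  have h := Nn_poly (Polynomial.C r) hv
  simpa only [Polynomial.eval_C] using h

theorem Nn_zero (A : MvPolynomial S ℂ) : Nn A (fun _ => 0) := by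
  refine ⟨0, ?_⟩
  refine (congrArg (fun z => z ∈ Sq A) (funext fun s => ?_)).mp (Sq A).zero_mem
  rw [Pi.zero_apply, smul_zero]

theorem Nn_weyl {A : MvPolynomial S ℂ} {v : ℕ → MvPolynomial S ℂ} (Q : weylS S)
    (hv : Nn A v) : Nn A (fun s : ℕ => (Q : Module.End ℂ (MvPolynomial S ℂ)) (v s)) := by
  obtain ⟨M, h1⟩ := hv
  refine ⟨M, ?_⟩
  refine (congrArg (fun z => z ∈ Sq A) (funext fun s => ?_)).mp (Sq_weyl Q h1)
  rw [map_smul]

theorem Nn_X {A : MvPolynomial S ℂ} {v : ℕ → MvPolynomial S ℂ} (i : S)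
    (hv : Nn A v) : Nn A (fun s : ℕ => X i * v s) :=
  Nn_weyl ⟨LinearMap.mulLeft ℂ (X i), Algebra.subset_adjoin (Or.inl ⟨i, rfl⟩)⟩ hv

theorem Nn_pderiv {A : MvPolynomial S ℂ} {v : ℕ → MvPolynomial S ℂ} (i : S)
    (hv : Nn A v) : Nn A (fun s : ℕ => pderiv i (v s)) :=
  Nn_weyl ⟨_, Algebra.subset_adjoin (Or.inr ⟨i, rfl⟩)⟩ hv

end Nn

section Restrict

variable {σ τ ι κ : Type} [Fintype ι] [Fintype κ] [DecidableEq ι] [DecidableEq κ]

/-- the restriction to `w_ij = y_i z_j` -/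
noncomputable def piR : MvPolynomial ((ι × κ) ⊕ (σ ⊕ τ)) ℂ →ₐ[ℂ]
    MvPolynomial ((ι ⊕ σ) ⊕ (κ ⊕ τ)) ℂ :=
  aeval (Sum.elim (fun q => X (Sum.inl (Sum.inl q.1)) * X (Sum.inr (Sum.inl q.2)))
    (Sum.elim (fun x => X (Sum.inl (Sum.inr x))) (fun t => X (Sum.inr (Sum.inr t)))))

/-- iterated derivatives with respect to the `w_ij` -/
noncomputable def DL : List (ι × κ) → MvPolynomial ((ι × κ) ⊕ (σ ⊕ τ)) ℂ →
    MvPolynomial ((ι × κ) ⊕ (σ ⊕ τ)) ℂ
  | [], u => u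
  | a :: l, u => DL l (pderiv (Sum.inl a) u)

theorem DL_add (l : List (ι × κ)) (u v : MvPolynomial ((ι × κ) ⊕ (σ ⊕ τ)) ℂ) :
    DL l (u + v) = DL l u + DL l v := by
  induction l generalizing u v with
  | nil => rfl
  | cons a l ih => rw [DL, DL, DL, map_add, ih]

theorem DL_smul (l : List (ι × κ)) (r : ℂ) (u : MvPolynomial ((ι × κ) ⊕ (σ ⊕ τ)) ℂ) :
    DL l (r • u) = r • DL l u := by
  induction l generalizing u with
  | nil => rfl
  | cons a l ih => rw [DL, DL, Derivation.map_smul, ih]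

theorem DL_X_inr (l : List (ι × κ)) (x : σ ⊕ τ) (u : MvPolynomial ((ι × κ) ⊕ (σ ⊕ τ)) ℂ) :
    DL l (X (Sum.inr x) * u) = X (Sum.inr x) * DL l u := by
  induction l generalizing u with
  | nil => rfl
  | cons a l ih =>
    rw [DL, DL, pderiv_mul, pderiv_X_of_ne (by simp), zero_mul, zero_add, ih]

theorem DL_pderiv (l : List (ι × κ)) (x : (ι × κ) ⊕ (σ ⊕ τ))
    (u : MvPolynomial ((ι × κ) ⊕ (σ ⊕ τ)) ℂ) : DL l (pderiv x u) = pderiv x (DL l u) := by
  induction l generalizing u with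
  | nil => rfl
  | cons a l ih => rw [DL, DL, pderiv_comm', ih]

/-- the sequences all of whose derivatives restrict to good sequences -/
def Cc (A : MvPolynomial ((ι ⊕ σ) ⊕ (κ ⊕ τ)) ℂ) (u : ℕ → MvPolynomial ((ι × κ) ⊕ (σ ⊕ τ)) ℂ) :
    Prop := ∀ l : List (ι × κ), Nn A (fun s => piR (DL l (u s)))

theorem Cc_add {A : MvPolynomial ((ι ⊕ σ) ⊕ (κ ⊕ τ)) ℂ}
    {u v : ℕ → MvPolynomial ((ι × κ) ⊕ (σ ⊕ τ)) ℂ} (hu : Cc A u) (hv : Cc A v) :
    Cc A (fun s => u s + v s) := by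
  intro l
  have := Nn_add (hu l) (hv l)
  simpa only [DL_add, map_add] using this

theorem Cc_poly {A : MvPolynomial ((ι ⊕ σ) ⊕ (κ ⊕ τ)) ℂ}
    {u : ℕ → MvPolynomial ((ι × κ) ⊕ (σ ⊕ τ)) ℂ} (c : Polynomial ℂ) (hu : Cc A u) :
    Cc A (fun s : ℕ => c.eval (s : ℂ) • u s) := by
  intro l
  have := Nn_poly c (hu l)
  simpa only [DL_smul, map_smul] using this

theorem Cc_smul {A : MvPolynomial ((ι ⊕ σ) ⊕ (κ ⊕ τ)) ℂ}
    {u : ℕ → MvPolynomial ((ι × κ) ⊕ (σ ⊕ τ)) ℂ} (r : ℂ) (hu : Cc A u) :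
    Cc A (fun s : ℕ => r • u s) := by
  have h := Cc_poly (Polynomial.C r) hu
  simpa only [Polynomial.eval_C] using h

theorem Cc_zero (A : MvPolynomial ((ι ⊕ σ) ⊕ (κ ⊕ τ)) ℂ) : Cc (σ := σ) (τ := τ) A
    (fun _ => (0 : MvPolynomial ((ι × κ) ⊕ (σ ⊕ τ)) ℂ)) := by
  intro l
  have h : DL l (0 : MvPolynomial ((ι × κ) ⊕ (σ ⊕ τ)) ℂ) = 0 := by
    have := DL_smul l 0 (0 : MvPolynomial ((ι × κ) ⊕ (σ ⊕ τ)) ℂ)
    rwa [zero_smul, zero_smul] at this
  simp only [h, map_zero]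
  exact Nn_zero A

theorem Cc_pderiv_inl {A : MvPolynomial ((ι ⊕ σ) ⊕ (κ ⊕ τ)) ℂ}
    {u : ℕ → MvPolynomial ((ι × κ) ⊕ (σ ⊕ τ)) ℂ} (q : ι × κ) (hu : Cc A u) :
    Cc A (fun s => pderiv (Sum.inl q) (u s)) := fun l => hu (q :: l)

theorem Cc_X_inl {A : MvPolynomial ((ι ⊕ σ) ⊕ (κ ⊕ τ)) ℂ}
    {u : ℕ → MvPolynomial ((ι × κ) ⊕ (σ ⊕ τ)) ℂ} (q : ι × κ) (hu : Cc A u) :
    Cc A (fun s => X (Sum.inl q) * u s) := by
  classical
  intro l
  induction l generalizing u with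
  | nil =>
    have h := Nn_X (Sum.inl (Sum.inl q.1)) (Nn_X (Sum.inr (Sum.inl q.2)) (hu []))
    refine (congrArg (Nn A) (funext fun s => ?_)).mp h
    change _ = piR (X (Sum.inl q) * u s)
    rw [map_mul, piR, aeval_X, Sum.elim_inl, mul_assoc]
    rfl
  | cons a l ih =>
    have h1 := ih (Cc_pderiv_inl a hu)
    have h2 : Nn A (fun s => piR (DL l ((if q = a then (1 : ℂ) else 0) • u s))) := by
      simp only [DL_smul, map_smul]
      exact Nn_smul _ (hu l)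
    refine (congrArg (Nn A) (funext fun s => ?_)).mp (Nn_add h1 h2)
    rw [DL, ← map_add, ← DL_add, pderiv_mul, pderiv_X, Pi.single_apply]
    congr 2
    by_cases h : q = a
    · rw [if_pos h, if_pos (by rw [h]), one_smul, one_mul, add_comm]
    · rw [if_neg h, if_neg (by simpa using h), zero_smul, zero_mul, add_comm]

/-- the variable in the restriction -/
def jR : σ ⊕ τ → (ι ⊕ σ) ⊕ (κ ⊕ τ) := Sum.elim (fun x => Sum.inl (Sum.inr x))
  (fun t => Sum.inr (Sum.inr t))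

theorem piR_X (x : σ ⊕ τ) : piR (X (Sum.inr x) : MvPolynomial ((ι × κ) ⊕ (σ ⊕ τ)) ℂ) =
    X (jR x) := by
  rw [piR, aeval_X, Sum.elim_inr]
  rcases x with x | x <;> rfl

theorem piR_pderiv (x : σ ⊕ τ) (u : MvPolynomial ((ι × κ) ⊕ (σ ⊕ τ)) ℂ) :
    pderiv (jR x) (piR u) = piR (pderiv (Sum.inr x) u) := by
  classical
  apply pderiv_sub
  rintro (q | y)
  · rw [pderiv_X_of_ne (by simp), map_zero, piR, aeval_X, Sum.elim_inl, pderiv_mul,
      pderiv_X_of_ne (by rcases x with x | x <;> simp [jR]),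
      pderiv_X_of_ne (by rcases x with x | x <;> simp [jR]), zero_mul, mul_zero, add_zero]
  · rw [piR_X, pderiv_X, pderiv_X, Pi.single_apply, Pi.single_apply]
    by_cases h : y = x
    · rw [if_pos (by rw [h]), if_pos (by rw [h]), map_one]
    · have hinj : Function.Injective (jR : σ ⊕ τ → (ι ⊕ σ) ⊕ (κ ⊕ τ)) := by
        rintro (a | a) (b | b) hab <;> simp_all [jR]
      rw [if_neg (fun h' => h (hinj h')), if_neg (fun h' => h (Sum.inr_injective h')), map_zero]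

theorem Cc_X_inr {A : MvPolynomial ((ι ⊕ σ) ⊕ (κ ⊕ τ)) ℂ}
    {u : ℕ → MvPolynomial ((ι × κ) ⊕ (σ ⊕ τ)) ℂ} (x : σ ⊕ τ) (hu : Cc A u) :
    Cc A (fun s => X (Sum.inr x) * u s) := by
  intro l
  have h := Nn_X (jR x) (hu l)
  simp only [DL_X_inr, map_mul, piR_X]
  exact h

theorem Cc_pderiv_inr {A : MvPolynomial ((ι ⊕ σ) ⊕ (κ ⊕ τ)) ℂ}
    {u : ℕ → MvPolynomial ((ι × κ) ⊕ (σ ⊕ τ)) ℂ} (x : σ ⊕ τ) (hu : Cc A u) :
    Cc A (fun s => pderiv (Sum.inr x) (u s)) := by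
  intro l
  have h := Nn_pderiv (jR x) (hu l)
  simp only [DL_pderiv, ← piR_pderiv]
  exact h

theorem Cc_gen {A : MvPolynomial ((ι ⊕ σ) ⊕ (κ ⊕ τ)) ℂ}
    (Q : Module.End ℂ (MvPolynomial ((ι × κ) ⊕ (σ ⊕ τ)) ℂ)) (hQ : Q ∈ weylS ((ι × κ) ⊕ (σ ⊕ τ))) :
    ∀ u : ℕ → MvPolynomial ((ι × κ) ⊕ (σ ⊕ τ)) ℂ, Cc A u → Cc A (fun s => Q (u s)) := by
  induction hQ using Algebra.adjoin_induction with
  | mem Q h =>
    intro u hu
    rcases h with ⟨i, rfl⟩ | ⟨i, rfl⟩
    · have h1 : Cc A (fun s => X i * u s) := by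
        rcases i with q | x
        · exact Cc_X_inl q hu
        · exact Cc_X_inr x hu
      simpa only [LinearMap.mulLeft_apply] using h1
    · have h1 : Cc A (fun s => pderiv i (u s)) := by
        rcases i with q | x
        · exact Cc_pderiv_inl q hu
        · exact Cc_pderiv_inr x hu
      simpa only [Derivation.coeFn_coe] using h1
  | algebraMap r =>
    intro u hu
    have h1 := Cc_smul r hu
    simpa only [Module.algebraMap_end_apply] using h1
  | add Q Q' _ _ h h' =>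
    intro u hu
    have h1 := Cc_add (h u hu) (h' u hu)
    simpa only [LinearMap.add_apply] using h1
  | mul Q Q' _ _ h h' =>
    intro u hu
    have h1 := h _ (h' u hu)
    simpa only [Module.End.mul_apply] using h1

end Restrict

end Pool.Agent.Y230.PS
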