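import Pool.Agent.Y230.PS.ProdR

set_option autoImplicit false
set_option linter.unusedSectionVars false
set_option linter.unusedVariables false

/-! # From `∑ w_ij f_i g_j` to `(∑ y_i f_i) (∑ z_j g_j)`: the powers -/

namespace Pool.Agent.Y230.PS

open MvPolynomial Pool.Agent.W574.SM Pool.Agent.W574.HS Pool.Agent.W574.RO
open Pool.Agent.H628R4.TP

section Restrict

variable {σ τ ι κ : Type} [Fintype ι] [Fintype κ] [DecidableEq ι] [DecidableEq κ]

theorem pderiv_univ {T J : Type} [Fintype J] [DecidableEq J] (h : J → MvPolynomial T ℂ) (a : J) :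
    pderiv (Sum.inl a) (univ h) = rename Sum.inr (h a) := by
  classical
  unfold Pool.Agent.W574.HS.univ
  rw [map_sum, Finset.sum_eq_single a]
  · rw [pderiv_mul, pderiv_X_self, one_mul, pderiv_rename_ne Sum.inr (Sum.inl a) (by simp),
      mul_zero, add_zero]
  · intro q _ hq
    rw [pderiv_mul, pderiv_X_of_ne (by simpa using hq), zero_mul,
      pderiv_rename_ne Sum.inr (Sum.inl a) (by simp), mul_zero, add_zero]
  · intro h'
    exact absurd (Finset.mem_univ _) h'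

theorem desc_mul (n k : ℕ) : (n : ℂ) * (((n - 1).descFactorial k : ℕ) : ℂ) =
    ((n.descFactorial (k + 1) : ℕ) : ℂ) := by
  cases n with
  | zero => simp
  | succ n =>
    rw [Nat.succ_descFactorial_succ]
    push_cast
    simp

theorem DL_pow (h : ι × κ → MvPolynomial (σ ⊕ τ) ℂ) (l : List (ι × κ)) :
    ∀ (c : MvPolynomial (σ ⊕ τ) ℂ) (n : ℕ), DL l (rename Sum.inr c * (univ h) ^ n) =
      ((n.descFactorial l.length : ℕ) : ℂ) • (rename Sum.inr (c * (l.map h).prod) *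
        (univ h) ^ (n - l.length)) := by
  induction l with
  | nil =>
    intro c n
    simp [DL]
  | cons a l ih =>
    intro c n
    have h1 : pderiv (Sum.inl a) (rename Sum.inr c * (univ h) ^ n) =
        (n : ℂ) • (rename Sum.inr (c * h a) * (univ h) ^ (n - 1)) := by
      rw [pderiv_mul, pderiv_rename_ne Sum.inr (Sum.inl a) (by simp), zero_mul, zero_add,
        pderiv_pow, pderiv_univ, map_mul, smul_eq_C_mul, map_natCast]
      ring
    rw [DL, h1, DL_smul, ih, smul_smul, desc_mul, List.length_cons, List.map_cons,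
      List.prod_cons, mul_assoc, Nat.sub_sub, add_comm 1 l.length]

/-- the two factors -/
noncomputable def Fh (τ κ : Type) (f : ι → MvPolynomial σ ℂ) :
    MvPolynomial ((ι ⊕ σ) ⊕ (κ ⊕ τ)) ℂ := rename Sum.inl (univ f)

/-- the two factors -/
noncomputable def Eh (σ ι : Type) (g : κ → MvPolynomial τ ℂ) :
    MvPolynomial ((ι ⊕ σ) ⊕ (κ ⊕ τ)) ℂ := rename Sum.inr (univ g)

theorem piR_inr (c : MvPolynomial (σ ⊕ τ) ℂ) :
    (piR (rename Sum.inr c) : MvPolynomial ((ι ⊕ σ) ⊕ (κ ⊕ τ)) ℂ) = rename jR c := by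
  induction c using MvPolynomial.induction_on with
  | C r => rw [rename_C, rename_C, ← algebraMap_eq, AlgHom.commutes, algebraMap_eq]
  | add p q hp hq => rw [map_add, map_add, map_add, hp, hq]
  | mul_X p j hp => rw [map_mul, map_mul, map_mul, hp, rename_X, piR_X, rename_X]

theorem rename_jR (f : ι → MvPolynomial σ ℂ) (g : κ → MvPolynomial τ ℂ) (q : ι × κ) :
    (rename jR (mulf f g q) : MvPolynomial ((ι ⊕ σ) ⊕ (κ ⊕ τ)) ℂ) =
      rename Sum.inl (rename Sum.inr (f q.1)) * rename Sum.inr (rename Sum.inr (g q.2)) := by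
  rw [mulf, map_mul, rename_rename, rename_rename, rename_rename, rename_rename]
  rfl

theorem piR_univ (f : ι → MvPolynomial σ ℂ) (g : κ → MvPolynomial τ ℂ) :
    piR (univ (mulf f g)) = Fh τ κ f * Eh σ ι g := by
  unfold Fh Eh Pool.Agent.W574.HS.univ
  rw [map_sum, map_sum, map_sum, Finset.sum_mul_sum, Fintype.sum_prod_type]
  refine Finset.sum_congr rfl fun i _ => Finset.sum_congr rfl fun k _ => ?_
  rw [map_mul, map_mul, map_mul, piR_inr, rename_jR, rename_X, rename_X, piR, aeval_X,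
    Sum.elim_inl]
  ring

/-- the operator `∏ ∂/∂y_i ∂/∂z_j` -/
noncomputable def DS (σ τ : Type) : List (ι × κ) → weylS ((ι ⊕ σ) ⊕ (κ ⊕ τ))
  | [] => 1
  | a :: l => DS σ τ l * (⟨_, Algebra.subset_adjoin (Or.inr ⟨Sum.inl (Sum.inl a.1), rfl⟩)⟩ *
      ⟨_, Algebra.subset_adjoin (Or.inr ⟨Sum.inr (Sum.inl a.2), rfl⟩)⟩)

theorem DS_cons (a : ι × κ) (l : List (ι × κ)) (u : MvPolynomial ((ι ⊕ σ) ⊕ (κ ⊕ τ)) ℂ) :
    (DS σ τ (a :: l)).1 u =
      (DS σ τ l).1 (pderiv (Sum.inl (Sum.inl a.1)) (pderiv (Sum.inr (Sum.inl a.2)) u)) := rfl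

theorem DS_pow (f : ι → MvPolynomial σ ℂ) (g : κ → MvPolynomial τ ℂ) (l : List (ι × κ)) :
    ∀ (c : MvPolynomial (σ ⊕ τ) ℂ) (n : ℕ),
      (DS σ τ l).1 (rename jR c * (Fh τ κ f ^ n * Eh σ ι g ^ n)) =
      (((n.descFactorial l.length : ℕ) : ℂ) * ((n.descFactorial l.length : ℕ) : ℂ)) •
        (rename jR (c * (l.map (mulf f g)).prod) *
          (Fh τ κ f ^ (n - l.length) * Eh σ ι g ^ (n - l.length))) := by
  induction l with
  | nil =>
    intro c n
    simp [DS]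
  | cons a l ih =>
    intro c n
    have hj1 : ∀ t, (jR t : (ι ⊕ σ) ⊕ (κ ⊕ τ)) ≠ Sum.inr (Sum.inl a.2) := by
      rintro (t | t) <;> simp [jR]
    have hj2 : ∀ t, (jR t : (ι ⊕ σ) ⊕ (κ ⊕ τ)) ≠ Sum.inl (Sum.inl a.1) := by
      rintro (t | t) <;> simp [jR]
    have hE1 : pderiv (Sum.inr (Sum.inl a.2)) (Eh σ ι g) =
        rename Sum.inr (rename Sum.inr (g a.2)) := by
      unfold Eh
      have h := Pool.Agent.Y230.PS.pderiv_sub (rename Sum.inr :
        MvPolynomial (κ ⊕ τ) ℂ →ₐ[ℂ] MvPolynomial ((ι ⊕ σ) ⊕ (κ ⊕ τ)) ℂ) (Sum.inl a.2)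
        (Sum.inr (Sum.inl a.2)) (fun j => by
          classical
          rw [rename_X, pderiv_X, pderiv_X, Pi.single_apply, Pi.single_apply]
          by_cases h : j = Sum.inl a.2
          · rw [if_pos h, if_pos (by rw [h]), map_one]
          · rw [if_neg h, if_neg (fun h' => h (Sum.inr_injective h')), map_zero]) (univ g)
      rw [h, pderiv_univ]
    have hF1 : pderiv (Sum.inl (Sum.inl a.1)) (Fh τ κ f) =
        rename Sum.inl (rename Sum.inr (f a.1)) := by
      unfold Fh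
      have h := Pool.Agent.Y230.PS.pderiv_sub (rename Sum.inl :
        MvPolynomial (ι ⊕ σ) ℂ →ₐ[ℂ] MvPolynomial ((ι ⊕ σ) ⊕ (κ ⊕ τ)) ℂ) (Sum.inl a.1)
        (Sum.inl (Sum.inl a.1)) (fun j => by
          classical
          rw [rename_X, pderiv_X, pderiv_X, Pi.single_apply, Pi.single_apply]
          by_cases h : j = Sum.inl a.1
          · rw [if_pos h, if_pos (by rw [h]), map_one]
          · rw [if_neg h, if_neg (fun h' => h (Sum.inl_injective h')), map_zero]) (univ f)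
      rw [h, pderiv_univ]
    have hF2 : pderiv (Sum.inr (Sum.inl a.2)) (Fh τ κ f) = 0 :=
      pderiv_rename_ne _ _ (by simp) _
    have hE2 : pderiv (Sum.inl (Sum.inl a.1)) (Eh σ ι g) = 0 :=
      pderiv_rename_ne _ _ (by simp) _
    have h1 : pderiv (Sum.inr (Sum.inl a.2)) (rename jR c * (Fh τ κ f ^ n * Eh σ ι g ^ n)) =
        rename jR c * (Fh τ κ f ^ n * ((n : MvPolynomial _ ℂ) * Eh σ ι g ^ (n - 1) *
          rename Sum.inr (rename Sum.inr (g a.2)))) := by
      rw [pderiv_mul, pderiv_rename_ne _ _ hj1, zero_mul, zero_add, pderiv_mul, pderiv_pow, hF2,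
        mul_zero, zero_mul, zero_add, pderiv_pow, hE1]
    have h2 : pderiv (Sum.inl (Sum.inl a.1)) (rename jR c * (Fh τ κ f ^ n *
        ((n : MvPolynomial _ ℂ) * Eh σ ι g ^ (n - 1) *
          rename Sum.inr (rename Sum.inr (g a.2))))) =
        ((n : ℂ) * (n : ℂ)) • (rename jR (c * mulf f g a) *
          (Fh τ κ f ^ (n - 1) * Eh σ ι g ^ (n - 1))) := by
      have hn : pderiv (Sum.inl (Sum.inl a.1)) ((n : MvPolynomial ((ι ⊕ σ) ⊕ (κ ⊕ τ)) ℂ)) = 0 := by
        rw [← map_natCast (C : ℂ →+* MvPolynomial ((ι ⊕ σ) ⊕ (κ ⊕ τ)) ℂ), pderiv_C]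
      rw [pderiv_mul, pderiv_rename_ne _ _ hj2, zero_mul, zero_add, pderiv_mul, pderiv_pow, hF1,
        pderiv_mul, pderiv_mul, hn, pderiv_pow, hE2,
        pderiv_rename_ne Sum.inr (Sum.inl (Sum.inl a.1)) (by simp), map_mul, rename_jR,
        smul_eq_C_mul, map_mul, map_natCast]
      ring
    rw [DS_cons, h1, h2, map_smul, ih, smul_smul, List.length_cons, List.map_cons,
      List.prod_cons, mul_assoc c, Nat.sub_sub, add_comm 1 l.length, ← desc_mul n l.length]
    congr 1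
    ring

/-- the powers are in the class -/
theorem Cc_base (f : ι → MvPolynomial σ ℂ) (g : κ → MvPolynomial τ ℂ) :
    Cc (Fh τ κ f * Eh σ ι g) (fun s => (univ (mulf f g)) ^ (s + 1)) := by
  intro l
  refine ⟨l.length, ?_⟩
  refine (congrArg (fun z => z ∈ Sq (Fh τ κ f * Eh σ ι g)) (funext fun s => ?_)).mp
    (Sq_mem0 (Fh τ κ f * Eh σ ι g) (DS σ τ l))
  have h1 := DS_pow f g l 1 (s + 1)
  have h2 := DL_pow (mulf f g) l 1 (s + 1)
  rw [map_one, one_mul] at h1 h2
  change (DS σ τ l).1 ((Fh τ κ f * Eh σ ι g) ^ (s + 1)) =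
    (Dp l.length).eval (s : ℂ) • piR (DL l (univ (mulf f g) ^ (s + 1)))
  rw [mul_pow, h1, h2, map_smul, smul_smul, Dp_eval, one_mul, map_mul (piR (σ := σ) (τ := τ)),
    piR_inr, map_pow (piR (σ := σ) (τ := τ)), piR_univ, mul_pow]

theorem Cc_Sq (f : ι → MvPolynomial σ ℂ) (g : κ → MvPolynomial τ ℂ)
    (v : ℕ → MvPolynomial ((ι × κ) ⊕ (σ ⊕ τ)) ℂ) (hv : v ∈ Sq (univ (mulf f g))) :
    Cc (Fh τ κ f * Eh σ ι g) v := by
  induction hv using Submodule.span_induction with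
  | mem v h =>
    obtain ⟨m, Q, rfl⟩ := h
    have h1 := Cc_poly (Polynomial.X ^ m) (Cc_gen Q.1 Q.2 _ (Cc_base f g))
    simpa only [Polynomial.eval_pow, Polynomial.eval_X] using h1
  | zero => exact Cc_zero _
  | add v w _ _ hv hw => exact Cc_add hv hw
  | smul r v _ hv => exact Cc_smul r hv

/-- **Restriction** of the functional equation of `∑ w_ij f_i g_j` to `w_ij = y_i z_j`. -/
theorem restr (f : ι → MvPolynomial σ ℂ) (g : κ → MvPolynomial τ ℂ) (b : Polynomial ℂ)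
    (hb : IsBFunction (univ (mulf f g)) b) :
    ∃ M, IsBFunction (Fh τ κ f * Eh σ ι g) (b * Dp M) := by
  obtain ⟨M, hM⟩ := Cc_Sq f g _ ((isB_iff _ b).1 hb) []
  refine ⟨M, (isB_iff _ _).2 ?_⟩
  refine (congrArg (fun z => z ∈ Sq (Fh τ κ f * Eh σ ι g)) (funext fun s => ?_)).mp hM
  change (Dp M).eval (s : ℂ) • piR (C (b.eval (s : ℂ)) * univ (mulf f g) ^ s) = _
  rw [map_mul, map_pow, piR_univ, ← algebraMap_eq, AlgHom.commutes, algebraMap_eq,
    smul_eq_C_mul, ← mul_assoc, ← C_mul, Polynomial.eval_mul, mul_comm (b.eval _)]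

end Restrict

end Pool.Agent.Y230.PS
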