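import Pool.Agent.Y230.PS.Had
import Pool.Agent.Y230.PT.Global
import Pool.Agent.W427.SMC.Poin4

set_option autoImplicit false
set_option linter.unusedSectionVars false
set_option linter.unusedVariables false

/-! # The volumes of the sets `ρ ≤ p ^ (-e)` and the integral of `ρ ^ s` -/

namespace Pool.Agent.Y230.PS

open MeasureTheory Polynomial Pool.Agent.W427.SMC Pool.Agent.Y230.PT
open scoped ENNReal

attribute [local instance] msZ bsZ

variable {p : ℕ} [Fact p.Prime]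

/-- the multiplicities outside of the closed unit disc -/
noncomputable def tr (m : ℂ → ℕ∞) (T : ℂ) : ℕ∞ := if ‖T‖ ≤ 1 then 0 else m T

/-- `F` is a rational function of `p ^ (-s)`, with poles of order at most `m` outside of the closed
unit disc, and no other poles except `0` -/
def FR (p : ℕ) [Fact p.Prime] (m : ℂ → ℕ∞) (F : ℝ → ℂ) : Prop :=
  ∀ T0 : ℂ, T0 ≠ 0 → ∃ M : ℕ, (M : ℕ∞) ≤ tr m T0 ∧ Reg p T0 M F

theorem FR.rat {m : ℂ → ℕ∞} {F : ℝ → ℂ} (h : FR p m F) :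
    ∃ D P : ℂ[X], D ≠ 0 ∧ (∀ s : ℝ, 0 ≤ s →
      D.eval ((tr' p s : ℝ) : ℂ) * F s = P.eval ((tr' p s : ℝ) : ℂ)) ∧
      ∀ T, T ≠ 0 → (D.rootMultiplicity T : ℕ∞) ≤ tr m T := by
  classical
  choose M hM hR using h
  obtain ⟨D, P, h1, h2, h3⟩ := exists_rat F (fun T0 => if h : T0 ≠ 0 then M T0 h else 0)
    (fun T0 hT0 => by
      have e : (if h : T0 ≠ 0 then M T0 h else 0) = M T0 hT0 := dif_pos hT0
      rw [e]
      exact hR T0 hT0)
    (fun T0 hT0 hT1 => by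
      have h4 := hM T0 hT0
      rw [tr, if_pos hT1] at h4
      have h5 : M T0 hT0 = 0 := by
        have : (M T0 hT0 : ℕ∞) = 0 := nonpos_iff_eq_zero.1 h4
        exact_mod_cast this
      have h6 := hR T0 hT0
      rwa [h5] at h6)
  refine ⟨D, P, h1, h2, fun T hT => ?_⟩
  have h4 : D.rootMultiplicity T ≤ (if h : T ≠ 0 then M T h else 0) := h3 T hT
  rw [dif_pos hT] at h4
  exact le_trans (by exact_mod_cast h4) (hM T hT)

theorem FR_of_rat {m : ℂ → ℕ∞} {F : ℝ → ℂ} (D P : ℂ[X]) (hD : D ≠ 0)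
    (h : ∀ s : ℝ, 0 ≤ s → D.eval ((tr' p s : ℝ) : ℂ) * F s = P.eval ((tr' p s : ℝ) : ℂ))
    (hm : ∀ T, T ≠ 0 → (D.rootMultiplicity T : ℕ∞) ≤ tr m T) : FR p m F := by
  intro T0 hT0
  refine ⟨D.rootMultiplicity T0, hm T0 hT0, ?_⟩
  obtain ⟨Q, hQ, hnd⟩ := exists_eq_pow_rootMultiplicity_mul_and_not_dvd D hD T0
  refine ⟨Q, P, fun h0 => hnd (dvd_iff_isRoot.2 h0), fun s hs => ?_⟩
  rw [← hQ]
  exact h s hs

/-- the values of a size function -/
def Val (p : ℕ) (r : ℝ) : Prop := r = 0 ∨ ∃ k : ℕ, r = ((p : ℝ)⁻¹) ^ k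

theorem Val.exists_z {r : ℝ} (h : Val p r) : ∃ z : ℤ_[p], ‖z‖ = r := by
  rcases h with rfl | ⟨k, rfl⟩
  · exact ⟨0, norm_zero⟩
  · refine ⟨(p : ℤ_[p]) ^ k, ?_⟩
    rw [norm_pow, PadicInt.norm_p]

variable {Ω : Type} [MeasurableSpace Ω] (μ : Measure Ω) [IsProbabilityMeasure μ] (ρ : Ω → ℝ)

/-- the integral of `ρ ^ s` -/
noncomputable def FZ (s : ℝ) : ℂ := ((∫⁻ x, ENNReal.ofReal (ρ x ^ s) ∂μ).toReal : ℂ)

/-- the volume of the set `ρ ≤ p ^ (-e)` -/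
noncomputable def Vo (p : ℕ) (e : ℕ) : ℝ := (μ {x | ρ x ≤ ((p : ℝ)⁻¹) ^ e}).toReal

theorem Vo_nonneg (e : ℕ) : 0 ≤ Vo μ ρ p e := ENNReal.toReal_nonneg

theorem Vo_le_one (e : ℕ) : Vo μ ρ p e ≤ 1 := by
  refine ENNReal.toReal_le_of_le_ofReal zero_le_one ?_
  rw [ENNReal.ofReal_one]
  exact prob_le_one

theorem Vo_zero (hv : ∀ x, Val p (ρ x)) : Vo μ ρ p 0 = 1 := by
  unfold Vo
  have : ({x | ρ x ≤ ((p : ℝ)⁻¹) ^ 0} : Set Ω) = Set.univ := by
    ext x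
    simp only [Set.mem_univ, iff_true]
    obtain ⟨z, hz⟩ := (hv x).exists_z
    rw [Set.mem_ofPred_eq, ← hz, pow_zero]
    exact PadicInt.norm_le_one z
  rw [this, measure_univ, ENNReal.toReal_one]

open Classical in
theorem val_id (s : ℝ) (hs : 0 < s) {r : ℝ} (h : Val p r) :
    ENNReal.ofReal (r ^ s) + (1 - Tt p s) * ∑' m : ℕ, (if r ≤ ((p : ℝ)⁻¹) ^ (m + 1) then Tt p s ^ m
      else 0) = 1 := by
  obtain ⟨z, rfl⟩ := h.exists_z
  have h1 := tau_id p s hs z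
  rw [← h1]
  congr 3
  funext m
  have h2 : (‖z‖ ≤ ((p : ℝ)⁻¹) ^ (m + 1)) ↔ (p : ℤ_[p]) ^ (m + 1) ∣ z := by
    rw [dvd_iff_norm, norm_pow, PadicInt.norm_p]
  simp only [h2]

open Classical in
theorem Zo_add (hm : Measurable ρ) (hv : ∀ x, Val p (ρ x)) (s : ℝ) (hs : 0 < s) :
    ∫⁻ x, ENNReal.ofReal (ρ x ^ s) ∂μ + (1 - Tt p s) *
      ∑' m : ℕ, Tt p s ^ m * μ {x | ρ x ≤ ((p : ℝ)⁻¹) ^ (m + 1)} = 1 := by
  have hcl : ∀ m : ℕ, MeasurableSet {x | ρ x ≤ ((p : ℝ)⁻¹) ^ m} := fun m =>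
    measurableSet_le hm measurable_const
  have h1 : ∀ m : ℕ, Tt p s ^ m * μ {x | ρ x ≤ ((p : ℝ)⁻¹) ^ (m + 1)} =
      ∫⁻ x, (if ρ x ≤ ((p : ℝ)⁻¹) ^ (m + 1) then Tt p s ^ m else 0) ∂μ := by
    intro m
    rw [← lintegral_indicator_const (hcl (m + 1))]
    refine lintegral_congr fun z => ?_
    by_cases h : ρ z ≤ ((p : ℝ)⁻¹) ^ (m + 1)
    · rw [if_pos h, Set.indicator_of_mem (by exact h)]
    · rw [if_neg h, Set.indicator_of_notMem (by exact h)]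
  have hmm : ∀ m : ℕ, Measurable (fun x =>
      (if ρ x ≤ ((p : ℝ)⁻¹) ^ (m + 1) then Tt p s ^ m else 0)) := fun m =>
    Measurable.ite (hcl (m + 1)) measurable_const measurable_const
  simp only [h1]
  rw [← lintegral_tsum (fun m => (hmm m).aemeasurable),
    ← lintegral_const_mul _ (Measurable.ennreal_tsum hmm)]
  have hm2 : Measurable (fun x => ENNReal.ofReal (ρ x ^ s)) :=
    ENNReal.measurable_ofReal.comp (hm.pow_const s)
  refine (lintegral_add_left hm2 _).symm.trans ?_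
  rw [lintegral_congr (g := fun _ => 1) fun z => val_id s hs (hv z)]
  simp

/-- the relation between the volumes and the integral -/
theorem Vo_val (hm : Measurable ρ) (hv : ∀ x, Val p (ρ x)) (s : ℝ) (hs : 0 < s) :
    (1 - tr' p s) * ∑' m : ℕ, Vo μ ρ p m * tr' p s ^ m =
      1 - tr' p s * (∫⁻ x, ENNReal.ofReal (ρ x ^ s) ∂μ).toReal := by
  have hT := Tt_lt_one p s hs
  have h1 : 1 - Tt p s ≠ ⊤ := (lt_of_le_of_lt tsub_le_self ENNReal.one_lt_top).ne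
  set Z := ∫⁻ x, ENNReal.ofReal (ρ x ^ s) ∂μ with hZ
  set A : ℝ≥0∞ := ∑' m : ℕ, Tt p s ^ m * μ {x | ρ x ≤ ((p : ℝ)⁻¹) ^ (m + 1)} with hA
  have h2 : Z + (1 - Tt p s) * A = 1 := Zo_add μ ρ hm hv s hs
  have hZt : Z ≠ ⊤ := by
    intro h
    rw [h] at h2
    simp at h2
  have hBt : (1 - Tt p s) * A ≠ ⊤ := by
    intro h
    rw [h] at h2
    simp at h2
  have h3 := congrArg ENNReal.toReal h2
  rw [ENNReal.toReal_add hZt hBt, ENNReal.toReal_mul, ENNReal.toReal_sub_of_le hT.le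
    ENNReal.one_ne_top, ENNReal.toReal_one, Tt_toReal] at h3
  have h4 : A.toReal = ∑' m : ℕ, Vo μ ρ p (m + 1) * tr' p s ^ m := by
    rw [hA, ENNReal.tsum_toReal_eq]
    · refine tsum_congr fun m => ?_
      rw [ENNReal.toReal_mul, ENNReal.toReal_pow, Tt_toReal, mul_comm]
      rfl
    · intro m
      exact ENNReal.mul_ne_top (ENNReal.pow_ne_top (hT.trans ENNReal.one_lt_top).ne)
        (measure_ne_top _ _)
  have ht0 := tr'_pos p s
  have ht1 := tr'_lt p s hs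
  have hsum : Summable fun m : ℕ => Vo μ ρ p m * tr' p s ^ m := by
    refine Summable.of_nonneg_of_le (fun m => mul_nonneg (Vo_nonneg μ ρ m) (pow_nonneg ht0.le m))
      (fun m => ?_) (summable_geometric_of_lt_one ht0.le ht1)
    have := mul_le_mul_of_nonneg_right (Vo_le_one (p := p) μ ρ m) (pow_nonneg ht0.le m)
    rwa [one_mul] at this
  rw [hsum.tsum_eq_zero_add, Vo_zero μ ρ hv, pow_zero, mul_one]
  have h5 : ∑' m : ℕ, Vo μ ρ p (m + 1) * tr' p s ^ (m + 1) = tr' p s * A.toReal := by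
    rw [h4, ← tsum_mul_left]
    refine tsum_congr fun m => ?_
    ring
  rw [h5]
  linear_combination (tr' p s) * h3

/-- the sequence of the volumes -/
noncomputable def Vc (p : ℕ) : ℕ → ℂ := fun e => (Vo μ ρ p e : ℂ)

theorem Vc_conv : Conv (ser (Vc μ ρ p)) (fun t => ∑' m : ℕ, (Vo μ ρ p m : ℂ) * (t : ℂ) ^ m) := by
  intro t h0 h1
  have hc : ∀ m, PowerSeries.coeff m (ser (Vc μ ρ p)) = (Vo μ ρ p m : ℂ) := fun m =>
    coeff_ser _ m
  have h2 : Summable (fun m => ‖PowerSeries.coeff m (ser (Vc μ ρ p))‖ * t ^ m) := by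
    refine Summable.of_nonneg_of_le (fun m => by positivity) (fun m => ?_)
      (summable_geometric_of_lt_one h0.le h1)
    rw [hc, Complex.norm_real, Real.norm_of_nonneg (Vo_nonneg μ ρ m)]
    have := mul_le_mul_of_nonneg_right (Vo_le_one (p := p) μ ρ m) (pow_nonneg h0.le m)
    rwa [one_mul] at this
  refine ⟨h2, ?_⟩
  have h3 : Summable (fun m => PowerSeries.coeff m (ser (Vc μ ρ p)) * (t : ℂ) ^ m) := by
    refine Summable.of_norm (h2.congr fun m => ?_)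
    rw [norm_mul, norm_pow, Complex.norm_real, Real.norm_of_nonneg h0.le]
  have h4 := h3.hasSum
  simp only [hc] at h4 ⊢
  exact h4

/-- the relation with complex numbers -/
theorem Vo_valC (hm : Measurable ρ) (hv : ∀ x, Val p (ρ x)) (s : ℝ) (hs : 0 < s) :
    (1 - (tr' p s : ℂ)) * ∑' m : ℕ, (Vo μ ρ p m : ℂ) * (tr' p s : ℂ) ^ m =
      1 - (tr' p s : ℂ) * FZ μ ρ s := by
  have h9 := congrArg (fun x : ℝ => (x : ℂ)) (Vo_val μ ρ hm hv s hs)
  simp only [Complex.ofReal_mul, Complex.ofReal_sub, Complex.ofReal_one,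
    Complex.ofReal_tsum, Complex.ofReal_pow] at h9
  exact h9

theorem FZ_zero : FZ μ ρ 0 = 1 := by
  unfold FZ
  have : ∫⁻ x, ENNReal.ofReal (ρ x ^ (0 : ℝ)) ∂μ = 1 := by simp
  rw [this]
  simp

/-- from the integral to the volumes -/
theorem Vc_mem (hm : Measurable ρ) (hv : ∀ x, Val p (ρ x)) {m : ℂ → ℕ∞}
    (h : FR p m (FZ μ ρ)) : Vc μ ρ p ∈ EP (tr m) := by
  obtain ⟨D, P, hD, h1, h2⟩ := h.rat
  have h3 : D.eval 1 = P.eval 1 := by
    have h2 := h1 0 le_rfl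
    have h3 : tr' p 0 = 1 := by simp [tr']
    rw [h3, FZ_zero] at h2
    simpa using h2
  obtain ⟨A, hA⟩ : (1 - X : ℂ[X]) ∣ D - X * P := by
    have h4 : (X - C 1 : ℂ[X]) ∣ D - X * P := by
      rw [dvd_iff_isRoot, IsRoot.def]
      simp [h3]
    have h5 : (1 - X : ℂ[X]) = -(X - C 1) := by rw [C_1]; ring
    rw [h5]
    exact (neg_dvd).2 h4
  refine rat_EP _ D hD _ A ?_ h2
  rw [← sub_eq_zero]
  refine Conv.zero_of ?_
  have h4 := ((Vc_conv (p := p) μ ρ).poly_mul D).add ((Conv.poly A).C_mul (-1))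
  have h5 : ((D : ℂ[X]) : PowerSeries ℂ) * ser (Vc μ ρ p) - (A : PowerSeries ℂ) =
      ((D : ℂ[X]) : PowerSeries ℂ) * ser (Vc μ ρ p) +
        PowerSeries.C (-1) * (A : PowerSeries ℂ) := by
    rw [map_neg, map_one]; ring
  rw [h5]
  refine h4.congr fun t h0 h1' => ?_
  obtain ⟨s, hs, rfl⟩ := exists_s p t h0 h1'
  have h7 := h1 s hs.le
  have h8 := Vo_valC μ ρ hm hv s hs
  have h9 : (1 - (tr' p s : ℂ)) ≠ 0 := by
    have : tr' p s ≠ 1 := h1'.ne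
    rw [sub_ne_zero]
    exact_mod_cast this.symm
  have h10 := congrArg (fun Q : ℂ[X] => Q.eval (tr' p s : ℂ)) hA
  simp only [eval_sub, eval_mul, eval_X, eval_one] at h10
  refine mul_left_cancel₀ h9 ?_
  rw [mul_zero]
  linear_combination D.eval (tr' p s : ℂ) * h8 - (tr' p s : ℂ) * h7 + h10

/-- from the volumes to the integral -/
theorem FR_of_Vc (hm : Measurable ρ) (hv : ∀ x, Val p (ρ x)) {m : ℂ → ℕ∞}
    (h : Vc μ ρ p ∈ EP (tr m)) : FR p m (FZ μ ρ) := by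
  obtain ⟨D, A, hD, h1, h2⟩ := EP_rat _ _ h
  refine FR_of_rat (X * D) (D - (1 - X) * A) (mul_ne_zero X_ne_zero hD) (fun s hs => ?_)
    (fun T hT => ?_)
  · rcases hs.eq_or_lt with rfl | hs
    · have h3 : tr' p 0 = 1 := by simp [tr']
      rw [h3, FZ_zero]
      simp
    · have h3 := (Vc_conv (p := p) μ ρ).poly_mul D
      rw [h1] at h3
      have h4 := Conv.poly A
      have h5 := (h3 _ (tr'_pos p s) (tr'_lt p s hs)).2.unique
        (h4 _ (tr'_pos p s) (tr'_lt p s hs)).2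
      have h8 := Vo_valC μ ρ hm hv s hs
      simp only [eval_sub, eval_mul, eval_X, eval_one]
      simp only at h5
      linear_combination (D.eval (tr' p s : ℂ)) * h8 - (1 - (tr' p s : ℂ)) * h5
  · rw [rootMultiplicity_mul (mul_ne_zero X_ne_zero hD)]
    have : (X : ℂ[X]).rootMultiplicity T = 0 := by
      apply rootMultiplicity_eq_zero
      rw [IsRoot, eval_X]
      exact hT
    rw [this, zero_add]
    exact h2 T hT

/-- **The maximum of two size functions in disjoint sets of variables.** -/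
theorem FR_max {Y : Type} [MeasurableSpace Y] (ν : Measure Y) [IsProbabilityMeasure ν] (τ : Y → ℝ)
    (hm : Measurable ρ) (hv : ∀ x, Val p (ρ x)) (hm' : Measurable τ) (hv' : ∀ x, Val p (τ x))
    (m1 m2 m3 : ℂ → ℕ∞)
    (H : ∀ T1 T2 : ℂ, 1 < ‖T1‖ → 1 < ‖T2‖ → ∀ a b : ℕ, 1 ≤ a → 1 ≤ b →
      (a : ℕ∞) ≤ m1 T1 → (b : ℕ∞) ≤ m2 T2 → ((a + b - 1 : ℕ) : ℕ∞) ≤ m3 (T1 * T2))
    (h1 : FR p m1 (FZ μ ρ)) (h2 : FR p m2 (FZ ν τ)) :
    FR p m3 (FZ (μ.prod ν) (fun z => max (ρ z.1) (τ z.2))) := by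
  have hmx : Measurable (fun z : Ω × Y => max (ρ z.1) (τ z.2)) :=
    (hm.comp measurable_fst).max (hm'.comp measurable_snd)
  have hvx : ∀ z : Ω × Y, Val p (max (ρ z.1) (τ z.2)) := by
    intro z
    rcases max_choice (ρ z.1) (τ z.2) with h | h
    · rw [h]; exact hv _
    · rw [h]; exact hv' _
  refine FR_of_Vc _ _ hmx hvx ?_
  have e : Vc (μ.prod ν) (fun z : Ω × Y => max (ρ z.1) (τ z.2)) p = Vc μ ρ p * Vc ν τ p := by
    funext e
    rw [Pi.mul_apply]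
    unfold Vc
    rw [← Complex.ofReal_mul]
    congr 1
    unfold Vo
    rw [← ENNReal.toReal_mul]
    congr 1
    have : ({z | max (ρ z.1) (τ z.2) ≤ ((p : ℝ)⁻¹) ^ e} : Set (Ω × Y)) =
        {x | ρ x ≤ ((p : ℝ)⁻¹) ^ e} ×ˢ {y | τ y ≤ ((p : ℝ)⁻¹) ^ e} := by
      ext z
      rw [Set.mem_prod, Set.mem_ofPred_eq, Set.mem_ofPred_eq, Set.mem_ofPred_eq]
      exact max_le_iff
    rw [this, Measure.prod_prod]
  rw [e]
  refine had (tr m1) (tr m2) (tr m3) ?_ _ _ (Vc_mem _ _ hm hv h1) (Vc_mem _ _ hm' hv' h2)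
  intro T1 T2 hT1 hT2 a b ha hb h3 h4
  have h5 : 1 < ‖T1‖ := by
    by_contra hn
    rw [tr, if_pos (not_lt.1 hn)] at h3
    have : (a : ℕ∞) = 0 := nonpos_iff_eq_zero.1 h3
    have : a = 0 := by exact_mod_cast this
    omega
  have h6 : 1 < ‖T2‖ := by
    by_contra hn
    rw [tr, if_pos (not_lt.1 hn)] at h4
    have : (b : ℕ∞) = 0 := nonpos_iff_eq_zero.1 h4
    have : b = 0 := by exact_mod_cast this
    omega
  rw [tr, if_neg (not_le.2 h5)] at h3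
  rw [tr, if_neg (not_le.2 h6)] at h4
  rw [tr, if_neg]
  · exact H T1 T2 h5 h6 a b ha hb h3 h4
  · rw [not_le, norm_mul]
    exact one_lt_mul_of_lt_of_le h5 h6.le

end Pool.Agent.Y230.PS
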